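import Mathlib

set_option autoImplicit false
open Finset
open scoped Classical

namespace Pool.Agent.Lib.MP_24a1b5_co

variable {V : Type*}

/-- `I` is an independent set of `G`. -/
def Ind (G : SimpleGraph V) (I : Finset V) : Prop := ∀ a ∈ I, ∀ b ∈ I, ¬ G.Adj a b

/-- vertices of `S` outside the closed neighbourhood of `v` -/
noncomputable def del (G : SimpleGraph V) (v : V) (S : Finset V) : Finset V :=
  S.filter (fun u => u ≠ v ∧ ¬ G.Adj v u)

/-- neighbours of `v` in `S` -/
noncomputable def nb (G : SimpleGraph V) (v : V) (S : Finset V) : Finset V :=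
  S.filter (fun u => G.Adj v u)

lemma mem_del {G : SimpleGraph V} {v u : V} {S : Finset V} :
    u ∈ del G v S ↔ u ∈ S ∧ u ≠ v ∧ ¬ G.Adj v u := by
  simp [del]

lemma mem_nb {G : SimpleGraph V} {v u : V} {S : Finset V} :
    u ∈ nb G v S ↔ u ∈ S ∧ G.Adj v u := by
  simp [nb]

lemma del_subset (G : SimpleGraph V) (v : V) (S : Finset V) : del G v S ⊆ S :=
  Finset.filter_subset _ _

lemma del_subset_erase (G : SimpleGraph V) (v : V) (S : Finset V) : del G v S ⊆ S.erase v := by
  intro u hu
  rw [mem_del] at hu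
  exact Finset.mem_erase.2 ⟨hu.2.1, hu.1⟩

/-- independence polynomial with activities `a` on the vertex set `S` -/
noncomputable def Z {R : Type*} [CommSemiring R] (G : SimpleGraph V) (a : V → R)
    (S : Finset V) : R :=
  ∑ I ∈ S.powerset, if Ind G I then ∏ v ∈ I, a v else 0

section basic
variable {R : Type*} [CommSemiring R] (G : SimpleGraph V) (a : V → R)

lemma Ind.subset {G : SimpleGraph V} {I J : Finset V} (h : Ind G J) (hI : I ⊆ J) : Ind G I :=
  fun x hx y hy => h x (hI hx) y (hI hy)

lemma ind_empty : Ind G (∅ : Finset V) := by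
  intro x hx; simp at hx

lemma ind_insert {v : V} {I : Finset V} :
    Ind G (insert v I) ↔ Ind G I ∧ ∀ u ∈ I, ¬ G.Adj v u := by
  constructor
  · intro h
    refine ⟨h.subset (Finset.subset_insert _ _), fun u hu => h v (Finset.mem_insert_self _ _) u
      (Finset.mem_insert_of_mem hu)⟩
  · rintro ⟨h1, h2⟩ x hx y hy hxy
    rw [Finset.mem_insert] at hx hy
    rcases hx with rfl | hx <;> rcases hy with rfl | hy
    · exact G.irrefl hxy
    · exact h2 y hy hxy
    · exact h2 x hx hxy.symm
    · exact h1 x hx y hy hxy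

lemma Z_empty : Z G a ∅ = 1 := by
  simp [Z, ind_empty]

lemma Z_rec {v : V} {S : Finset V} (hv : v ∈ S) :
    Z G a S = Z G a (S.erase v) + a v * Z G a (del G v S) := by
  conv_lhs => rw [Z, ← Finset.insert_erase hv]
  rw [Finset.sum_powerset_insert (Finset.notMem_erase _ _)]
  congr 1
  have h1 : ∀ I ∈ (S.erase v).powerset,
      (if Ind G (insert v I) then ∏ u ∈ insert v I, a u else 0) =
        if I ⊆ del G v S then a v * (if Ind G I then ∏ u ∈ I, a u else 0) else 0 := by
    intro I hI
    rw [Finset.mem_powerset] at hI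
    have hvI : v ∉ I := fun h => Finset.notMem_erase v S (hI h)
    by_cases hsub : I ⊆ del G v S
    · rw [if_pos hsub]
      have : Ind G (insert v I) ↔ Ind G I := by
        rw [ind_insert]
        exact ⟨fun h => h.1, fun h => ⟨h, fun u hu => (mem_del.1 (hsub hu)).2.2⟩⟩
      by_cases hI2 : Ind G I
      · rw [if_pos (this.2 hI2), if_pos hI2, Finset.prod_insert hvI]
      · rw [if_neg (fun h => hI2 (this.1 h)), if_neg hI2, mul_zero]
    · rw [if_neg hsub, if_neg]
      intro h
      rw [ind_insert] at h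
      apply hsub
      intro u hu
      rw [mem_del]
      exact ⟨Finset.mem_of_mem_erase (hI hu), (Finset.mem_erase.1 (hI hu)).1, h.2 u hu⟩
  rw [Finset.sum_congr rfl h1, ← Finset.sum_filter, Z, Finset.mul_sum]
  apply Finset.sum_congr _ (fun _ _ => rfl)
  ext I
  simp only [Finset.mem_filter, Finset.mem_powerset]
  exact ⟨fun h => h.2, fun h => ⟨h.trans (del_subset_erase G v S), h⟩⟩

lemma Z_union : ∀ (n : ℕ) (S T : Finset V), S.card = n → Disjoint S T →
    (∀ u ∈ S, ∀ w ∈ T, ¬ G.Adj u w) → Z G a (S ∪ T) = Z G a S * Z G a T := by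
  intro n
  induction n using Nat.strong_induction_on with
  | _ n ih =>
    intro S T hn hd hadj
    rcases S.eq_empty_or_nonempty with rfl | ⟨v, hv⟩
    · simp [Z_empty]
    · have hvT : v ∉ T := Finset.disjoint_left.1 hd hv
      rw [Z_rec G a (Finset.mem_union_left T hv), Z_rec G a hv, add_mul, mul_assoc]
      have e1 : (S ∪ T).erase v = S.erase v ∪ T := by
        ext u
        simp only [Finset.mem_erase, Finset.mem_union]
        constructor
        · rintro ⟨h1, h2 | h2⟩
          · exact Or.inl ⟨h1, h2⟩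
          · exact Or.inr h2
        · rintro (⟨h1, h2⟩ | h2)
          · exact ⟨h1, Or.inl h2⟩
          · exact ⟨fun h => hvT (h ▸ h2), Or.inr h2⟩
      have e2 : del G v (S ∪ T) = del G v S ∪ T := by
        ext u
        simp only [mem_del, Finset.mem_union]
        constructor
        · rintro ⟨h1 | h1, h2⟩
          · exact Or.inl ⟨h1, h2⟩
          · exact Or.inr h1
        · rintro (⟨h1, h2⟩ | h2)
          · exact ⟨Or.inl h1, h2⟩
          · exact ⟨Or.inr h2, fun h => hvT (h ▸ h2), hadj v hv u h2⟩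
      have c1 : (S.erase v).card < n := by
        rw [← hn]; exact Finset.card_erase_lt_of_mem hv
      have c2 : (del G v S).card < n :=
        lt_of_le_of_lt (Finset.card_le_card (del_subset_erase G v S)) c1
      rw [e1, e2, ih _ c1 (S.erase v) T rfl (hd.mono_left (Finset.erase_subset _ _))
        (fun u hu => hadj u (Finset.mem_of_mem_erase hu)),
        ih _ c2 (del G v S) T rfl (hd.mono_left (del_subset _ _ _))
        (fun u hu => hadj u (del_subset _ _ _ hu))]

lemma Z_union' {S T : Finset V} (hd : Disjoint S T)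
    (hadj : ∀ u ∈ S, ∀ w ∈ T, ¬ G.Adj u w) : Z G a (S ∪ T) = Z G a S * Z G a T :=
  Z_union G a _ S T rfl hd hadj

lemma Z_map {R' : Type*} [CommSemiring R'] (f : R →+* R') (S : Finset V) :
    f (Z G a S) = Z G (fun v => f (a v)) S := by
  rw [Z, map_sum, Z]
  apply Finset.sum_congr rfl
  intro I _
  split_ifs
  · rw [map_prod]
  · rw [map_zero]

lemma Z_const (z : R) (S : Finset V) :
    Z G (fun _ => z) S = ∑ I ∈ S.powerset.filter (Ind G), z ^ I.card := by
  rw [Z, Finset.sum_filter]
  apply Finset.sum_congr rfl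
  intro I _
  simp

end basic

/-- number of independent `k`-subsets of `S` -/
noncomputable def cnt (G : SimpleGraph V) (S : Finset V) (k : ℕ) : ℕ :=
  ((S.powerset.filter (Ind G)).filter (fun I => I.card = k)).card

lemma Z_const_eq_sum {R : Type*} [CommSemiring R] (G : SimpleGraph V) (z : R) (S : Finset V) :
    Z G (fun _ => z) S = ∑ k ∈ Finset.range (S.card + 1), (cnt G S k : R) * z ^ k := by
  rw [Z_const]
  have : ∀ I ∈ S.powerset.filter (Ind G), I.card ∈ Finset.range (S.card + 1) := by
    intro I hI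
    rw [Finset.mem_filter, Finset.mem_powerset] at hI
    exact Finset.mem_range.2 (Nat.lt_succ_of_le (Finset.card_le_card hI.1))
  rw [← Finset.sum_fiberwise_of_maps_to this]
  apply Finset.sum_congr rfl
  intro k _
  rw [Finset.sum_congr rfl (g := fun _ => z ^ k)]
  · rw [Finset.sum_const, nsmul_eq_mul, cnt]
  · intro I hI
    rw [(Finset.mem_filter.1 hI).2]

lemma cnt_eq_zero {G : SimpleGraph V} {S : Finset V} {k : ℕ} (h : S.card < k) :
    cnt G S k = 0 := by
  rw [cnt, Finset.card_eq_zero]
  ext I
  simp only [Finset.mem_filter, Finset.mem_powerset, Finset.notMem_empty, iff_false]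
  rintro ⟨⟨h1, _⟩, h2⟩
  have := Finset.card_le_card h1
  omega

lemma cnt_zero (G : SimpleGraph V) (S : Finset V) : cnt G S 0 = 1 := by
  rw [cnt, Finset.card_eq_one]
  refine ⟨∅, ?_⟩
  ext I
  simp only [Finset.mem_filter, Finset.mem_powerset, Finset.mem_singleton, Finset.card_eq_zero]
  constructor
  · exact fun h => h.2
  · rintro rfl
    exact ⟨⟨Finset.empty_subset _, ind_empty G⟩, rfl⟩

lemma cnt_rec (G : SimpleGraph V) {v : V} {S : Finset V} (hv : v ∈ S) (k : ℕ) :
    cnt G S (k + 1) = cnt G (S.erase v) (k + 1) + cnt G (del G v S) k := by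
  have h := Z_rec G (fun _ => (Polynomial.X : Polynomial ℕ)) hv
  have key : ∀ (T : Finset V) (j : ℕ), (Z G (fun _ => (Polynomial.X : Polynomial ℕ)) T).coeff j
      = cnt G T j := by
    intro T j
    rw [Z_const_eq_sum, Polynomial.finsetSum_coeff]
    simp only [Polynomial.coeff_natCast_mul, Polynomial.coeff_X_pow]
    rw [Finset.sum_eq_single j]
    · simp
    · intro b _ hb
      simp [Ne.symm hb]
    · intro hj
      rw [Finset.mem_range, not_lt] at hj
      simp [cnt_eq_zero (G := G) (S := T) (k := j) (by omega)]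
  have h2 := congrArg (fun p => Polynomial.coeff p (k + 1)) h
  simp only [Polynomial.coeff_add, Polynomial.coeff_X_mul, key] at h2
  exact h2

lemma cnt_mem (G : SimpleGraph V) {v : V} {S : Finset V} (hv : v ∈ S) (k : ℕ) :
    (((S.powerset.filter (Ind G)).filter (fun I => I.card = k + 1)).filter
      (fun I => v ∈ I)).card = cnt G (del G v S) k := by
  have h := cnt_rec G hv k
  have h1 := Finset.card_filter_add_card_filter_not
    (s := (S.powerset.filter (Ind G)).filter (fun I => I.card = k + 1)) (fun I => v ∈ I)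
  have h2 : (((S.powerset.filter (Ind G)).filter (fun I => I.card = k + 1)).filter
      (fun I => ¬ v ∈ I)).card = cnt G (S.erase v) (k + 1) := by
    rw [cnt]
    congr 1
    ext I
    simp only [Finset.mem_filter, Finset.mem_powerset]
    constructor
    · rintro ⟨⟨⟨h1, h2⟩, h3⟩, h4⟩
      exact ⟨⟨fun x hx => Finset.mem_erase.2 ⟨fun h => h4 (h ▸ hx), h1 hx⟩, h2⟩, h3⟩
    · rintro ⟨⟨h1, h2⟩, h3⟩
      exact ⟨⟨⟨h1.trans (Finset.erase_subset _ _), h2⟩, h3⟩,
        fun h => Finset.notMem_erase v S (h1 h)⟩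
  rw [← cnt] at h1
  omega

end Pool.Agent.Lib.MP_24a1b5_co
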