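import Mathlib

/-!
# Schur positive elements in two variables

`g x y n` is the complete homogeneous polynomial of degree `n - 1` in `x`, `y`; `Cn x y` is the set of all
sums of the elements `(x y) ^ a g n`, which is closed under products.
-/

set_option autoImplicit false

namespace Pool.Agent.MP24a1b5.CA

variable {R : Type*} [CommRing R]

/-- `g x y (n + 1)` is the complete homogeneous polynomial of degree `n` in `x`, `y` -/
def g (x y : R) : ℕ → R
  | 0 => 0
  | 1 => 1
  | n + 2 => (x + y) * g x y (n + 1) - x * y * g x y n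

variable (x y : R)

@[simp] lemma g_zero : g x y 0 = 0 := rfl
@[simp] lemma g_one : g x y 1 = 1 := rfl
lemma g_succ (n : ℕ) : g x y (n + 2) = (x + y) * g x y (n + 1) - x * y * g x y n := rfl

lemma g_two : g x y 2 = x + y := by rw [g_succ, g_one, g_zero]; ring

/-- the addition formula -/
lemma g_add (m n : ℕ) :
    g x y (m + n + 1) = g x y (m + 1) * g x y (n + 1) - x * y * g x y m * g x y n := by
  induction n using Nat.twoStepInduction with
  | zero => simp
  | one =>
    rw [show m + 1 + 1 = m + 2 from rfl, show 1 + 1 = 2 from rfl, g_two, g_one, g_succ]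
    ring
  | more n ih1 ih2 =>
    have e1 : g x y (m + (n + 2) + 1) = (x + y) * g x y (m + (n + 1) + 1) -
        x * y * g x y (m + n + 1) := g_succ x y (m + n + 1)
    rw [e1, ih1, ih2, g_succ x y (n + 1), g_succ x y n]
    ring

/-- the product formula -/
lemma g_mul (n j : ℕ) :
    g x y (n + 1) * g x y (j + 2) = g x y (n + j + 2) + x * y * g x y n * g x y (j + 1) := by
  have := g_add x y n (j + 1)
  rw [show n + (j + 1) + 1 = n + j + 2 from rfl] at this
  rw [this]
  ring

lemma pow_eq (n : ℕ) : x ^ (n + 1) = g x y (n + 1) * x - x * y * g x y n := by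
  induction n using Nat.twoStepInduction with
  | zero => simp
  | one => rw [g_succ]; simp; ring
  | more n ih1 ih2 =>
    have : x ^ (n + 2 + 1) = (x + y) * x ^ (n + 1 + 1) - x * y * x ^ (n + 1) := by ring
    rw [this, ih1, ih2, g_succ x y (n + 1), g_succ x y n]
    ring

lemma g_symm (n : ℕ) : g y x n = g x y n := by
  induction n using Nat.twoStepInduction with
  | zero => rfl
  | one => rfl
  | more n ih1 ih2 => rw [g_succ, g_succ, ih1, ih2]; ring

lemma powsum_eq (n : ℕ) : x ^ (n + 1) + y ^ (n + 1) = g x y (n + 2) - x * y * g x y n := by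
  rw [pow_eq x y n, pow_eq y x n, g_symm x y, g_symm x y, g_succ]
  ring

/-- `p n j = (x y) ^ j h_(n-j)` if `j ≤ n`, and `0` otherwise -/
def p (x y : R) : ℕ → ℕ → R
  | n, 0 => g x y (n + 1)
  | 0, _ + 1 => 0
  | n + 1, j + 1 => x * y * p x y n j

@[simp] lemma p_zero (n : ℕ) : p x y n 0 = g x y (n + 1) := by
  cases n <;> rfl
@[simp] lemma p_zero_succ (j : ℕ) : p x y 0 (j + 1) = 0 := rfl
lemma p_succ (n j : ℕ) : p x y (n + 1) (j + 1) = x * y * p x y n j := rfl

lemma p_one (n : ℕ) : p x y n 1 = x * y * g x y n := by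
  cases n with
  | zero => simp
  | succ n => rw [p_succ, p_zero]

lemma cross (n j : ℕ) :
    g x y (n + 1) * g x y (j + 2) - g x y (n + 2) * g x y (j + 1) =
      p x y n (j + 1) - p x y j (n + 1) := by
  induction n generalizing j with
  | zero =>
    rw [p_one, p_zero_succ, g_succ x y j, zero_add, g_two, g_one]
    ring
  | succ n ih =>
    cases j with
    | zero =>
      rw [p_zero_succ, p_one, g_succ x y (n + 1), zero_add, g_two, g_one]
      ring
    | succ j =>
      rw [p_succ, p_succ, ← mul_sub, ← ih j]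
      rw [g_succ x y (j + 1), g_succ x y (n + 1)]
      ring

/-- the product of `h_n` and the power sum of degree `j + 1` -/
lemma g_powsum (n j : ℕ) :
    g x y (n + 1) * (g x y (j + 2) - x * y * g x y j) =
      g x y (n + j + 2) + p x y n (j + 1) - p x y j (n + 1) := by
  have h1 := cross x y n j
  have h2 := g_mul x y n j
  rw [g_succ x y j, g_succ x y n] at h1
  rw [g_succ x y j] at h2 ⊢
  linear_combination h1 + h2

/-! ### The positive elements -/

/-- all sums of the elements `(x y) ^ a g n` -/
def Cm (x y : R) : AddSubmonoid R := AddSubmonoid.closure {z | ∃ a n : ℕ, z = (x * y) ^ a * g x y n}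

lemma gen_mem (a n : ℕ) : (x * y) ^ a * g x y n ∈ Cm x y :=
  AddSubmonoid.subset_closure ⟨a, n, rfl⟩

lemma e2_mul_mem {z : R} (hz : z ∈ Cm x y) : x * y * z ∈ Cm x y := by
  induction hz using AddSubmonoid.closure_induction with
  | mem z hz =>
    obtain ⟨a, n, rfl⟩ := hz
    rw [← mul_assoc, ← pow_succ']
    exact gen_mem x y (a + 1) n
  | zero => rw [mul_zero]; exact zero_mem _
  | add z w _ _ h1 h2 => rw [mul_add]; exact add_mem h1 h2

lemma pow_mul_mem (a : ℕ) {z : R} (hz : z ∈ Cm x y) : (x * y) ^ a * z ∈ Cm x y := by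
  induction a with
  | zero => rwa [pow_zero, one_mul]
  | succ a ih => rw [pow_succ', mul_assoc]; exact e2_mul_mem x y ih

lemma g_mul_g_mem (n m : ℕ) : g x y n * g x y m ∈ Cm x y := by
  induction n generalizing m with
  | zero => rw [g_zero, zero_mul]; exact zero_mem _
  | succ n ih =>
    rcases m with _ | _ | j
    · rw [g_zero, mul_zero]; exact zero_mem _
    · rw [g_one, mul_one]; simpa using gen_mem x y 0 (n + 1)
    · rw [g_mul]
      refine add_mem (by simpa using gen_mem x y 0 (n + j + 2)) ?_
      rw [mul_assoc]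
      exact e2_mul_mem x y (ih (j + 1))

lemma g_mul_mem (n : ℕ) {z : R} (hz : z ∈ Cm x y) : g x y n * z ∈ Cm x y := by
  induction hz using AddSubmonoid.closure_induction with
  | mem z hz =>
    obtain ⟨a, m, rfl⟩ := hz
    rw [show g x y n * ((x * y) ^ a * g x y m) = (x * y) ^ a * (g x y n * g x y m) by ring]
    exact pow_mul_mem x y a (g_mul_g_mem x y n m)
  | zero => rw [mul_zero]; exact zero_mem _
  | add z w _ _ h1 h2 => rw [mul_add]; exact add_mem h1 h2

/-- the subsemiring of the sums of the elements `(x y) ^ a g n` -/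
def Cn (x y : R) : Subsemiring R where
  carrier := Cm x y
  zero_mem' := zero_mem _
  add_mem' := add_mem
  one_mem' := by simpa using gen_mem x y 0 1
  mul_mem' := by
    intro z w hz hw
    change z * w ∈ Cm x y
    change z ∈ Cm x y at hz
    change w ∈ Cm x y at hw
    induction hz using AddSubmonoid.closure_induction with
    | mem z hz =>
      obtain ⟨a, m, rfl⟩ := hz
      rw [mul_assoc]
      exact pow_mul_mem x y a (g_mul_mem x y m hw)
    | zero => rw [zero_mul]; exact zero_mem _
    | add z w _ _ h1 h2 => rw [add_mul]; exact add_mem h1 h2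

variable {x y}

lemma mem_Cn {z : R} : z ∈ Cn x y ↔ z ∈ Cm x y := Iff.rfl

lemma g_mem (n : ℕ) : g x y n ∈ Cn x y := by
  simpa using (show (x * y) ^ 0 * g x y n ∈ Cn x y from gen_mem x y 0 n)

lemma e2_mem : x * y ∈ Cn x y := by
  simpa using (show (x * y) ^ 1 * g x y 1 ∈ Cn x y from gen_mem x y 1 1)

lemma e1_mem : x + y ∈ Cn x y := by
  have := g_mem (x := x) (y := y) 2
  rwa [g_succ, g_one, g_zero, mul_one, mul_zero, sub_zero] at this

lemma p_mem (n j : ℕ) : p x y n j ∈ Cn x y := by
  induction j generalizing n with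
  | zero => rw [p_zero]; exact g_mem _
  | succ j ih =>
    cases n with
    | zero => rw [p_zero_succ]; exact zero_mem _
    | succ n => rw [p_succ]; exact mul_mem e2_mem (ih n)

end Pool.Agent.MP24a1b5.CA
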