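import Pool.Agent.Lib.MP_24a1b5_co.CA1

/-!
# Words are positive
-/

set_option autoImplicit false

namespace Pool.Agent.MP24a1b5.CA

variable {R : Type*} [CommRing R]

/-- `ev c [m₀, m₁, ..] = m₀ c₀ + m₁ c₁ + ..` -/
def ev : (ℕ → R) → List R → R
  | _, [] => 0
  | c, a :: l => a * c 0 + ev (fun i => c (i + 1)) l

@[simp] lemma ev_nil (c : ℕ → R) : ev c [] = 0 := rfl
@[simp] lemma ev_cons (c : ℕ → R) (a : R) (l : List R) :
    ev c (a :: l) = a * c 0 + ev (fun i => c (i + 1)) l := rfl

lemma ev_add (c d : ℕ → R) (l : List R) : ev (fun i => c i + d i) l = ev c l + ev d l := by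
  induction l generalizing c d with
  | nil => simp
  | cons a l ih =>
    rw [ev_cons, ev_cons, ev_cons, ih (fun i => c (i + 1)) (fun i => d (i + 1))]
    ring

lemma ev_smul (r : R) (c : ℕ → R) (l : List R) : ev (fun i => r * c i) l = r * ev c l := by
  induction l generalizing c with
  | nil => simp
  | cons a l ih =>
    rw [ev_cons, ev_cons, ih (fun i => c (i + 1))]
    ring

lemma ev_sub (c d : ℕ → R) (l : List R) : ev (fun i => c i - d i) l = ev c l - ev d l := by
  induction l generalizing c d with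
  | nil => simp
  | cons a l ih =>
    rw [ev_cons, ev_cons, ev_cons, ih (fun i => c (i + 1)) (fun i => d (i + 1))]
    ring

lemma ev_neg (c : ℕ → R) (l : List R) : ev (fun i => -c i) l = -ev c l := by
  induction l generalizing c with
  | nil => simp
  | cons a l ih =>
    rw [ev_cons, ev_cons, ih (fun i => c (i + 1))]
    ring

lemma ev_congr {c d : ℕ → R} (h : ∀ i, c i = d i) (l : List R) : ev c l = ev d l := by
  rw [funext h]

lemma ev_mem {x y : R} {c : ℕ → R} (hc : ∀ i, c i ∈ Cn x y) {l : List R}
    (hl : ∀ a ∈ l, a ∈ Cn x y) : ev c l ∈ Cn x y := by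
  induction l generalizing c with
  | nil => exact zero_mem _
  | cons a l ih =>
    rw [ev_cons]
    exact add_mem (mul_mem (hl a List.mem_cons_self) (hc 0))
      (ih (fun i => hc (i + 1)) fun b hb => hl b (List.mem_cons_of_mem _ hb))

/-- the words in the two letters `B`, `W` -/
inductive Wd (x y : R) : R → List R → Prop
  | nil : Wd x y 1 []
  | B {k : R} {l : List R} : Wd x y k l → Wd x y ((x + y) * k) (0 :: l)
  | W {k : R} {l : List R} : Wd x y k l →
      Wd x y ((x + y) * k + ev (fun i => x ^ (i + 2) + y ^ (i + 2)) l) (k :: l)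

/-- the functionals `f k + c_1 m_1 + c_2 m_2 + ..` -/
def fn (f : R) (c : ℕ → R) (k : R) (l : List R) : R := f * k + ev c l

lemma fn_B (x y f : R) (c : ℕ → R) (k : R) (l : List R) :
    fn f c ((x + y) * k) (0 :: l) = fn ((x + y) * f) (fun i => c (i + 1)) k l := by
  simp only [fn, ev_cons]; ring

lemma fn_W (x y f : R) (c : ℕ → R) (k : R) (l : List R) :
    fn f c ((x + y) * k + ev (fun i => x ^ (i + 2) + y ^ (i + 2)) l) (k :: l) =
      fn ((x + y) * f + c 0) (fun i => f * (g x y (i + 3) - x * y * g x y (i + 1)) + c (i + 1)) k l := by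
  have h1 : ev (fun i => x ^ (i + 2) + y ^ (i + 2)) l =
      ev (fun i => g x y (i + 3) - x * y * g x y (i + 1)) l :=
    ev_congr (fun i => powsum_eq x y (i + 1)) l
  simp only [fn, ev_cons]
  rw [h1, ev_add, ev_smul]
  ring

lemma fn_add (f f' : R) (c c' : ℕ → R) (k : R) (l : List R) :
    fn f c k l + fn f' c' k l = fn (f + f') (fun i => c i + c' i) k l := by
  simp only [fn, ev_add]; ring

lemma fn_smul (r f : R) (c : ℕ → R) (k : R) (l : List R) :
    r * fn f c k l = fn (r * f) (fun i => r * c i) k l := by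
  simp only [fn, ev_smul]; ring

lemma fn_congr {f f' : R} {c c' : ℕ → R} (hf : f = f') (hc : ∀ i, c i = c' i) (k : R) (l : List R) :
    fn f c k l = fn f' c' k l := by
  rw [hf, funext hc]

/-- the list of the positive functionals; in all of them the entry `i` belongs to `m_(i+1)` -/
structure Pos (x y k : R) (l : List R) : Prop where
  hk : k ∈ Cn x y
  hl : ∀ a ∈ l, a ∈ Cn x y
  hT : ∀ n, fn (g x y (n + 2)) (fun i => -p x y (i + 1) (n + 1)) k l ∈ Cn x y
  hH : ∀ n, fn (g x y (n + 1)) (fun i => -p x y n (i + 1)) k l ∈ Cn x y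
  hS0 : fn (g x y 3) (fun i => g x y (i + 4) - x * y * g x y (i + 2) - (x * y) ^ 2 * g x y i) k l
    ∈ Cn x y
  hS1 : fn ((x + y) * g x y 3)
    (fun i => g x y (i + 5) - x * y * g x y (i + 3) - (x * y) ^ 2 * g x y (i + 1)) k l ∈ Cn x y
  hJ : ∀ n, fn (2 * g x y (n + 2)) (fun i => 3 * g x y (n + i + 3) - g x y (n + 2) * g x y (i + 2)) k l
    ∈ Cn x y

variable {x y k : R} {l : List R}

lemma Pos.fn_mem (h : Pos x y k l) {f : R} {c : ℕ → R} (hf : f ∈ Cn x y) (hc : ∀ i, c i ∈ Cn x y) :
    fn f c k l ∈ Cn x y :=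
  add_mem (mul_mem hf h.hk) (ev_mem hc h.hl)

lemma two_mem : (2 : R) ∈ Cn x y := by
  have := add_mem (one_mem (Cn x y)) (one_mem (Cn x y))
  rwa [one_add_one_eq_two] at this

lemma Pos.nil : Pos x y 1 [] := by
  refine ⟨one_mem _, by simp, fun n => ?_, fun n => ?_, ?_, ?_, fun n => ?_⟩ <;>
    simp only [fn, ev_nil, add_zero, mul_one]
  · exact g_mem _
  · exact g_mem _
  · exact g_mem _
  · exact mul_mem e1_mem (g_mem _)
  · exact mul_mem two_mem (g_mem _)

lemma Pos.B (h : Pos x y k l) : Pos x y ((x + y) * k) (0 :: l) := by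
  refine ⟨mul_mem e1_mem h.hk, ?_, fun n => ?_, fun n => ?_, ?_, ?_, fun n => ?_⟩
  · intro a ha
    rcases List.mem_cons.1 ha with rfl | ha
    · exact zero_mem _
    · exact h.hl a ha
  · rw [fn_B]
    cases n with
    | zero =>
      have e : fn ((x + y) * g x y (0 + 2)) (fun i => -p x y (i + 1 + 1) (0 + 1)) k l =
          (x + y) * fn (g x y (0 + 2)) (fun i => -p x y (i + 1) (0 + 1)) k l +
            fn 0 (fun i => x * y * (x * y * g x y i)) k l := by
        rw [fn_smul, fn_add]
        refine fn_congr (by ring) (fun i => ?_) k l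
        rw [zero_add, p_one, p_one, g_succ]
        ring
      rw [e]
      exact add_mem (mul_mem e1_mem (h.hT 0))
        (h.fn_mem (zero_mem _) fun i => mul_mem e2_mem (mul_mem e2_mem (g_mem _)))
    | succ n =>
      have e : fn ((x + y) * g x y (n + 1 + 2)) (fun i => -p x y (i + 1 + 1) (n + 1 + 1)) k l =
          x * y * fn (g x y (n + 2)) (fun i => -p x y (i + 1) (n + 1)) k l +
            fn (g x y (n + 4)) (fun _ => 0) k l := by
        rw [fn_smul, fn_add]
        refine fn_congr ?_ (fun i => ?_) k l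
        · rw [show n + 4 = n + 2 + 2 from rfl, g_succ x y (n + 2)]; ring
        · rw [p_succ]; ring
      rw [e]
      exact add_mem (mul_mem e2_mem (h.hT n)) (h.fn_mem (g_mem _) fun i => zero_mem _)
  · rw [fn_B]
    cases n with
    | zero =>
      simp only [p_zero_succ, neg_zero]
      exact h.fn_mem (mul_mem e1_mem (g_mem _)) fun i => zero_mem _
    | succ n =>
      have e : fn ((x + y) * g x y (n + 1 + 1)) (fun i => -p x y (n + 1) (i + 1 + 1)) k l =
          x * y * fn (g x y (n + 1)) (fun i => -p x y n (i + 1)) k l +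
            fn (g x y (n + 3)) (fun _ => 0) k l := by
        rw [fn_smul, fn_add]
        refine fn_congr ?_ (fun i => ?_) k l
        · rw [show n + 3 = n + 1 + 2 from rfl, g_succ x y (n + 1)]; ring
        · rw [p_succ]; ring
      rw [e]
      exact add_mem (mul_mem e2_mem (h.hH n)) (h.fn_mem (g_mem _) fun i => zero_mem _)
  · rw [fn_B]
    exact h.hS1
  · rw [fn_B]
    have e : fn ((x + y) * ((x + y) * g x y 3)) (fun i => g x y (i + 1 + 5) -
        x * y * g x y (i + 1 + 3) - (x * y) ^ 2 * g x y (i + 1 + 1)) k l =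
        (x + y) * g x y 3 * fn (g x y (0 + 2)) (fun i => -p x y (i + 1) (0 + 1)) k l +
          fn 0 (fun i => g x y (i + 6) + x * y * (x * y * (g x y 3 * g x y i)) +
            x * y * (x * y * (x * y * g x y i))) k l := by
      rw [fn_smul, fn_add]
      refine fn_congr ?_ (fun i => ?_) k l
      · rw [zero_add, g_two]; ring
      · have h1 := g_mul x y 2 (i + 1)
        have h2 := g_mul x y 2 i
        rw [zero_add, p_one]
        rw [show i + 1 + 3 = i + 4 from rfl, show i + 1 + 5 = i + 6 from rfl, show i + 1 + 1 = i + 2 from rfl]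
        have a0 := g_succ x y i
        have a1 := g_succ x y (i + 1)
        have a2 := g_succ x y (i + 2)
        have a3 := g_succ x y (i + 3)
        have a4 := g_succ x y (i + 4)
        rw [show i + 1 + 1 = i + 2 from rfl, show i + 1 + 2 = i + 3 from rfl] at a1
        rw [show i + 2 + 1 = i + 3 from rfl, show i + 2 + 2 = i + 4 from rfl] at a2
        rw [show i + 3 + 1 = i + 4 from rfl, show i + 3 + 2 = i + 5 from rfl] at a3
        rw [show i + 4 + 1 = i + 5 from rfl, show i + 4 + 2 = i + 6 from rfl] at a4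
        have b3 : g x y 3 = (x + y) ^ 2 - x * y := by
          rw [show 3 = 1 + 2 from rfl, g_succ, show 1 + 1 = 2 from rfl, g_two, g_one]; ring
        rw [a2, a1, a0, b3]
        ring
    rw [e]
    refine add_mem (mul_mem (mul_mem e1_mem (g_mem _)) (h.hT 0)) (h.fn_mem (zero_mem _) fun i => ?_)
    exact add_mem (add_mem (g_mem _) (mul_mem e2_mem (mul_mem e2_mem (mul_mem (g_mem _) (g_mem _)))))
      (mul_mem e2_mem (mul_mem e2_mem (mul_mem e2_mem (g_mem _))))
  · rw [fn_B]
    have e : fn ((x + y) * (2 * g x y (n + 2))) (fun i => 3 * g x y (n + (i + 1) + 3) -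
        g x y (n + 2) * g x y (i + 1 + 2)) k l =
        fn (2 * g x y (n + 1 + 2)) (fun i => 3 * g x y (n + 1 + i + 3) -
          g x y (n + 1 + 2) * g x y (i + 2)) k l +
        (x * y * fn (g x y (n + 1)) (fun i => -p x y n (i + 1)) k l +
          fn (x * y * g x y (n + 1)) (fun i => p x y (i + 1) (n + 2)) k l) := by
      rw [fn_smul, fn_add, fn_add]
      refine fn_congr ?_ (fun i => ?_) k l
      · rw [g_succ x y (n + 1)]; ring
      · have h1 := cross x y (n + 1) (i + 1)
        rw [p_succ] at h1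
        rw [show n + 1 + 1 = n + 2 from rfl, show n + 1 + 2 = n + 3 from rfl, show i + 1 + 2 = i + 3 from rfl,
          show i + 1 + 1 = i + 2 from rfl] at h1
        rw [show n + (i + 1) + 3 = n + 1 + i + 3 by ring, show i + 1 + 2 = i + 3 from rfl,
          show n + 1 + 2 = n + 3 from rfl]
        linear_combination -h1
    rw [e]
    exact add_mem (h.hJ (n + 1)) (add_mem (mul_mem e2_mem (h.hH n))
      (h.fn_mem (mul_mem e2_mem (g_mem _)) fun i => p_mem _ _))

lemma Pos.W (h : Pos x y k l) :
    Pos x y ((x + y) * k + ev (fun i => x ^ (i + 2) + y ^ (i + 2)) l) (k :: l) := by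
  have hk : (x + y) * k + ev (fun i => x ^ (i + 2) + y ^ (i + 2)) l ∈ Cn x y := by
    have e : (x + y) * k + ev (fun i => x ^ (i + 2) + y ^ (i + 2)) l =
        fn (g x y (0 + 2)) (fun i => -p x y (i + 1) (0 + 1)) k l +
          fn 0 (fun i => g x y (i + 3)) k l := by
      rw [fn_add, fn]
      rw [zero_add, g_two, add_zero, ev_congr (fun i => powsum_eq x y (i + 1)) l]
      congr 1
      refine ev_congr (fun i => ?_) l
      rw [zero_add, p_one]
      ring
    rw [e]
    exact add_mem (h.hT 0) (h.fn_mem (zero_mem _) fun i => g_mem _)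
  refine ⟨hk, ?_, fun n => ?_, fun n => ?_, ?_, ?_, fun n => ?_⟩
  · intro a ha
    rcases List.mem_cons.1 ha with rfl | ha
    · exact h.hk
    · exact h.hl a ha
  · rw [fn_W]
    cases n with
    | zero =>
      have e : fn ((x + y) * g x y (0 + 2) + -p x y (0 + 1) (0 + 1))
          (fun i => g x y (0 + 2) * (g x y (i + 3) - x * y * g x y (i + 1)) +
            -p x y (i + 1 + 1) (0 + 1)) k l =
          fn (g x y 3) (fun i => g x y (i + 4) - x * y * g x y (i + 2) - (x * y) ^ 2 * g x y i) k l := by
        refine fn_congr ?_ (fun i => ?_) k l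
        · rw [zero_add, zero_add, p_one, g_two, g_one, show 3 = 1 + 2 from rfl, g_succ,
            show 1 + 1 = 2 from rfl, g_two, g_one]
          ring
        · rw [zero_add, zero_add, p_one, g_two]
          have a0 := g_succ x y i
          have a2 := g_succ x y (i + 2)
          rw [show i + 2 + 1 = i + 3 from rfl, show i + 2 + 2 = i + 4 from rfl] at a2
          rw [show i + 1 + 1 = i + 2 from rfl]
          linear_combination -a2 + x * y * a0
      rw [e]
      exact h.hS0
    | succ n =>
      have e : fn ((x + y) * g x y (n + 1 + 2) + -p x y (0 + 1) (n + 1 + 1))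
          (fun i => g x y (n + 1 + 2) * (g x y (i + 3) - x * y * g x y (i + 1)) +
            -p x y (i + 1 + 1) (n + 1 + 1)) k l =
          fn (g x y (n + 2 + 2)) (fun i => -p x y (i + 1) (n + 2 + 1)) k l +
          (x * y * fn (g x y (n + 2)) (fun i => -p x y (i + 1) (n + 1)) k l +
            fn 0 (fun i => g x y (n + i + 5) + p x y (n + 2) (i + 2)) k l) := by
        rw [fn_smul, fn_add, fn_add]
        refine fn_congr ?_ (fun i => ?_) k l
        · rw [p_succ, p_zero_succ, g_succ x y (n + 2)]
          ring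
        · have h1 := g_powsum x y (n + 2) (i + 1)
          rw [p_succ x y (i + 1) (n + 1)]
          rw [show n + 2 + 1 = n + 1 + 2 from rfl, show i + 1 + 2 = i + 3 from rfl,
            show n + 2 + (i + 1) + 2 = n + i + 5 by ring, show i + 1 + 1 = i + 2 from rfl] at h1
          rw [h1, show n + 2 + 1 = n + 1 + 2 from rfl]
          ring
      rw [e]
      exact add_mem (h.hT (n + 2)) (add_mem (mul_mem e2_mem (h.hT n))
        (h.fn_mem (zero_mem _) fun i => add_mem (g_mem _) (p_mem _ _)))
  · rw [fn_W]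
    have e : fn ((x + y) * g x y (n + 1) + -p x y n (0 + 1))
        (fun i => g x y (n + 1) * (g x y (i + 3) - x * y * g x y (i + 1)) +
          -p x y n (i + 1 + 1)) k l =
        fn (g x y (n + 2)) (fun i => -p x y (i + 1) (n + 1)) k l +
          fn 0 (fun i => g x y (n + i + 3)) k l := by
      rw [fn_add]
      refine fn_congr ?_ (fun i => ?_) k l
      · rw [zero_add, p_one, g_succ x y n]; ring
      · have h1 := g_powsum x y n (i + 1)
        rw [show i + 1 + 2 = i + 3 from rfl, show n + (i + 1) + 2 = n + i + 3 by ring,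
          show i + 1 + 1 = i + 2 from rfl] at h1
        rw [h1]
        ring
    rw [e]
    exact add_mem (h.hT n) (h.fn_mem (zero_mem _) fun i => g_mem _)
  · rw [fn_W]
    have e : fn ((x + y) * g x y 3 + (g x y (0 + 4) - x * y * g x y (0 + 2) - (x * y) ^ 2 * g x y 0))
        (fun i => g x y 3 * (g x y (i + 3) - x * y * g x y (i + 1)) +
          (g x y (i + 1 + 4) - x * y * g x y (i + 1 + 2) - (x * y) ^ 2 * g x y (i + 1))) k l =
        fn (2 * g x y (2 + 2)) (fun i => 3 * g x y (2 + i + 3) - g x y (2 + 2) * g x y (i + 2)) k l := by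
      refine fn_congr ?_ (fun i => ?_) k l
      · rw [g_zero, show 0 + 4 = 2 + 2 from rfl, g_succ x y 2, zero_add]
        ring
      · rw [show i + 1 + 4 = i + 5 from rfl, show i + 1 + 2 = i + 3 from rfl,
          show 2 + i + 3 = i + 5 by ring, show 2 + 2 = 4 from rfl]
        have a0 := g_succ x y i
        have a1 := g_succ x y (i + 1)
        have a2 := g_succ x y (i + 2)
        have a3 := g_succ x y (i + 3)
        rw [show i + 1 + 1 = i + 2 from rfl, show i + 1 + 2 = i + 3 from rfl] at a1
        rw [show i + 2 + 1 = i + 3 from rfl, show i + 2 + 2 = i + 4 from rfl] at a2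
        rw [show i + 3 + 1 = i + 4 from rfl, show i + 3 + 2 = i + 5 from rfl] at a3
        have b3 : g x y 3 = (x + y) ^ 2 - x * y := by
          rw [show 3 = 1 + 2 from rfl, g_succ, show 1 + 1 = 2 from rfl, g_two, g_one]; ring
        have b4 : g x y 4 = (x + y) ^ 3 - 2 * (x + y) * (x * y) := by
          rw [show 4 = 2 + 2 from rfl, g_succ, show 2 + 1 = 3 from rfl, b3, g_two]; ring
        rw [a3, a2, a1, a0, b3, b4]
        ring
    rw [e]
    exact h.hJ 2
  · rw [fn_W]
    have e : fn ((x + y) * ((x + y) * g x y 3) +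
          (g x y (0 + 5) - x * y * g x y (0 + 3) - (x * y) ^ 2 * g x y (0 + 1)))
        (fun i => (x + y) * g x y 3 * (g x y (i + 3) - x * y * g x y (i + 1)) +
          (g x y (i + 1 + 5) - x * y * g x y (i + 1 + 3) - (x * y) ^ 2 * g x y (i + 1 + 1))) k l =
        fn (2 * g x y (3 + 2)) (fun i => 3 * g x y (3 + i + 3) - g x y (3 + 2) * g x y (i + 2)) k l +
          fn (x * y * g x y 3) (fun i => x * y * g x y (i + 4)) k l := by
      rw [fn_add]
      have b3 : g x y 3 = (x + y) ^ 2 - x * y := by
        rw [show 3 = 1 + 2 from rfl, g_succ, show 1 + 1 = 2 from rfl, g_two, g_one]; ring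
      have b4 : g x y 4 = (x + y) ^ 3 - 2 * (x + y) * (x * y) := by
        rw [show 4 = 2 + 2 from rfl, g_succ, show 2 + 1 = 3 from rfl, b3, g_two]; ring
      have b5 : g x y 5 = (x + y) * g x y 4 - x * y * g x y 3 := g_succ x y 3
      refine fn_congr ?_ (fun i => ?_) k l
      · rw [show 0 + 5 = 5 from rfl, show 0 + 3 = 3 from rfl,
          show 0 + 1 = 1 from rfl, g_one, b5, b4, b3]
        ring
      · rw [show i + 1 + 5 = i + 6 from rfl, show i + 1 + 3 = i + 4 from rfl,
          show i + 1 + 1 = i + 2 from rfl, show 3 + i + 3 = i + 6 by ring, show 3 + 2 = 5 from rfl]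
        have a0 := g_succ x y i
        have a1 := g_succ x y (i + 1)
        have a2 := g_succ x y (i + 2)
        have a3 := g_succ x y (i + 3)
        have a4 := g_succ x y (i + 4)
        rw [show i + 1 + 1 = i + 2 from rfl, show i + 1 + 2 = i + 3 from rfl] at a1
        rw [show i + 2 + 1 = i + 3 from rfl, show i + 2 + 2 = i + 4 from rfl] at a2
        rw [show i + 3 + 1 = i + 4 from rfl, show i + 3 + 2 = i + 5 from rfl] at a3
        rw [show i + 4 + 1 = i + 5 from rfl, show i + 4 + 2 = i + 6 from rfl] at a4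
        rw [a4, a3, a2, a1, a0, b5, b4, b3]
        ring
    rw [e]
    exact add_mem (h.hJ 3) (h.fn_mem (mul_mem e2_mem (g_mem _)) fun i => mul_mem e2_mem (g_mem _))
  · rw [fn_W]
    have e : fn ((x + y) * (2 * g x y (n + 2)) +
          (3 * g x y (n + 0 + 3) - g x y (n + 2) * g x y (0 + 2)))
        (fun i => 2 * g x y (n + 2) * (g x y (i + 3) - x * y * g x y (i + 1)) +
          (3 * g x y (n + (i + 1) + 3) - g x y (n + 2) * g x y (i + 1 + 2))) k l =
        2 * fn (2 * g x y (n + 1 + 2)) (fun i => 3 * g x y (n + 1 + i + 3) -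
          g x y (n + 1 + 2) * g x y (i + 2)) k l +
          fn (x * y * g x y (n + 1)) (fun i => x * y * (g x y (n + 1) * g x y (i + 2))) k l := by
      rw [fn_smul, fn_add]
      refine fn_congr ?_ (fun i => ?_) k l
      · rw [zero_add, g_two, add_zero, show n + 1 + 2 = n + 3 from rfl, show n + 3 = n + 1 + 2 from rfl,
          g_succ x y (n + 1)]
        ring
      · have h1 := g_mul x y (n + 1) (i + 1)
        have h2 := g_mul x y (n + 2) i
        rw [show n + 1 + 1 = n + 2 from rfl, show i + 1 + 2 = i + 3 from rfl,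
          show n + 1 + (i + 1) + 2 = n + i + 4 by ring, show i + 1 + 1 = i + 2 from rfl] at h1
        rw [show n + 2 + 1 = n + 3 from rfl, show n + 2 + i + 2 = n + i + 4 by ring] at h2
        rw [show n + (i + 1) + 3 = n + i + 4 by ring, show n + 1 + i + 3 = n + i + 4 by ring,
          show i + 1 + 2 = i + 3 from rfl, show n + 1 + 2 = n + 3 from rfl]
        linear_combination h1 + 2 * h2
    rw [e]
    exact add_mem (mul_mem two_mem (h.hJ (n + 1)))
      (h.fn_mem (mul_mem e2_mem (g_mem _)) fun i => mul_mem e2_mem (mul_mem (g_mem _) (g_mem _)))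

theorem Wd.pos (h : Wd x y k l) : Pos x y k l := by
  induction h with
  | nil => exact Pos.nil
  | B _ ih => exact ih.B
  | W _ ih => exact ih.W

end Pool.Agent.MP24a1b5.CA
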