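import Pool.Agent.Lib.MP_24a1b5_co.Forest

set_option autoImplicit false
open Finset
open scoped Classical

namespace Pool.Agent.Lib.MP_24a1b5_co

variable {V : Type*}

/-- independent `k`-subsets of `S` -/
noncomputable def Ik (G : SimpleGraph V) (S : Finset V) (k : ℕ) : Finset (Finset V) :=
  (S.powerset.filter (Ind G)).filter (fun I => I.card = k)

lemma mem_Ik {G : SimpleGraph V} {S I : Finset V} {k : ℕ} :
    I ∈ Ik G S k ↔ I ⊆ S ∧ Ind G I ∧ I.card = k := by
  simp [Ik, and_assoc]

lemma cnt_eq (G : SimpleGraph V) (S : Finset V) (k : ℕ) : cnt G S k = (Ik G S k).card := rfl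

/-- independence number of the subgraph induced on `S` -/
noncomputable def alpha (G : SimpleGraph V) (S : Finset V) : ℕ :=
  (S.powerset.filter (Ind G)).sup Finset.card

lemma card_le_alpha {G : SimpleGraph V} {S I : Finset V} (h1 : I ⊆ S) (h2 : Ind G I) :
    I.card ≤ alpha G S :=
  Finset.le_sup (f := Finset.card) (Finset.mem_filter.2 ⟨Finset.mem_powerset.2 h1, h2⟩)

lemma exists_alpha (G : SimpleGraph V) (S : Finset V) :
    ∃ I ⊆ S, Ind G I ∧ I.card = alpha G S := by
  have hne : (S.powerset.filter (Ind G)).Nonempty :=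
    ⟨∅, Finset.mem_filter.2 ⟨Finset.mem_powerset.2 (Finset.empty_subset _), ind_empty G⟩⟩
  obtain ⟨I, hI, hI2⟩ := Finset.exists_mem_eq_sup _ hne Finset.card
  rw [Finset.mem_filter, Finset.mem_powerset] at hI
  exact ⟨I, hI.1, hI.2, hI2.symm⟩

lemma alpha_mono {G : SimpleGraph V} {S T : Finset V} (h : S ⊆ T) : alpha G S ≤ alpha G T := by
  obtain ⟨I, h1, h2, h3⟩ := exists_alpha G S
  rw [← h3]
  exact card_le_alpha (h1.trans h) h2

lemma cnt_pos {G : SimpleGraph V} {S : Finset V} {k : ℕ} (h : k ≤ alpha G S) :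
    0 < cnt G S k := by
  obtain ⟨I, h1, h2, h3⟩ := exists_alpha G S
  rw [← h3] at h
  obtain ⟨J, hJ, hJc⟩ := Finset.exists_subset_card_eq h
  rw [cnt_eq, Finset.card_pos]
  exact ⟨J, mem_Ik.2 ⟨hJ.trans h1, h2.subset hJ, hJc⟩⟩

lemma cnt_eq_zero_of_alpha {G : SimpleGraph V} {S : Finset V} {k : ℕ} (h : alpha G S < k) :
    cnt G S k = 0 := by
  rw [cnt_eq, Finset.card_eq_zero, Finset.eq_empty_iff_forall_notMem]
  intro I hI
  rw [mem_Ik] at hI
  have := card_le_alpha hI.1 hI.2.1
  omega

/-- vertices of `S` that extend `I` -/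
noncomputable def free (G : SimpleGraph V) (S I : Finset V) : Finset V :=
  S.filter (fun v => I ⊆ del G v S)

lemma succ_mul_cnt (G : SimpleGraph V) (S : Finset V) (k : ℕ) :
    (k + 1) * cnt G S (k + 1) = ∑ v ∈ S, cnt G (del G v S) k := by
  have h1 : ∀ v ∈ S, cnt G (del G v S) k = ∑ I ∈ Ik G S (k + 1), if v ∈ I then 1 else 0 := by
    intro v hv
    rw [← cnt_mem G hv k, Finset.card_filter]
    rfl
  rw [Finset.sum_congr rfl h1, Finset.sum_comm]
  have h2 : ∀ I ∈ Ik G S (k + 1), (∑ v ∈ S, if v ∈ I then 1 else 0) = k + 1 := by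
    intro I hI
    rw [mem_Ik] at hI
    rw [← Finset.card_filter, ← hI.2.2]
    congr 1
    ext x
    simp only [Finset.mem_filter]
    exact ⟨fun h => h.2, fun h => ⟨hI.1 h, h⟩⟩
  rw [Finset.sum_congr rfl h2, Finset.sum_const, smul_eq_mul, cnt_eq, mul_comm]

lemma Ik_del (G : SimpleGraph V) {v : V} (S : Finset V) (k : ℕ) :
    Ik G (del G v S) k = (Ik G S k).filter (fun I => I ⊆ del G v S) := by
  ext I
  rw [Finset.mem_filter, mem_Ik, mem_Ik]
  constructor
  · rintro ⟨h1, h2⟩
    exact ⟨⟨h1.trans (del_subset _ _ _), h2⟩, h1⟩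
  · rintro ⟨⟨h1, h2⟩, h3⟩
    exact ⟨h3, h2⟩

lemma succ_mul_cnt' (G : SimpleGraph V) (S : Finset V) (k : ℕ) :
    (k + 1) * cnt G S (k + 1) = ∑ I ∈ Ik G S k, (free G S I).card := by
  rw [succ_mul_cnt]
  have h1 : ∀ v ∈ S, cnt G (del G v S) k = ∑ I ∈ Ik G S k, if I ⊆ del G v S then 1 else 0 := by
    intro v hv
    rw [cnt_eq, Ik_del, Finset.card_filter]
  rw [Finset.sum_congr rfl h1, Finset.sum_comm]
  apply Finset.sum_congr rfl
  intro I _
  rw [free, Finset.card_filter]

lemma two_color {G : SimpleGraph V} (hG : G.IsAcyclic) :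
    ∃ P : V → Prop, ∀ u w, G.Adj u w → ¬ (P u ↔ P w) := by
  obtain ⟨C⟩ := hG.colorable_two
  refine ⟨fun v => C v = 0, fun u w h => ?_⟩
  have h0 := C.valid h
  intro hh
  apply h0
  have h1 := (C u).isLt
  have h2 := (C w).isLt
  simp only [Fin.ext_iff, Fin.val_zero] at hh ⊢
  omega

lemma free_bound {G : SimpleGraph V} (hG : G.IsAcyclic) {S I : Finset V} {k : ℕ}
    (hI : I ∈ Ik G S k) : (free G S I).card + 2 * k ≤ 2 * alpha G S := by
  obtain ⟨P, hP⟩ := two_color hG
  rw [mem_Ik] at hI
  obtain ⟨h1, h2, h3⟩ := hI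
  have key : ∀ (Q : V → Prop) [DecidablePred Q], (∀ u w, G.Adj u w → ¬ (Q u ∧ Q w)) →
      ((free G S I).filter Q).card + k ≤ alpha G S := by
    intro Q _ hQ
    have hdis : Disjoint ((free G S I).filter Q) I := by
      rw [Finset.disjoint_left]
      intro x hx hxI
      rw [Finset.mem_filter, free, Finset.mem_filter] at hx
      exact (mem_del.1 (hx.1.2 hxI)).2.1 rfl
    rw [← h3, ← Finset.card_union_of_disjoint hdis]
    apply card_le_alpha
    · apply Finset.union_subset _ h1
      intro x hx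
      rw [Finset.mem_filter, free, Finset.mem_filter] at hx
      exact hx.1.1
    · intro a ha b hb hab
      rw [Finset.mem_union, Finset.mem_filter, free, Finset.mem_filter] at ha hb
      rcases ha with ha | ha <;> rcases hb with hb | hb
      · exact hQ a b hab ⟨ha.2, hb.2⟩
      · exact (mem_del.1 (ha.1.2 hb)).2.2 hab
      · exact (mem_del.1 (hb.1.2 ha)).2.2 hab.symm
      · exact h2 a ha b hb hab
  have k1 := key P (fun u w h hh => hP u w h ⟨fun _ => hh.2, fun _ => hh.1⟩)
  have k2 := key (fun v => ¬ P v) (fun u w h hh => hP u w h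
    ⟨fun h => absurd h hh.1, fun h => absurd h hh.2⟩)
  have k3 := Finset.card_filter_add_card_filter_not (s := free G S I) P
  omega

lemma cnt_dec {G : SimpleGraph V} (hG : G.IsAcyclic) (S : Finset V) (k : ℕ)
    (hk : 2 * alpha G S ≤ 3 * k + 1) : cnt G S (k + 1) ≤ cnt G S k := by
  have h := succ_mul_cnt' G S k
  have h2 : ∑ I ∈ Ik G S k, (free G S I).card ≤ ∑ I ∈ Ik G S k, (k + 1) := by
    apply Finset.sum_le_sum
    intro I hI
    have := free_bound hG hI
    omega
  rw [Finset.sum_const, smul_eq_mul, ← cnt_eq] at h2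
  rw [← h, mul_comm (cnt G S k)] at h2
  exact Nat.le_of_mul_le_mul_left h2 (Nat.succ_pos k)

/-- sum of degrees in the subgraph induced on `S` -/
noncomputable def e2 (G : SimpleGraph V) (S : Finset V) : ℕ := ∑ v ∈ S, (nb G v S).card

lemma e2_erase (G : SimpleGraph V) {v : V} {S : Finset V} (hv : v ∈ S) :
    e2 G S = e2 G (S.erase v) + 2 * (nb G v S).card := by
  have h1 : ∀ u ∈ S.erase v, (nb G u S).card =
      (nb G u (S.erase v)).card + if G.Adj v u then 1 else 0 := by
    intro u hu
    split_ifs with h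
    · have : nb G u S = insert v (nb G u (S.erase v)) := by
        ext x
        simp only [mem_nb, Finset.mem_insert, Finset.mem_erase]
        constructor
        · rintro ⟨ha, hb⟩
          by_cases hx : x = v
          · exact Or.inl hx
          · exact Or.inr ⟨⟨hx, ha⟩, hb⟩
        · rintro (rfl | ⟨⟨ha, hb⟩, hc⟩)
          · exact ⟨hv, h.symm⟩
          · exact ⟨hb, hc⟩
      rw [this, Finset.card_insert_of_notMem]
      simp [mem_nb]
    · have : nb G u S = nb G u (S.erase v) := by
        ext x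
        simp only [mem_nb, Finset.mem_erase]
        constructor
        · rintro ⟨ha, hb⟩
          exact ⟨⟨fun e => h (e ▸ hb.symm), ha⟩, hb⟩
        · rintro ⟨⟨ha, hb⟩, hc⟩
          exact ⟨hb, hc⟩
      rw [this, add_zero]
  rw [e2, ← Finset.insert_erase hv, Finset.sum_insert (Finset.notMem_erase _ _),
    Finset.insert_erase hv, Finset.sum_congr rfl h1, Finset.sum_add_distrib, ← e2]
  have h2 : (∑ u ∈ S.erase v, if G.Adj v u then 1 else 0) = (nb G v S).card := by
    rw [← Finset.card_filter]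
    congr 1
    ext x
    simp only [mem_nb, Finset.mem_filter, Finset.mem_erase]
    constructor
    · rintro ⟨⟨ha, hb⟩, hc⟩
      exact ⟨hb, hc⟩
    · rintro ⟨ha, hb⟩
      exact ⟨⟨fun e => G.irrefl (e ▸ hb), ha⟩, hb⟩
  rw [h2]
  ring

lemma e2_le {G : SimpleGraph V} (hG : Degen G) : ∀ (n : ℕ) (S : Finset V), S.card = n →
    e2 G S ≤ 2 * n := by
  intro n
  induction n with
  | zero =>
    intro S hS
    rw [Finset.card_eq_zero] at hS
    subst hS
    simp [e2]
  | succ n ih =>
    intro S hS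
    have hne : S.Nonempty := by rw [← Finset.card_pos]; omega
    obtain ⟨w, hw, hw1⟩ := hG S hne
    have := ih (S.erase w) (by rw [Finset.card_erase_of_mem hw]; omega)
    rw [e2_erase G hw]
    omega

/-- vertices with at most two neighbours in `S` -/
noncomputable def low (G : SimpleGraph V) (S : Finset V) : Finset V :=
  S.filter (fun v => (nb G v S).card ≤ 2)

lemma card_low {G : SimpleGraph V} (hG : Degen G) (S : Finset V) :
    S.card ≤ 3 * (low G S).card := by
  have h1 := e2_le hG S.card S rfl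
  have h2 : ∑ v ∈ S.filter (fun v => ¬ (nb G v S).card ≤ 2), 3 ≤ e2 G S := by
    calc ∑ v ∈ S.filter (fun v => ¬ (nb G v S).card ≤ 2), 3
        ≤ ∑ v ∈ S.filter (fun v => ¬ (nb G v S).card ≤ 2), (nb G v S).card := by
          apply Finset.sum_le_sum
          intro v hv
          rw [Finset.mem_filter] at hv
          omega
      _ ≤ e2 G S := Finset.sum_le_sum_of_subset (Finset.filter_subset _ _)
  rw [Finset.sum_const, smul_eq_mul] at h2
  have h3 := Finset.card_filter_add_card_filter_not (s := S) (fun v => (nb G v S).card ≤ 2)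
  rw [low]
  omega

lemma cnt_mono {G : SimpleGraph V} {S T : Finset V} (h : S ⊆ T) (k : ℕ) :
    cnt G S k ≤ cnt G T k := by
  rw [cnt_eq, cnt_eq]
  apply Finset.card_le_card
  intro I hI
  rw [mem_Ik] at hI ⊢
  exact ⟨hI.1.trans h, hI.2⟩

lemma cnt_low (G : SimpleGraph V) {S : Finset V} {v : V} (hv : v ∈ low G S) (k : ℕ) :
    cnt G S (k + 1) ≤ cnt G (del G v S) (k + 1) + 3 * cnt G S k := by
  rw [low, Finset.mem_filter] at hv
  have hsub : Ik G S (k + 1) ⊆ Ik G (del G v S) (k + 1) ∪
      (insert v (nb G v S)).biUnion (fun u => (Ik G S (k + 1)).filter (fun I => u ∈ I)) := by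
    intro I hI
    rw [Finset.mem_union, Finset.mem_biUnion]
    by_cases h : I ⊆ del G v S
    · left
      rw [Ik_del, Finset.mem_filter]
      exact ⟨hI, h⟩
    · right
      rw [Finset.not_subset] at h
      obtain ⟨u, hu, hud⟩ := h
      refine ⟨u, ?_, Finset.mem_filter.2 ⟨hI, hu⟩⟩
      have huS : u ∈ S := (mem_Ik.1 hI).1 hu
      rw [mem_del, not_and, not_and, not_not] at hud
      rw [Finset.mem_insert, mem_nb]
      by_cases e : u = v
      · exact Or.inl e
      · exact Or.inr ⟨huS, hud huS e⟩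
  have h1 : (insert v (nb G v S)).card ≤ 3 := (Finset.card_insert_le _ _).trans (by omega)
  calc cnt G S (k + 1) ≤ _ := Finset.card_le_card hsub
    _ ≤ (Ik G (del G v S) (k + 1)).card + ((insert v (nb G v S)).biUnion
          (fun u => (Ik G S (k + 1)).filter (fun I => u ∈ I))).card := Finset.card_union_le _ _
    _ ≤ cnt G (del G v S) (k + 1) + (insert v (nb G v S)).card * cnt G S k := by
        apply Nat.add_le_add le_rfl
        apply Finset.card_biUnion_le_card_mul
        intro u hu
        have huS : u ∈ S := by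
          rw [Finset.mem_insert, mem_nb] at hu
          rcases hu with rfl | hu
          · exact hv.1
          · exact hu.1
        calc _ = cnt G (del G u S) k := cnt_mem G huS k
          _ ≤ cnt G S k := cnt_mono (del_subset _ _ _) k
    _ ≤ _ := by
        apply Nat.add_le_add le_rfl
        exact Nat.mul_le_mul_right _ h1

lemma cnt_one (G : SimpleGraph V) (S : Finset V) : cnt G S 1 = S.card := by
  have := succ_mul_cnt G S 0
  simp only [cnt_zero, Finset.sum_const, smul_eq_mul, mul_one, zero_add, one_mul] at this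
  exact this

lemma cnt_inc {G : SimpleGraph V} (hG : Degen G) (S : Finset V) : ∀ k : ℕ,
    36 * (k + 1) ≤ S.card → 6 * cnt G S k ≤ cnt G S (k + 1) := by
  intro k
  induction k with
  | zero =>
    intro h
    rw [cnt_zero, zero_add, cnt_one]
    omega
  | succ k ih =>
    intro h
    have ih' := ih (by omega)
    have h1 := succ_mul_cnt G S (k + 1)
    have h2 : ∑ v ∈ low G S, cnt G (del G v S) (k + 1) ≤ ∑ v ∈ S, cnt G (del G v S) (k + 1) :=
      Finset.sum_le_sum_of_subset (Finset.filter_subset _ _)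
    have h3 : (low G S).card * (cnt G S (k + 1)) ≤
        ∑ v ∈ low G S, (cnt G (del G v S) (k + 1)) + (low G S).card * (3 * cnt G S k) := by
      calc (low G S).card * (cnt G S (k + 1)) = ∑ v ∈ low G S, cnt G S (k + 1) := by simp
        _ ≤ ∑ v ∈ low G S, (cnt G (del G v S) (k + 1) + 3 * cnt G S k) :=
            Finset.sum_le_sum (fun v hv => cnt_low G hv k)
        _ = _ := by rw [Finset.sum_add_distrib]; simp
    have h4 := card_low hG S
    set a := cnt G S k
    set b := cnt G S (k + 1)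
    set c := cnt G S (k + 1 + 1)
    set m := (low G S).card
    -- (k+2) c + 3 m a ≥ m b, 6 a ≤ b, 36 (k+2) ≤ n ≤ 3 m
    have h5 : m * b ≤ (k + 1 + 1) * c + m * (3 * a) := by rw [h1]; omega
    have h6 : 2 * (m * (3 * a)) ≤ m * b := by
      calc 2 * (m * (3 * a)) = m * (6 * a) := by ring
        _ ≤ m * b := Nat.mul_le_mul_left _ ih'
    have h7 : m * b ≤ 2 * ((k + 1 + 1) * c) := by omega
    have h8 : 12 * (k + 1 + 1) ≤ m := by omega
    have h9 : 12 * (k + 1 + 1) * b ≤ 2 * ((k + 1 + 1) * c) :=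
      (Nat.mul_le_mul_right _ h8).trans h7
    have h10 : (k + 1 + 1) * (6 * b) ≤ (k + 1 + 1) * c := by nlinarith
    exact Nat.le_of_mul_le_mul_left h10 (by omega)

end Pool.Agent.Lib.MP_24a1b5_co
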