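import Mathlib

set_option autoImplicit false

namespace Pool.Agent.Lib.MP_24a1b5_co

open MeasureTheory intervalIntegral

lemma int_cos (m : ℤ) :
    ∫ x in (0 : ℝ)..Real.pi, Real.cos (m * x) = if m = 0 then Real.pi else 0 := by
  split_ifs with h
  · subst h; simp
  · have hm : (m : ℝ) ≠ 0 := by exact_mod_cast h
    rw [intervalIntegral.integral_comp_mul_left (fun x => Real.cos x) hm, integral_cos,
      Real.sin_int_mul_pi]
    simp

lemma int_cos_mul (m : ℤ) :
    ∫ x in (0 : ℝ)..Real.pi, Real.cos (m * x) * (1 - Real.cos x) =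
      (if m = 0 then Real.pi else 0) - (if m = 1 then Real.pi / 2 else 0) -
        (if m = -1 then Real.pi / 2 else 0) := by
  have h1 : ∀ x : ℝ, Real.cos (m * x) * (1 - Real.cos x) =
      Real.cos (m * x) - (1 / 2 * Real.cos (((m + 1 : ℤ) : ℝ) * x) +
        1 / 2 * Real.cos (((m - 1 : ℤ) : ℝ) * x)) := by
    intro x
    have e1 : ((m + 1 : ℤ) : ℝ) * x = m * x + x := by push_cast; ring
    have e2 : ((m - 1 : ℤ) : ℝ) * x = m * x - x := by push_cast; ring
    rw [e1, e2, Real.cos_add, Real.cos_sub]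
    ring
  simp_rw [h1]
  rw [intervalIntegral.integral_sub, intervalIntegral.integral_add,
    intervalIntegral.integral_const_mul, intervalIntegral.integral_const_mul, int_cos, int_cos,
    int_cos]
  · have e1 : (m + 1 = 0) ↔ m = -1 := by omega
    have e2 : (m - 1 = 0) ↔ m = 1 := by omega
    simp only [e1, e2]
    split_ifs <;> ring
  · exact Continuous.intervalIntegrable (by fun_prop) _ _
  · exact Continuous.intervalIntegrable (by fun_prop) _ _
  · exact Continuous.intervalIntegrable (by fun_prop) _ _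
  · exact Continuous.intervalIntegrable (by fun_prop) _ _

lemma cos_bounds {x : ℝ} (h0 : 0 ≤ x) (h1 : x ≤ Real.pi) :
    x ^ 2 / 8 ≤ 1 - Real.cos x ∧ 1 - Real.cos x ≤ x ^ 2 / 2 := by
  constructor
  · have hcos := Real.cos_le_one_sub_mul_cos_sq (x := x) (by rw [abs_of_nonneg h0]; exact h1)
    have hpi := Real.pi_lt_four
    have hpi2 : (2 : ℝ) / Real.pi ^ 2 ≥ 1 / 8 := by
      rw [ge_iff_le, div_le_div_iff₀ (by norm_num) (by positivity)]
      nlinarith [Real.pi_pos]
    nlinarith [sq_nonneg x]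
  · have := Real.one_sub_sq_div_two_le_cos (x := x)
    linarith

lemma exp_neg_le {x : ℝ} (hx : 0 < x) : Real.exp (-x) ≤ 2 / x ^ 2 := by
  have h := Real.quadratic_le_exp_of_nonneg hx.le
  rw [Real.exp_neg, ← one_div, div_le_div_iff₀ (Real.exp_pos _) (by positivity)]
  linarith

lemma integral_lower {n a K : ℝ} (ha : 0 < a) (hna : n * a ^ 2 = 1) (hK : 1 ≤ K)
    (hKa : K * a ≤ 3) {g : ℝ → ℝ} (hg : Continuous g)
    (H1 : ∀ x ∈ Set.Icc (0 : ℝ) Real.pi,
      Real.exp (-(x ^ 2 / 2 * (1000000 * n))) - 10000000 * (x ^ (9 / 4 : ℝ) * n) ≤ g x)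
    (H2 : ∀ x ∈ Set.Icc (0 : ℝ) Real.pi, -Real.exp (-(n * x ^ 2 / 10000000)) ≤ g x) :
    a ^ 3 * (Real.exp (-500000) / 24 - 10000000 * K ^ 5 * (K * a) ^ (1 / 4 : ℝ) / 6 -
      100000000000000 / K) ≤ ∫ x in (0 : ℝ)..Real.pi, g x * (1 - Real.cos x) := by
  have hn : 0 < n := by
    by_contra h
    push Not at h
    nlinarith [sq_nonneg a]
  have hK0 : 0 < K := by linarith
  set δ := K * a with hδ
  have hδ0 : 0 < δ := by positivity
  have haδ : a ≤ δ := by rw [hδ]; nlinarith
  have hpi := Real.pi_gt_three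
  have hδpi : δ ≤ Real.pi := by linarith
  have hapi : a ≤ Real.pi := haδ.trans hδpi
  set D := δ ^ (1 / 4 : ℝ) with hD
  have hD0 : 0 ≤ D := Real.rpow_nonneg hδ0.le _
  have hcont : Continuous fun x => g x * (1 - Real.cos x) := by fun_prop
  have hint : ∀ p q : ℝ, IntervalIntegrable (fun x => g x * (1 - Real.cos x)) volume p q :=
    fun p q => hcont.intervalIntegrable p q
  -- error term bound on [0, δ]
  have herr : ∀ x, 0 ≤ x → x ≤ δ → x ^ (9 / 4 : ℝ) * n ≤ K ^ 2 * D := by
    intro x h0 h1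
    have e1 : x ^ (9 / 4 : ℝ) ≤ δ ^ (9 / 4 : ℝ) := Real.rpow_le_rpow h0 h1 (by norm_num)
    have e2 : δ ^ (9 / 4 : ℝ) = δ ^ 2 * D := by
      rw [show (9 / 4 : ℝ) = (2 : ℕ) + 1 / 4 by norm_num, Real.rpow_add hδ0,
        Real.rpow_natCast]
    calc x ^ (9 / 4 : ℝ) * n ≤ (δ ^ 2 * D) * n := by
          rw [← e2]; exact mul_le_mul_of_nonneg_right e1 hn.le
      _ = K ^ 2 * D * (n * a ^ 2) := by rw [hδ]; ring
      _ = K ^ 2 * D := by rw [hna, mul_one]
  have hex0 : ∀ x, 0 ≤ x → x ≤ a →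
      Real.exp (-500000) ≤ Real.exp (-(x ^ 2 / 2 * (1000000 * n))) := by
    intro x h0 h1
    apply Real.exp_le_exp.2
    have : x ^ 2 * n ≤ a ^ 2 * n :=
      mul_le_mul_of_nonneg_right (pow_le_pow_left₀ h0 h1 2) hn.le
    nlinarith
  -- three pieces
  have I1 : ∫ x in (0 : ℝ)..a, (Real.exp (-500000) / 8 - 10000000 * (K ^ 2 * D) / 2) * x ^ 2 ≤
      ∫ x in (0 : ℝ)..a, g x * (1 - Real.cos x) := by
    apply intervalIntegral.integral_mono_on ha.le _ (hint _ _)
    · intro x hx
      have hx0 := hx.1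
      have hxpi : x ≤ Real.pi := hx.2.trans hapi
      obtain ⟨c1, c2⟩ := cos_bounds hx0 hxpi
      have h1 := H1 x ⟨hx0, hxpi⟩
      have h2 := herr x hx0 (hx.2.trans haδ)
      have h3 := hex0 x hx0 hx.2
      have h4 : Real.exp (-500000) - 10000000 * (K ^ 2 * D) ≤ g x := by linarith
      have hc0 : 0 ≤ 1 - Real.cos x := le_trans (by positivity) c1
      have h5 : 0 ≤ K ^ 2 * D := by positivity
      have h6 := Real.exp_pos (-500000)
      calc (Real.exp (-500000) / 8 - 10000000 * (K ^ 2 * D) / 2) * x ^ 2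
          = Real.exp (-500000) * (x ^ 2 / 8) - 10000000 * (K ^ 2 * D) * (x ^ 2 / 2) := by ring
        _ ≤ Real.exp (-500000) * (1 - Real.cos x) -
            10000000 * (K ^ 2 * D) * (1 - Real.cos x) := by
            have q1 := mul_le_mul_of_nonneg_left c1 h6.le
            have q2 := mul_le_mul_of_nonneg_left c2 (by positivity :
              0 ≤ 10000000 * (K ^ 2 * D))
            linarith
        _ = (Real.exp (-500000) - 10000000 * (K ^ 2 * D)) * (1 - Real.cos x) := by ring
        _ ≤ g x * (1 - Real.cos x) := mul_le_mul_of_nonneg_right h4 hc0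
    · exact Continuous.intervalIntegrable (by fun_prop) _ _
  have I2 : ∫ x in a..δ, (-(10000000 * (K ^ 2 * D) / 2)) * x ^ 2 ≤
      ∫ x in a..δ, g x * (1 - Real.cos x) := by
    apply intervalIntegral.integral_mono_on haδ _ (hint _ _)
    · intro x hx
      have hx0 : 0 ≤ x := ha.le.trans hx.1
      have hxpi : x ≤ Real.pi := hx.2.trans hδpi
      obtain ⟨c1, c2⟩ := cos_bounds hx0 hxpi
      have h1 := H1 x ⟨hx0, hxpi⟩
      have h2 := herr x hx0 hx.2
      have h3 := Real.exp_pos (-(x ^ 2 / 2 * (1000000 * n)))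
      have h4 : - (10000000 * (K ^ 2 * D)) ≤ g x := by linarith
      have hc0 : 0 ≤ 1 - Real.cos x := le_trans (by positivity) c1
      have h5 : 0 ≤ K ^ 2 * D := by positivity
      calc (-(10000000 * (K ^ 2 * D) / 2)) * x ^ 2
          = - (10000000 * (K ^ 2 * D) * (x ^ 2 / 2)) := by ring
        _ ≤ - (10000000 * (K ^ 2 * D) * (1 - Real.cos x)) := by
            have q2 := mul_le_mul_of_nonneg_left c2 (by positivity :
              0 ≤ 10000000 * (K ^ 2 * D))
            linarith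
        _ = (- (10000000 * (K ^ 2 * D))) * (1 - Real.cos x) := by ring
        _ ≤ g x * (1 - Real.cos x) := mul_le_mul_of_nonneg_right h4 hc0
    · exact Continuous.intervalIntegrable (by fun_prop) _ _
  have I3 : ∫ x in δ..Real.pi, (-(100000000000000 / n ^ 2)) * (x ^ 2)⁻¹ ≤
      ∫ x in δ..Real.pi, g x * (1 - Real.cos x) := by
    apply intervalIntegral.integral_mono_on hδpi _ (hint _ _)
    · intro x hx
      have hx0 : 0 < x := lt_of_lt_of_le hδ0 hx.1
      have hxpi : x ≤ Real.pi := hx.2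
      obtain ⟨c1, c2⟩ := cos_bounds hx0.le hxpi
      have h1 := H2 x ⟨hx0.le, hxpi⟩
      have h2 := exp_neg_le (x := n * x ^ 2 / 10000000) (by positivity)
      have hc0 : 0 ≤ 1 - Real.cos x := le_trans (by positivity) c1
      have h4 : - (2 / (n * x ^ 2 / 10000000) ^ 2) ≤ g x := by linarith
      have h5 : 0 ≤ 2 / (n * x ^ 2 / 10000000) ^ 2 := by positivity
      calc (-(100000000000000 / n ^ 2)) * (x ^ 2)⁻¹
          = - (2 / (n * x ^ 2 / 10000000) ^ 2 * (x ^ 2 / 2)) := by
            field_simp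
            norm_num
        _ ≤ - (2 / (n * x ^ 2 / 10000000) ^ 2 * (1 - Real.cos x)) := by
            have q2 := mul_le_mul_of_nonneg_left c2 h5
            linarith
        _ = (- (2 / (n * x ^ 2 / 10000000) ^ 2)) * (1 - Real.cos x) := by ring
        _ ≤ g x * (1 - Real.cos x) := mul_le_mul_of_nonneg_right h4 hc0
    · apply ContinuousOn.intervalIntegrable
      apply ContinuousOn.mul continuousOn_const
      apply ContinuousOn.inv₀ (by fun_prop)
      intro x hx
      rw [Set.uIcc_of_le hδpi] at hx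
      have : 0 < x := lt_of_lt_of_le hδ0 hx.1
      positivity
  -- evaluate
  have E1 : ∫ x in (0 : ℝ)..a, (Real.exp (-500000) / 8 - 10000000 * (K ^ 2 * D) / 2) * x ^ 2 =
      (Real.exp (-500000) / 8 - 10000000 * (K ^ 2 * D) / 2) * (a ^ 3 / 3) := by
    rw [intervalIntegral.integral_const_mul, integral_pow]
    norm_num
  have E2 : ∫ x in a..δ, (-(10000000 * (K ^ 2 * D) / 2)) * x ^ 2 =
      (-(10000000 * (K ^ 2 * D) / 2)) * ((δ ^ 3 - a ^ 3) / 3) := by
    rw [intervalIntegral.integral_const_mul, integral_pow]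
    norm_num
  have E3 : ∫ x in δ..Real.pi, (-(100000000000000 / n ^ 2)) * (x ^ 2)⁻¹ =
      (-(100000000000000 / n ^ 2)) * (δ⁻¹ - Real.pi⁻¹) := by
    rw [intervalIntegral.integral_const_mul]
    congr 1
    have hderiv : ∀ x ∈ Set.uIcc δ Real.pi, HasDerivAt (fun x : ℝ => -x⁻¹) ((x ^ 2)⁻¹) x := by
      intro x hx
      rw [Set.uIcc_of_le hδpi] at hx
      have hx0 : x ≠ 0 := (lt_of_lt_of_le hδ0 hx.1).ne'
      have := (hasDerivAt_inv hx0).neg
      rwa [neg_neg] at this
    rw [intervalIntegral.integral_eq_sub_of_hasDerivAt hderiv]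
    · ring
    · apply ContinuousOn.intervalIntegrable
      apply ContinuousOn.inv₀ (by fun_prop)
      intro x hx
      rw [Set.uIcc_of_le hδpi] at hx
      have : 0 < x := lt_of_lt_of_le hδ0 hx.1
      positivity
  have hsplit : ∫ x in (0 : ℝ)..Real.pi, g x * (1 - Real.cos x) =
      (∫ x in (0 : ℝ)..a, g x * (1 - Real.cos x)) + (∫ x in a..δ, g x * (1 - Real.cos x)) +
        ∫ x in δ..Real.pi, g x * (1 - Real.cos x) := by
    rw [intervalIntegral.integral_add_adjacent_intervals (hint _ _) (hint _ _),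
      intervalIntegral.integral_add_adjacent_intervals (hint _ _) (hint _ _)]
  rw [hsplit]
  have hfin : a ^ 3 * (Real.exp (-500000) / 24 - 10000000 * K ^ 5 * D / 6 -
      100000000000000 / K) ≤
      (Real.exp (-500000) / 8 - 10000000 * (K ^ 2 * D) / 2) * (a ^ 3 / 3) +
      (-(10000000 * (K ^ 2 * D) / 2)) * ((δ ^ 3 - a ^ 3) / 3) +
      (-(100000000000000 / n ^ 2)) * (δ⁻¹ - Real.pi⁻¹) := by
    have t1 : 100000000000000 / n ^ 2 * δ⁻¹ = a ^ 3 * (100000000000000 / K) := by
      have hn2 : n = 1 / a ^ 2 := by field_simp; linarith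
      rw [hδ, hn2]
      field_simp
    have t2 : 0 ≤ 100000000000000 / n ^ 2 * Real.pi⁻¹ := by positivity
    have t3 : δ ^ 3 = K ^ 3 * a ^ 3 := by rw [hδ]; ring
    rw [t3]
    have t4 : (-(100000000000000 / n ^ 2)) * (δ⁻¹ - Real.pi⁻¹) =
        - (100000000000000 / n ^ 2 * δ⁻¹) + 100000000000000 / n ^ 2 * Real.pi⁻¹ := by ring
    rw [t4, t1]
    have t5 : (Real.exp (-500000) / 8 - 10000000 * (K ^ 2 * D) / 2) * (a ^ 3 / 3) +
      (-(10000000 * (K ^ 2 * D) / 2)) * ((K ^ 3 * a ^ 3 - a ^ 3) / 3) =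
      a ^ 3 * (Real.exp (-500000) / 24 - 10000000 * K ^ 5 * D / 6) := by ring
    linarith
  linarith

/-- the final numerical statement -/
lemma integral_pos {n : ℝ} (hn : Real.exp 100000000 ≤ n) {g : ℝ → ℝ} (hg : Continuous g)
    (H1 : ∀ x ∈ Set.Icc (0 : ℝ) Real.pi,
      Real.exp (-(x ^ 2 / 2 * (1000000 * n))) - 10000000 * (x ^ (9 / 4 : ℝ) * n) ≤ g x)
    (H2 : ∀ x ∈ Set.Icc (0 : ℝ) Real.pi, -Real.exp (-(n * x ^ 2 / 10000000)) ≤ g x) :
    0 < ∫ x in (0 : ℝ)..Real.pi, g x * (1 - Real.cos x) := by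
  have hn0 : 0 < n := lt_of_lt_of_le (Real.exp_pos _) hn
  set a := 1 / Real.sqrt n with ha
  have hsq : 0 < Real.sqrt n := Real.sqrt_pos.2 hn0
  have ha0 : 0 < a := by positivity
  have hna : n * a ^ 2 = 1 := by
    rw [ha, div_pow, Real.sq_sqrt hn0.le, one_pow]; field_simp
  have hae : a ≤ Real.exp (-50000000) := by
    rw [ha, Real.exp_neg, ← one_div]
    apply one_div_le_one_div_of_le (Real.exp_pos _)
    rw [← Real.sqrt_sq (Real.exp_pos 50000000).le]
    apply Real.sqrt_le_sqrt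
    rw [← Real.exp_nat_mul]
    norm_num
    exact hn
  have h10 : (10 : ℝ) ≤ Real.exp 3 := by
    have h1 := Real.exp_one_gt_d9
    have : Real.exp 3 = Real.exp 1 ^ 3 := by rw [← Real.exp_nat_mul]; norm_num
    rw [this]
    calc (10 : ℝ) ≤ 2.7 ^ 3 := by norm_num
      _ ≤ _ := pow_le_pow_left₀ (by norm_num) (by linarith) 3
  set K : ℝ := 10000000000000000 * Real.exp 500000 with hK
  have hK1 : 1 ≤ K := by
    have : 1 ≤ Real.exp 500000 := Real.one_le_exp (by norm_num)
    rw [hK]; linarith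
  have hKe : K ≤ Real.exp 500048 := by
    have h1 : (10000000000000000 : ℝ) ≤ Real.exp 48 := by
      calc (10000000000000000 : ℝ) = 10 ^ 16 := by norm_num
        _ ≤ (Real.exp 3) ^ 16 := pow_le_pow_left₀ (by norm_num) h10 16
        _ = Real.exp 48 := by rw [← Real.exp_nat_mul]; norm_num
    have h2 : Real.exp 500048 = Real.exp 48 * Real.exp 500000 := by
      rw [← Real.exp_add]; norm_num
    rw [h2, hK]
    exact mul_le_mul_of_nonneg_right h1 (Real.exp_pos _).le
  have hKa : K * a ≤ Real.exp (-49499952) := by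
    calc K * a ≤ Real.exp 500048 * Real.exp (-50000000) :=
          mul_le_mul hKe hae ha0.le (Real.exp_pos _).le
      _ = _ := by rw [← Real.exp_add]; norm_num
  have hKa3 : K * a ≤ 3 := by
    have : Real.exp (-49499952) ≤ 1 := by rw [Real.exp_le_one_iff]; norm_num
    linarith
  have hKa0 : 0 ≤ K * a := by positivity
  have hD : (K * a) ^ (1 / 4 : ℝ) ≤ Real.exp (-12374988) := by
    calc (K * a) ^ (1 / 4 : ℝ) ≤ (Real.exp (-49499952)) ^ (1 / 4 : ℝ) :=
          Real.rpow_le_rpow hKa0 hKa (by norm_num)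
      _ = _ := by rw [← Real.exp_mul]; norm_num
  have h := integral_lower ha0 hna hK1 hKa3 hg H1 H2
  refine lt_of_lt_of_le ?_ h
  apply mul_pos (by positivity)
  have t1 : (100000000000000 : ℝ) / K = Real.exp (-500000) / 100 := by
    rw [hK, Real.exp_neg]
    field_simp
    norm_num
  have t2 : 10000000 * K ^ 5 * (K * a) ^ (1 / 4 : ℝ) ≤ Real.exp (-9000000) := by
    have h7 : (10000000 : ℝ) ≤ Real.exp 21 := by
      calc (10000000 : ℝ) = 10 ^ 7 := by norm_num
        _ ≤ (Real.exp 3) ^ 7 := pow_le_pow_left₀ (by norm_num) h10 7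
        _ = Real.exp 21 := by rw [← Real.exp_nat_mul]; norm_num
    have h8 : K ^ 5 ≤ Real.exp 2500240 := by
      calc K ^ 5 ≤ (Real.exp 500048) ^ 5 := pow_le_pow_left₀ (by linarith) hKe 5
        _ = _ := by rw [← Real.exp_nat_mul]; norm_num
    calc 10000000 * K ^ 5 * (K * a) ^ (1 / 4 : ℝ)
        ≤ Real.exp 21 * Real.exp 2500240 * Real.exp (-12374988) := by
          apply mul_le_mul _ hD (Real.rpow_nonneg hKa0 _) (by positivity)
          exact mul_le_mul h7 h8 (by positivity) (Real.exp_pos _).le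
      _ = Real.exp (-9874727) := by rw [← Real.exp_add, ← Real.exp_add]; norm_num
      _ ≤ _ := Real.exp_le_exp.2 (by norm_num)
  have t3 : Real.exp (-9000000) ≤ Real.exp (-500000) / 100 := by
    have h1 : Real.exp (-9000000) = Real.exp (-8500000) * Real.exp (-500000) := by
      rw [← Real.exp_add]; norm_num
    have h2 : Real.exp (-8500000) ≤ 1 / 100 := by
      rw [Real.exp_neg, ← one_div]
      apply one_div_le_one_div_of_le (by norm_num)
      have := Real.add_one_le_exp (8500000 : ℝ)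
      linarith
    rw [h1]
    nlinarith [Real.exp_pos (-500000)]
  rw [t1]
  have := Real.exp_pos (-500000)
  linarith

end Pool.Agent.Lib.MP_24a1b5_co
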