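import Pool.Agent.Lib.MP_24a1b5_co.Mg.G004
import Pool.Agent.Lib.MP_24a1b5_co.Mg.G003
import Pool.Agent.Lib.MP_24a1b5_co.Integral

set_option autoImplicit false
open scoped Classical

namespace Pool.Agent.Lib.MP_24a1b5_co

open Complex (I)

variable {V : Type*}

namespace F

lemma eval_ZF (l : ℝ) : ∀ f : F V,
    (ZF (Polynomial.X : Polynomial ℝ) f).1.eval l = (ZF l f).1 ∧
    (ZF (Polynomial.X : Polynomial ℝ) f).2.eval l = (ZF l f).2
  | nil => by simp [ZF]
  | cons v c r => by
      obtain ⟨c1, c2⟩ := eval_ZF l c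
      obtain ⟨r1, r2⟩ := eval_ZF l r
      constructor
      · rw [ZF, ZF]
        simp only [Polynomial.eval_add, Polynomial.eval_mul, Polynomial.eval_X, c1, c2, r1]
      · rw [ZF, ZF]
        simp only [Polynomial.eval_mul, c1, r2]

lemma deriv_ZF {l : ℝ} (hl : 0 < l) : ∀ f : F V,
    l * (Polynomial.derivative (ZF (Polynomial.X : Polynomial ℝ) f).1).eval l =
      Mn l f * (ZF l f).1 ∧
    l * (Polynomial.derivative (ZF (Polynomial.X : Polynomial ℝ) f).2).eval l =
      (Mn l f - SD l f) * (ZF l f).2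
  | nil => by simp [ZF, Mn, ts, SD]
  | cons v c r => by
      obtain ⟨c1, c2⟩ := deriv_ZF hl c
      obtain ⟨r1, r2⟩ := deriv_ZF hl r
      obtain ⟨vc1, vc2⟩ := eval_ZF (V := V) l c
      obtain ⟨vr1, vr2⟩ := eval_ZF (V := V) l r
      obtain ⟨-, hc⟩ := ZF_pos hl c
      have hL := Lo_pos hl c
      have e1 : Mn l (cons v c r) = eps l c * Dd l c + Mn l c + Mn l r := rfl
      have e2 : SD l (cons v c r) = eps l c * Dd l c + SD l r := rfl
      have h2 : (1 + l * Lo l c) * eps l c = l * Lo l c := by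
        rw [eps]; field_simp
      constructor
      · have hP : (ZF (Polynomial.X : Polynomial ℝ) (cons v c r)).1 =
            ((ZF (Polynomial.X : Polynomial ℝ) c).1 + Polynomial.X *
              (ZF (Polynomial.X : Polynomial ℝ) c).2) *
              (ZF (Polynomial.X : Polynomial ℝ) r).1 := rfl
        have hZ : (ZF l (cons v c r)).1 = ((ZF l c).1 + l * (ZF l c).2) * (ZF l r).1 := rfl
        rw [hP, hZ, e1]
        simp only [Polynomial.derivative_mul, Polynomial.derivative_add,
          Polynomial.derivative_X, one_mul, Polynomial.eval_add, Polynomial.eval_mul,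
          Polynomial.eval_X, vc1, vc2, vr1]
        generalize (Polynomial.derivative (ZF (Polynomial.X : Polynomial ℝ) c).1).eval l = a1
          at *
        generalize (Polynomial.derivative (ZF (Polynomial.X : Polynomial ℝ) c).2).eval l = a2
          at *
        generalize (Polynomial.derivative (ZF (Polynomial.X : Polynomial ℝ) r).1).eval l = a3
          at *
        rw [hc] at c2 ⊢
        have hD : Dd l c = 1 - SD l c := rfl
        have key : l * ((a1 + ((Lo l c * (ZF l c).1) + l * a2)) * (ZF l r).1 +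
            ((ZF l c).1 + l * (Lo l c * (ZF l c).1)) * a3) =
            ((l * a1) + l * (Lo l c * (ZF l c).1) + l * (l * a2)) * (ZF l r).1 +
            ((ZF l c).1 + l * (Lo l c * (ZF l c).1)) * (l * a3) := by ring
        rw [key, c1, c2, r1, hD]
        have h3 : eps l c * (1 - SD l c) * ((1 + l * Lo l c) * (ZF l c).1) =
            (l * Lo l c) * (1 - SD l c) * (ZF l c).1 := by
          linear_combination (1 - SD l c) * (ZF l c).1 * h2
        linear_combination (-(ZF l r).1) * h3
      · have hP : (ZF (Polynomial.X : Polynomial ℝ) (cons v c r)).2 =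
            (ZF (Polynomial.X : Polynomial ℝ) c).1 *
              (ZF (Polynomial.X : Polynomial ℝ) r).2 := rfl
        have hZ : (ZF l (cons v c r)).2 = (ZF l c).1 * (ZF l r).2 := rfl
        rw [hP, hZ, e1, e2]
        simp only [Polynomial.derivative_mul, Polynomial.eval_add, Polynomial.eval_mul,
          vc1, vr2]
        linear_combination (ZF l r).2 * c1 + (ZF l c).1 * r2

end F

lemma W1_eq {G : SimpleGraph V} {f : F V} (hf : F.Fits G f) {l : ℝ} (hl : 0 < l) :
    W1 G l f.verts = F.Mn l f * W0 G l f.verts := by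
  have h1 := (F.deriv_ZF hl f).1
  have h2 := (F.link G (Polynomial.X : Polynomial ℝ) f hf).1
  have h3 : Pl G f.verts = (F.ZF (Polynomial.X : Polynomial ℝ) f).1 := h2
  rw [W1, W0, h3, h1, (F.eval_ZF l f).1]

lemma W0_pos (G : SimpleGraph V) {l : ℝ} (hl : 0 ≤ l) (S : Finset V) : 0 < W0 G l S := by
  rw [W0_eq]
  exact Z_pos G (fun _ => hl) S

lemma Mn_le {G : SimpleGraph V} {f : F V} (hf : F.Fits G f) {l : ℝ} (hl : 0 < l) :
    F.Mn l f ≤ l * f.verts.card := by
  have h1 := W1_le G l hl.le _ f.verts rfl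
  rw [W1_eq hf hl] at h1
  exact le_of_mul_le_mul_right h1 (W0_pos G hl.le _)

lemma le_Mn {G : SimpleGraph V} (hG : Degen G) {f : F V} (hf : F.Fits G f) :
    2 / 3 * (alpha G f.verts : ℝ) ≤ F.Mn (9 / 2) f := by
  have h1 := mean_lower hG _ f.verts rfl
  rw [W1_eq hf (by norm_num)] at h1
  have h2 := le_of_mul_le_mul_right h1 (W0_pos G (by norm_num) _)
  have h3 := kap_nonneg hG f.verts
  rw [gg] at h2
  linarith

lemma exists_l {G : SimpleGraph V} (hG : Degen G) {f : F V} (hf : F.Fits G f) {k : ℝ}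
    (hk1 : 1 / 36 * (f.verts.card : ℝ) ≤ k) (hk2 : k ≤ 2 / 3 * (alpha G f.verts : ℝ)) :
    ∃ l ∈ Set.Icc (1 / 36 : ℝ) (9 / 2), F.Mn l f = k := by
  have hcont : ContinuousOn (fun l => F.Mn l f) (Set.Icc (1 / 36 : ℝ) (9 / 2)) := by
    have h1 : ContinuousOn (fun l => W1 G l f.verts / W0 G l f.verts)
        (Set.Icc (1 / 36 : ℝ) (9 / 2)) := by
      apply ContinuousOn.div
      · unfold W1
        exact ((continuous_id).mul (Polynomial.continuous _)).continuousOn
      · unfold W0
        exact (Polynomial.continuous _).continuousOn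
      · intro l hl
        exact (W0_pos G (by linarith [hl.1]) _).ne'
    apply h1.congr
    intro l hl
    have hl0 : 0 < l := by linarith [hl.1]
    simp only
    rw [W1_eq hf hl0, mul_div_assoc, div_self (W0_pos G hl0.le _).ne', mul_one]
  have h := intermediate_value_Icc (by norm_num : (1 / 36 : ℝ) ≤ 9 / 2) hcont
  have hmem : k ∈ Set.Icc (F.Mn (1 / 36) f) (F.Mn (9 / 2) f) := by
    refine ⟨(Mn_le hf (by norm_num)).trans hk1, hk2.trans (le_Mn hG hf)⟩
  obtain ⟨l, hl, hl2⟩ := h hmem
  exact ⟨l, hl, hl2⟩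

/-- strict log-concavity in the middle range -/
lemma log_concave {G : SimpleGraph V} (hG : G.IsAcyclic) (S : Finset V)
    (hS : Real.exp 100000000 ≤ S.card) {k : ℕ} (hk1 : S.card ≤ 36 * (k + 1))
    (hk2 : 3 * (k + 1) ≤ 2 * alpha G S) :
    cnt G S k * cnt G S (k + 2) < cnt G S (k + 1) ^ 2 := by
  have hD := degen_of_acyclic hG
  obtain ⟨f, hf, hfS⟩ := F.exists_fits G hD _ S rfl
  have hk1' : 1 / 36 * (f.verts.card : ℝ) ≤ ((k + 1 : ℕ) : ℝ) := by
    rw [hfS]
    have : (S.card : ℝ) ≤ 36 * ((k + 1 : ℕ) : ℝ) := by exact_mod_cast hk1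
    linarith
  have hk2' : ((k + 1 : ℕ) : ℝ) ≤ 2 / 3 * (alpha G f.verts : ℝ) := by
    rw [hfS]
    have : 3 * ((k + 1 : ℕ) : ℝ) ≤ 2 * (alpha G S : ℝ) := by exact_mod_cast hk2
    linarith
  obtain ⟨l, ⟨hl1, hl2⟩, hM⟩ := exists_l hD hf hk1' hk2'
  have hl0 : 0 < l := by linarith
  set n := S.card with hn
  set Zl := Z G (fun _ => l) S with hZl
  have hZpos : 0 < Zl := Z_pos G (fun _ => hl0.le) S
  set p : ℕ → ℝ := fun j => (cnt G S j : ℝ) * l ^ j / Zl with hp
  have hp0 : ∀ j, n < j → p j = 0 := by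
    intro j hj
    simp only [hp]
    rw [cnt_eq_zero hj]
    simp
  have hpn : ∀ j, 0 ≤ p j := fun j => by simp only [hp]; positivity
  set g : ℝ → ℝ := fun φ => ∑ j ∈ Finset.range (n + 1),
    p j * Real.cos ((((j : ℤ) - (k + 1 : ℕ) : ℤ) : ℝ) * φ) with hg
  have hgc : Continuous g := by
    rw [hg]; fun_prop
  have hsz : (F.sz f : ℝ) = n := by rw [F.sz_eq G f hf, hfS]
  -- identification with the characteristic function
  have hZF : ∀ z : ℂ, (F.ZF z f).1 = Z G (fun _ => z) S := by
    intro z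
    rw [← (F.link G z f hf).1, hfS]
  have hZFr : (F.ZF l f).1 = Zl := by
    rw [← (F.link G l f hf).1, hfS]
  have hch : ∀ φ : ℝ, Z G (fun _ => (l : ℂ) * Complex.exp (φ * I)) S =
      (Zl : ℂ) * (F.ch l φ f).1 * Complex.exp ((φ * (k + 1 : ℕ) : ℝ) * I) := by
    intro φ
    have := (F.ZF_ch hl0 φ f).1
    rw [hZF, hZFr, hM] at this
    exact this
  have hZc : (Zl : ℂ) ≠ 0 := by exact_mod_cast hZpos.ne'
  have hre : ∀ φ : ℝ, g φ = ((F.ch l φ f).1).re := by
    intro φ
    have h1 : (F.ch l φ f).1 = ∑ j ∈ Finset.range (n + 1),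
        (p j : ℂ) * Complex.exp (((((j : ℤ) - (k + 1 : ℕ) : ℤ) : ℝ) * φ : ℝ) * I) := by
      have h2 := hch φ
      rw [Z_const_eq_sum] at h2
      have h3 : (F.ch l φ f).1 = (Zl : ℂ)⁻¹ * ((∑ j ∈ Finset.range (S.card + 1),
          (cnt G S j : ℂ) * ((l : ℂ) * Complex.exp (φ * I)) ^ j) *
          Complex.exp (-((φ * (k + 1 : ℕ) : ℝ) * I))) := by
        rw [h2, mul_assoc (((Zl : ℂ) * (F.ch l φ f).1)), ← Complex.exp_add, add_neg_cancel,
          Complex.exp_zero, mul_one, ← mul_assoc, inv_mul_cancel₀ hZc, one_mul]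
      rw [h3, Finset.sum_mul, Finset.mul_sum]
      apply Finset.sum_congr rfl
      intro j _
      simp only [hp]
      rw [mul_pow, ← Complex.exp_nat_mul]
      have h4 : Complex.exp (((((j : ℤ) - (k + 1 : ℕ) : ℤ) : ℝ) * φ : ℝ) * I) =
          Complex.exp ((j : ℂ) * ((φ : ℂ) * I)) *
            Complex.exp (-((φ * (k + 1 : ℕ) : ℝ) * I)) := by
        rw [← Complex.exp_add]
        congr 1
        push_cast
        ring
      rw [h4]
      push_cast
      field_simp
    rw [h1, Complex.re_sum]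
    simp only [hg]
    apply Finset.sum_congr rfl
    intro j _
    rw [Complex.re_ofReal_mul, Complex.exp_ofReal_mul_I_re]
  have hnorm : ∀ φ : ℝ, |φ| ≤ Real.pi →
      ‖(F.ch l φ f).1‖ ≤ Real.exp (-(n * φ ^ 2 / 10000000)) := by
    intro φ hφ
    have h1 := decay hG S hl1 hl2 hφ
    rw [hch, norm_mul, norm_mul, Complex.norm_exp_ofReal_mul_I, mul_one, Complex.norm_real,
      Real.norm_of_nonneg hZpos.le, mul_comm] at h1
    exact le_of_mul_le_mul_right h1 hZpos
  have H1 : ∀ x ∈ Set.Icc (0 : ℝ) Real.pi,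
      Real.exp (-(x ^ 2 / 2 * (1000000 * (n : ℝ)))) -
        10000000 * (x ^ (9 / 4 : ℝ) * (n : ℝ)) ≤ g x := by
    intro x hx
    have h1 := F.gauss' hl0 hl2 x f
    rw [hsz, abs_of_nonneg hx.1] at h1
    have h2 := (Complex.abs_re_le_norm _).trans h1
    rw [Complex.sub_re, Complex.ofReal_re, ← hre] at h2
    have h3 := (abs_le.1 h2).1
    have h4 := F.Vr_le hl0 hl2 f
    rw [hsz] at h4
    have h5 : Real.exp (-(x ^ 2 / 2 * (1000000 * (n : ℝ)))) ≤
        Real.exp (-(x ^ 2 / 2 * F.Vr l f)) := by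
      apply Real.exp_le_exp.2
      have := mul_le_mul_of_nonneg_left h4 (by positivity : 0 ≤ x ^ 2 / 2)
      linarith
    linarith
  have H2 : ∀ x ∈ Set.Icc (0 : ℝ) Real.pi, -Real.exp (-((n : ℝ) * x ^ 2 / 10000000)) ≤ g x := by
    intro x hx
    have h1 := hnorm x (by rw [abs_of_nonneg hx.1]; exact hx.2)
    have h2 := (Complex.abs_re_le_norm _).trans h1
    rw [← hre] at h2
    exact (abs_le.1 h2).1
  have hpos := integral_pos hS hgc H1 H2
  -- evaluate the integral
  have hval : ∫ x in (0 : ℝ)..Real.pi, g x * (1 - Real.cos x) =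
      Real.pi * p (k + 1) - Real.pi / 2 * p (k + 2) - Real.pi / 2 * p k := by
    have e1 : ∀ x : ℝ, g x * (1 - Real.cos x) = ∑ j ∈ Finset.range (n + 1),
        p j * (Real.cos ((((j : ℤ) - (k + 1 : ℕ) : ℤ) : ℝ) * x) * (1 - Real.cos x)) := by
      intro x
      simp only [hg]
      rw [Finset.sum_mul]
      apply Finset.sum_congr rfl
      intro j _
      ring
    simp_rw [e1]
    rw [intervalIntegral.integral_finsetSum]
    · simp_rw [intervalIntegral.integral_const_mul, int_cos_mul]
      have e2 : ∀ j : ℕ, ((j : ℤ) - (k + 1 : ℕ) = 0) ↔ j = k + 1 := by intro j; omega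
      have e3 : ∀ j : ℕ, ((j : ℤ) - (k + 1 : ℕ) = 1) ↔ j = k + 2 := by intro j; omega
      have e4 : ∀ j : ℕ, ((j : ℤ) - (k + 1 : ℕ) = -1) ↔ j = k := by intro j; omega
      simp only [e2, e3, e4]
      have e5 : ∀ j : ℕ, p j * ((if j = k + 1 then Real.pi else 0) -
          (if j = k + 2 then Real.pi / 2 else 0) - (if j = k then Real.pi / 2 else 0)) =
          (if j = k + 1 then Real.pi * p j else 0) -
          (if j = k + 2 then Real.pi / 2 * p j else 0) -
          (if j = k then Real.pi / 2 * p j else 0) := by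
        intro j
        split_ifs <;> ring
      simp only [e5]
      rw [Finset.sum_sub_distrib, Finset.sum_sub_distrib, Finset.sum_ite_eq',
        Finset.sum_ite_eq', Finset.sum_ite_eq']
      have e6 : ∀ m : ℕ, ∀ c : ℝ, (if m ∈ Finset.range (n + 1) then c * p m else 0) = c * p m := by
        intro m c
        split_ifs with h
        · rfl
        · rw [Finset.mem_range, not_lt] at h
          rw [hp0 m (by omega), mul_zero]
      rw [e6, e6, e6]
    · intro j _
      exact Continuous.intervalIntegrable (by fun_prop) _ _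
  rw [hval] at hpos
  have hpi := Real.pi_pos
  have h1 : p k + p (k + 2) < 2 * p (k + 1) := by
    by_contra h
    push Not at h
    nlinarith
  have h2 : p k * p (k + 2) < p (k + 1) ^ 2 := by
    have a1 := hpn k
    have a2 := hpn (k + 2)
    nlinarith [sq_nonneg (p k - p (k + 2))]
  simp only [hp] at h2
  have h3 : (cnt G S k : ℝ) * l ^ k / Zl * ((cnt G S (k + 2) : ℝ) * l ^ (k + 2) / Zl) =
      ((cnt G S k : ℝ) * cnt G S (k + 2)) * (l ^ (k + 1) / Zl) ^ 2 := by
    field_simp
    ring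
  have h4 : ((cnt G S (k + 1) : ℝ) * l ^ (k + 1) / Zl) ^ 2 =
      (cnt G S (k + 1) : ℝ) ^ 2 * (l ^ (k + 1) / Zl) ^ 2 := by
    ring
  rw [h3, h4] at h2
  have h5 : 0 < (l ^ (k + 1) / Zl) ^ 2 := by positivity
  have h6 := lt_of_mul_lt_mul_right h2 h5.le
  exact_mod_cast h6

/-- unimodality -/
lemma unimodal_cnt {G : SimpleGraph V} (hG : G.IsAcyclic) (S : Finset V)
    (hS : Real.exp 100000000 ≤ S.card) :
    ∃ m, (∀ i, i < m → cnt G S i ≤ cnt G S (i + 1)) ∧
      (∀ i, m ≤ i → cnt G S (i + 1) ≤ cnt G S i) := by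
  have hD := degen_of_acyclic hG
  have hex : ∃ m, cnt G S (m + 1) < cnt G S m := by
    by_contra h
    push Not at h
    have : ∀ j, 1 ≤ cnt G S j := by
      intro j
      induction j with
      | zero => rw [cnt_zero]
      | succ j ih => exact ih.trans (h j)
    have h1 := this (S.card + 1)
    rw [cnt_eq_zero (Nat.lt_succ_self _)] at h1
    omega
  classical
  refine ⟨Nat.find hex, fun i hi => not_lt.1 (Nat.find_min hex hi), ?_⟩
  set m := Nat.find hex with hm
  have hm1 : cnt G S (m + 1) < cnt G S m := Nat.find_spec hex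
  have hm2 : S.card < 36 * (m + 1) := by
    by_contra h
    push Not at h
    have := cnt_inc hD S m h
    omega
  intro i hi
  induction i, hi using Nat.le_induction with
  | base => exact hm1.le
  | succ i hi ih =>
    by_cases h1 : 2 * alpha G S ≤ 3 * (i + 1) + 1
    · exact cnt_dec hG S (i + 1) h1
    · push Not at h1
      have h2 := log_concave hG S hS (k := i) (by omega) (by omega)
      have h3 : 0 < cnt G S i := cnt_pos (by omega)
      by_contra h4
      push Not at h4
      have h5 : cnt G S (i + 1) * cnt G S (i + 1) ≤ cnt G S i * cnt G S (i + 1 + 1) :=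
        Nat.mul_le_mul ih h4.le
      rw [sq] at h2
      have h6 : cnt G S (i + 1 + 1) = cnt G S (i + 2) := rfl
      rw [h6] at h5
      omega

end Pool.Agent.Lib.MP_24a1b5_co
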