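import Pool.Agent.Lib.MP_24a1b5_co.Basic

set_option autoImplicit false
open Finset
open scoped Classical

namespace Pool.Agent.Lib.MP_24a1b5_co

variable {V : Type*}

/-- every nonempty finite vertex set contains a vertex with at most one neighbour in it -/
def Degen (G : SimpleGraph V) : Prop :=
  ∀ S : Finset V, S.Nonempty → ∃ v ∈ S, (nb G v S).card ≤ 1

lemma degen_of_acyclic {G : SimpleGraph V} (hG : G.IsAcyclic) : Degen G := by
  intro S hS
  have hH : (G.induce (S : Set V)).IsAcyclic := hG.induce _
  haveI : Nonempty (S : Set V) := ⟨⟨hS.choose, hS.choose_spec⟩⟩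
  haveI : Fintype (S : Set V) := Fintype.ofFinset S (fun x => by simp)
  have hconn : (⊤ : SimpleGraph (S : Set V)).Connected := SimpleGraph.connected_top
  obtain ⟨T, hT1, -, hT3⟩ := hconn.exists_isTree_le_of_le_of_isAcyclic le_top hH
  have key : ∀ v : (S : Set V), (nb G (v : V) S).card ≤ T.degree v := by
    intro v
    rw [← SimpleGraph.card_neighborFinset_eq_degree]
    have : nb G (v : V) S ⊆ (T.neighborFinset v).map ⟨Subtype.val, Subtype.val_injective⟩ := by
      intro u hu
      rw [mem_nb] at hu
      rw [Finset.mem_map]
      refine ⟨⟨u, hu.1⟩, ?_, rfl⟩
      rw [SimpleGraph.mem_neighborFinset]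
      apply hT1
      exact hu.2
    calc (nb G (v : V) S).card ≤ _ := Finset.card_le_card this
      _ = _ := Finset.card_map _
  by_cases hnt : Nontrivial (S : Set V)
  · obtain ⟨v, hv⟩ := hT3.exists_vert_degree_one_of_nontrivial
    exact ⟨v, v.2, by rw [← hv]; exact key v⟩
  · rw [not_nontrivial_iff_subsingleton] at hnt
    obtain ⟨v, hv⟩ := hS
    refine ⟨v, hv, ?_⟩
    have : nb G v S = ∅ := by
      ext u
      simp only [mem_nb, Finset.notMem_empty, iff_false]
      rintro ⟨h1, h2⟩
      have : (⟨u, h1⟩ : (S : Set V)) = ⟨v, hv⟩ := Subsingleton.elim _ _
      have : u = v := congrArg Subtype.val this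
      exact G.irrefl (this ▸ h2)
    rw [this]; simp

/-- rooted ordered forests: `cons v c r` is the tree with root `v` and child forest `c`,
followed by the forest `r` -/
inductive F (V : Type*) where
  | nil : F V
  | cons (v : V) (c r : F V) : F V

namespace F

/-- vertex set -/
noncomputable def verts : F V → Finset V
  | nil => ∅
  | cons v c r => insert v (verts c ∪ verts r)

/-- set of roots -/
noncomputable def roots : F V → Finset V
  | nil => ∅
  | cons v _ r => insert v (roots r)

/-- number of vertices -/
def sz : F V → ℕ
  | nil => 0
  | cons _ c r => 1 + sz c + sz r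

lemma roots_subset : ∀ f : F V, roots f ⊆ verts f
  | nil => by simp [roots, verts]
  | cons v c r => by
      have h := roots_subset r
      intro x hx
      simp only [roots, verts, Finset.mem_insert, Finset.mem_union] at hx ⊢
      rcases hx with h1 | h1
      · exact Or.inl h1
      · exact Or.inr (Or.inr (h h1))

/-- `f` is a rooting of the subgraph of `G` induced on `verts f` -/
def Fits (G : SimpleGraph V) : F V → Prop
  | nil => True
  | cons v c r => Fits G c ∧ Fits G r ∧ v ∉ verts c ∧ v ∉ verts r ∧
      Disjoint (verts c) (verts r) ∧ (∀ u ∈ verts c, (G.Adj v u ↔ u ∈ roots c)) ∧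
      (∀ w ∈ verts r, ¬ G.Adj v w) ∧ (∀ u ∈ verts c, ∀ w ∈ verts r, ¬ G.Adj u w)

/-- independence polynomial of the forest, and of the forest without its roots -/
def ZF {R : Type*} [CommSemiring R] (z : R) : F V → R × R
  | nil => (1, 1)
  | cons _ c r => (((ZF z c).1 + z * (ZF z c).2) * (ZF z r).1, (ZF z c).1 * (ZF z r).2)

lemma sz_eq (G : SimpleGraph V) : ∀ f : F V, Fits G f → sz f = (verts f).card
  | nil, _ => by simp [sz, verts]
  | cons v c r, h => by
      obtain ⟨h1, h2, h3, h4, h5, -⟩ := h
      have e1 := sz_eq G c h1
      have e2 := sz_eq G r h2
      rw [verts, Finset.card_insert_of_notMem (by simp [h3, h4]),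
        Finset.card_union_of_disjoint h5, sz, e1, e2]
      ring

lemma link {R : Type*} [CommSemiring R] (G : SimpleGraph V) (z : R) : ∀ f : F V, Fits G f →
    Z G (fun _ => z) (verts f) = (ZF z f).1 ∧
      Z G (fun _ => z) (verts f \ roots f) = (ZF z f).2
  | nil, _ => by simp [verts, ZF, Z_empty]
  | cons v c r, h => by
      obtain ⟨h1, h2, h3, h4, h5, h6, h7, h8⟩ := h
      obtain ⟨c1, c2⟩ := link G z c h1
      obtain ⟨r1, r2⟩ := link G z r h2
      constructor
      · have e : verts (cons v c r) = insert v (verts c) ∪ verts r := by
          rw [verts, Finset.insert_union]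
        rw [e, Z_union' G (fun _ => z), r1, Z_rec G (fun _ => z) (Finset.mem_insert_self v _),
          Finset.erase_insert h3]
        · have e2 : del G v (insert v (verts c)) = verts c \ roots c := by
            ext u
            simp only [mem_del, Finset.mem_insert, Finset.mem_sdiff]
            constructor
            · rintro ⟨ha | ha, hb, hc⟩
              · exact absurd ha hb
              · exact ⟨ha, fun h => hc ((h6 u ha).2 h)⟩
            · rintro ⟨ha, hb⟩
              exact ⟨Or.inr ha, fun h => h3 (h ▸ ha), fun h => hb ((h6 u ha).1 h)⟩
          rw [e2, c1, c2, ZF]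
        · rw [Finset.disjoint_insert_left]
          exact ⟨h4, h5⟩
        · intro u hu w hw
          rw [Finset.mem_insert] at hu
          rcases hu with rfl | hu
          · exact h7 w hw
          · exact h8 u hu w hw
      · have e : verts (cons v c r) \ roots (cons v c r) = verts c ∪ (verts r \ roots r) := by
          ext u
          simp only [verts, roots, Finset.mem_sdiff, Finset.mem_insert, Finset.mem_union]
          constructor
          · rintro ⟨ha | ha | ha, hb⟩
            · exact absurd (Or.inl ha) hb
            · exact Or.inl ha
            · exact Or.inr ⟨ha, fun h => hb (Or.inr h)⟩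
          · rintro (ha | ⟨ha, hb⟩)
            · refine ⟨Or.inr (Or.inl ha), ?_⟩
              rintro (h | h)
              · exact h3 (h ▸ ha)
              · exact Finset.disjoint_left.1 h5 ha (roots_subset r h)
            · refine ⟨Or.inr (Or.inr ha), ?_⟩
              rintro (h | h)
              · exact h4 (h ▸ ha)
              · exact hb h
        rw [e, Z_union' G (fun _ => z), c1, r2, ZF]
        · exact h5.mono_right Finset.sdiff_subset
        · intro u hu w hw
          exact h8 u hu w (Finset.sdiff_subset hw)

/-- add a new leaf `w` as a child of `u` -/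
noncomputable def ins (u w : V) : F V → F V
  | nil => nil
  | cons x c r => if x = u then cons x (cons w nil c) r else cons x (ins u w c) (ins u w r)

lemma ins_of_notMem (u w : V) : ∀ f : F V, u ∉ verts f → ins u w f = f
  | nil, _ => rfl
  | cons x c r, h => by
      simp only [verts, Finset.mem_insert, Finset.mem_union, not_or] at h
      rw [ins, if_neg (fun e => h.1 e.symm), ins_of_notMem u w c h.2.1, ins_of_notMem u w r h.2.2]

lemma roots_ins (u w : V) : ∀ f : F V, roots (ins u w f) = roots f
  | nil => rfl
  | cons x c r => by
      rw [ins]
      split_ifs with h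
      · simp [roots]
      · simp [roots, roots_ins u w r]

lemma verts_ins (u w : V) : ∀ f : F V, u ∈ verts f → verts (ins u w f) = insert w (verts f)
  | nil, h => by simp [verts] at h
  | cons x c r, h => by
      rw [ins]
      split_ifs with hx
      · simp only [verts]
        ext y
        simp only [Finset.mem_insert, Finset.mem_union, Finset.notMem_empty]
        tauto
      · simp only [verts, Finset.mem_insert, Finset.mem_union] at h
        simp only [verts]
        by_cases hc : u ∈ verts c
        · rw [verts_ins u w c hc]
          by_cases hr : u ∈ verts r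
          · rw [verts_ins u w r hr]
            ext y
            simp only [Finset.mem_insert, Finset.mem_union]
            tauto
          · rw [ins_of_notMem u w r hr]
            ext y
            simp only [Finset.mem_insert, Finset.mem_union]
            tauto
        · have hr : u ∈ verts r := by
            rcases h with h | h | h
            · exact absurd h.symm hx
            · exact absurd h hc
            · exact h
          rw [verts_ins u w r hr, ins_of_notMem u w c hc]
          ext y
          simp only [Finset.mem_insert, Finset.mem_union]
          tauto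

lemma fits_ins (G : SimpleGraph V) (u w : V) : ∀ f : F V, Fits G f → u ∈ verts f →
    w ∉ verts f → (∀ x ∈ verts f, (G.Adj w x ↔ x = u)) → Fits G (ins u w f)
  | nil, _, h, _, _ => by simp [verts] at h
  | cons x c r, hf, hu, hw, hadj => by
      obtain ⟨h1, h2, h3, h4, h5, h6, h7, h8⟩ := hf
      simp only [verts, Finset.mem_insert, Finset.mem_union, not_or] at hw
      obtain ⟨w1, w2, w3⟩ := hw
      have hax : G.Adj w x ↔ x = u := hadj x (by simp [verts])
      have hac : ∀ y ∈ verts c, (G.Adj w y ↔ y = u) := fun y hy => hadj y (by simp [verts, hy])
      have har : ∀ y ∈ verts r, (G.Adj w y ↔ y = u) := fun y hy => hadj y (by simp [verts, hy])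
      rw [ins]
      split_ifs with hx
      · subst hx
        refine ⟨⟨trivial, h1, by simp [verts], w2, by simp [verts], by simp [verts], ?_, by
          simp [verts]⟩, h2, ?_, h4, ?_, ?_, h7, ?_⟩
        · intro y hy h
          rw [hac y hy] at h
          exact h3 (h ▸ hy)
        · simp only [verts, Finset.mem_insert, Finset.mem_union, Finset.notMem_empty, false_or,
            not_or]
          exact ⟨fun h => w1 h.symm, h3⟩
        · simp only [verts, Finset.empty_union]
          rw [Finset.disjoint_insert_left]
          exact ⟨w3, h5⟩
        · intro y hy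
          simp only [verts, Finset.empty_union, Finset.mem_insert] at hy
          simp only [roots, Finset.mem_insert]
          rcases hy with rfl | hy
          · exact ⟨fun _ => Or.inl rfl, fun _ => (hax.2 rfl).symm⟩
          · rw [h6 y hy]
            exact ⟨Or.inr, fun h => h.resolve_left (fun e => w2 (e ▸ hy))⟩
        · intro y hy z hz
          simp only [verts, Finset.empty_union, Finset.mem_insert] at hy
          rcases hy with rfl | hy
          · rw [har z hz]
            intro e
            exact h4 (e ▸ hz)
          · exact h8 y hy z hz
      · have hux : u ∈ verts c ∨ u ∈ verts r := by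
          simp only [verts, Finset.mem_insert, Finset.mem_union] at hu
          rcases hu with h | h
          · exact absurd h.symm hx
          · exact h
        have hwx : ¬ G.Adj x w := fun h => hx (hax.1 h.symm)
        rcases hux with huc | hur
        · have hur : u ∉ verts r := Finset.disjoint_left.1 h5 huc
          rw [ins_of_notMem u w r hur]
          refine ⟨fits_ins G u w c h1 huc w2 hac, h2, ?_, h4, ?_, ?_, h7, ?_⟩
          · rw [verts_ins u w c huc, Finset.mem_insert, not_or]
            exact ⟨fun h => w1 h.symm, h3⟩
          · rw [verts_ins u w c huc, Finset.disjoint_insert_left]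
            exact ⟨w3, h5⟩
          · intro y hy
            rw [verts_ins u w c huc, Finset.mem_insert] at hy
            rw [roots_ins]
            rcases hy with rfl | hy
            · exact ⟨fun h => absurd h hwx, fun h => absurd (roots_subset c h) w2⟩
            · exact h6 y hy
          · intro y hy z hz
            rw [verts_ins u w c huc, Finset.mem_insert] at hy
            rcases hy with rfl | hy
            · rw [har z hz]
              intro e
              exact hur (e ▸ hz)
            · exact h8 y hy z hz
        · have huc : u ∉ verts c := fun h => Finset.disjoint_left.1 h5 h hur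
          rw [ins_of_notMem u w c huc]
          refine ⟨h1, fits_ins G u w r h2 hur w3 har, h3, ?_, ?_, h6, ?_, ?_⟩
          · rw [verts_ins u w r hur, Finset.mem_insert, not_or]
            exact ⟨fun h => w1 h.symm, h4⟩
          · rw [verts_ins u w r hur, Finset.disjoint_insert_right]
            exact ⟨w2, h5⟩
          · intro z hz
            rw [verts_ins u w r hur, Finset.mem_insert] at hz
            rcases hz with rfl | hz
            · exact hwx
            · exact h7 z hz
          · intro y hy z hz
            rw [verts_ins u w r hur, Finset.mem_insert] at hz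
            rcases hz with rfl | hz
            · intro h
              have := (hac y hy).1 h.symm
              exact huc (this ▸ hy)
            · exact h8 y hy z hz

lemma exists_fits (G : SimpleGraph V) (hG : Degen G) : ∀ (n : ℕ) (S : Finset V), S.card = n →
    ∃ f : F V, Fits G f ∧ verts f = S := by
  intro n
  induction n with
  | zero =>
    intro S hS
    rw [Finset.card_eq_zero] at hS
    subst hS
    exact ⟨nil, trivial, rfl⟩
  | succ n ih =>
    intro S hS
    have hne : S.Nonempty := by
      rw [← Finset.card_pos]; omega
    obtain ⟨w, hw, hw1⟩ := hG S hne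
    obtain ⟨f, hf1, hf2⟩ := ih (S.erase w) (by rw [Finset.card_erase_of_mem hw]; omega)
    by_cases h0 : (nb G w S) = ∅
    · refine ⟨cons w nil f, ⟨trivial, hf1, by simp [verts], by simp [hf2], by simp [verts],
        by simp [verts], ?_, by simp [verts]⟩, ?_⟩
      · intro y hy h
        rw [hf2] at hy
        have : y ∈ nb G w S := mem_nb.2 ⟨Finset.mem_of_mem_erase hy, h⟩
        rw [h0] at this
        simp at this
      · simp only [verts, Finset.empty_union]
        rw [hf2, Finset.insert_erase hw]
    · obtain ⟨u, hu⟩ := Finset.nonempty_iff_ne_empty.2 h0
      have huniq : ∀ y ∈ nb G w S, y = u := fun y hy => Finset.card_le_one.1 hw1 y hy u hu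
      rw [mem_nb] at hu
      have huw : u ≠ w := fun e => G.irrefl (e ▸ hu.2)
      have huf : u ∈ verts f := by
        rw [hf2]; exact Finset.mem_erase.2 ⟨huw, hu.1⟩
      refine ⟨ins u w f, fits_ins G u w f hf1 huf ?_ ?_, ?_⟩
      · rw [hf2]; exact Finset.notMem_erase _ _
      · intro x hx
        rw [hf2] at hx
        constructor
        · intro h
          exact huniq x (mem_nb.2 ⟨Finset.mem_of_mem_erase hx, h⟩)
        · rintro rfl
          exact hu.2
      · rw [verts_ins u w f huf, hf2, Finset.insert_erase hw]

end F

end Pool.Agent.Lib.MP_24a1b5_co
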