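import Mathlib

/-!
Inequalities between polynomials with nonnegative coefficients, for the induction on pendant stars.
-/

set_option autoImplicit false
open Polynomial

namespace Pool.Agent.Lib.MP_24a1b5_co.In

/-- all coefficients are nonnegative -/
def NN (p : ℤ[X]) : Prop := ∀ k, 0 ≤ p.coeff k

lemma NN_add {p q : ℤ[X]} (hp : NN p) (hq : NN q) : NN (p + q) := fun k => by
  rw [coeff_add]; exact add_nonneg (hp k) (hq k)

lemma NN_mul {p q : ℤ[X]} (hp : NN p) (hq : NN q) : NN (p * q) := fun k => by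
  rw [coeff_mul]; exact Finset.sum_nonneg (fun x _ => mul_nonneg (hp _) (hq _))

lemma NN_zero : NN 0 := fun k => by simp

lemma NN_one : NN 1 := fun k => by
  rw [coeff_one]; split_ifs <;> norm_num

lemma NN_X : NN X := fun k => by
  rw [coeff_X]; split_ifs <;> norm_num

lemma NN_nat (n : ℕ) : NN (n : ℤ[X]) := fun k => by
  rw [← C_eq_natCast, coeff_C]; split_ifs <;> simp

lemma NN_ofNat (n : ℕ) [n.AtLeastTwo] : NN (OfNat.ofNat n : ℤ[X]) := by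
  have := NN_nat (OfNat.ofNat n)
  simpa using this

lemma NN_pow {p : ℤ[X]} (hp : NN p) : ∀ n : ℕ, NN (p ^ n)
  | 0 => by rw [pow_zero]; exact NN_one
  | n + 1 => by rw [pow_succ]; exact NN_mul (NN_pow hp n) hp

/-- the functional of the main inequality -/
noncomputable def EE (a : ℕ) (p : ℤ[X]) : ℤ[X] :=
  (20 + 25 * X) * derivative p - 18 * (a : ℤ[X]) * p

lemma bern : ∀ j : ℕ, NN ((1 + X : ℤ[X]) ^ j - 1 - (j : ℤ[X]) * X)
  | 0 => by simpa using NN_zero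
  | j + 1 => by
      have h : ((1 + X : ℤ[X]) ^ (j + 1) - 1 - ((j + 1 : ℕ) : ℤ[X]) * X)
          = (1 + X) * ((1 + X : ℤ[X]) ^ j - 1 - (j : ℤ[X]) * X) + (j : ℤ[X]) * X * X := by
        push_cast; ring
      rw [h]
      exact NN_add (NN_mul (NN_add NN_one NN_X) (bern j)) (NN_mul (NN_mul (NN_nat j) NN_X) NN_X)

lemma pos0 (j c : ℕ) (h : 18 * (j + 1) ≤ 2 * (j + 1) * j + 7 * (j + 1) + c) :
    NN (((j + 1 : ℕ) : ℤ[X]) * (1 + X) ^ j * (2 + 7 * X) +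
      (20 + (c : ℤ[X]) * X - 18 * ((j + 1 : ℕ) : ℤ[X]) * X)) := by
  obtain ⟨d, hd⟩ := Nat.exists_eq_add_of_le h
  have hd' : (2 * ((j : ℤ[X]) + 1) * j + 7 * (j + 1) + c) = 18 * (j + 1) + d := by
    have := congrArg (fun n : ℕ => (n : ℤ[X])) hd
    push_cast at this
    exact this
  have e : (((j + 1 : ℕ) : ℤ[X]) * (1 + X) ^ j * (2 + 7 * X) +
      (20 + (c : ℤ[X]) * X - 18 * ((j + 1 : ℕ) : ℤ[X]) * X))
      = ((j + 1 : ℕ) : ℤ[X]) * ((1 + X : ℤ[X]) ^ j - 1 - (j : ℤ[X]) * X) * (2 + 7 * X)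
        + ((2 * (j + 1) + 20 : ℕ) : ℤ[X]) + (d : ℤ[X]) * X
        + ((7 * (j + 1) * j : ℕ) : ℤ[X]) * X * X := by
    push_cast
    linear_combination X * hd'
  rw [e]
  refine NN_add (NN_add (NN_add (NN_mul (NN_mul (NN_nat _) (bern j)) ?_) (NN_nat _))
    (NN_mul (NN_nat _) NN_X)) (NN_mul (NN_mul (NN_nat _) NN_X) NN_X)
  exact NN_add (NN_ofNat 2) (NN_mul (NN_ofNat 7) NN_X)

/-- isolated vertex -/
lemma EE_iso (a : ℕ) (p : ℤ[X]) :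
    EE (a + 1) ((1 + X) * p) = (1 + X) * EE a p + (2 + 7 * X) * p := by
  simp only [EE, derivative_mul, derivative_add, derivative_one, derivative_X]
  push_cast
  ring

lemma derivative_pow' (j : ℕ) :
    derivative ((1 + X : ℤ[X]) ^ (j + 1)) = ((j + 1 : ℕ) : ℤ[X]) * (1 + X) ^ j := by
  rw [derivative_pow]
  simp

/-- removing a star, both independence numbers equal -/
lemma EE_star0 (a j : ℕ) (p q : ℤ[X]) :
    EE (j + 1 + a) ((1 + X) ^ (j + 1) * p + X * q) =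
      (1 + X) ^ (j + 1) * EE a p + X * EE a q +
      ((j + 1 : ℕ) : ℤ[X]) * (1 + X) ^ j * (2 + 7 * X) * p +
      (20 + ((25 : ℕ) : ℤ[X]) * X - 18 * ((j + 1 : ℕ) : ℤ[X]) * X) * q := by
  simp only [EE, derivative_mul, derivative_add, derivative_one, derivative_X, derivative_pow']
  push_cast
  ring

/-- removing a star, independence numbers `a + 1` and `a` -/
lemma EE_star1 (a j : ℕ) (p q : ℤ[X]) :
    EE (j + 1 + (a + 1)) ((1 + X) ^ (j + 1) * p + X * q) =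
      (1 + X) ^ (j + 1) * EE (a + 1) p + X * EE a q +
      ((j + 1 : ℕ) : ℤ[X]) * (1 + X) ^ j * (2 + 7 * X) * p +
      (20 + ((7 : ℕ) : ℤ[X]) * X - 18 * ((j + 1 : ℕ) : ℤ[X]) * X) * q := by
  simp only [EE, derivative_mul, derivative_add, derivative_one, derivative_X, derivative_pow']
  push_cast
  ring

lemma close_iso {a : ℕ} {p : ℤ[X]} (hp : NN p) (h : NN (EE a p)) :
    NN (EE (a + 1) ((1 + X) * p)) := by
  rw [EE_iso]
  exact NN_add (NN_mul (NN_add NN_one NN_X) h)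
    (NN_mul (NN_add (NN_ofNat 2) (NN_mul (NN_ofNat 7) NN_X)) hp)

/-- common end of the two lemmas on one star -/
lemma close_aux {j c : ℕ} {p q : ℤ[X]} (hq : NN q) (hpq : NN (p - q))
    (hc : 18 * (j + 1) ≤ 2 * (j + 1) * j + 7 * (j + 1) + c) :
    NN (((j + 1 : ℕ) : ℤ[X]) * (1 + X) ^ j * (2 + 7 * X) * p +
      (20 + (c : ℤ[X]) * X - 18 * ((j + 1 : ℕ) : ℤ[X]) * X) * q) := by
  have e : (((j + 1 : ℕ) : ℤ[X]) * (1 + X) ^ j * (2 + 7 * X) * p +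
      (20 + (c : ℤ[X]) * X - 18 * ((j + 1 : ℕ) : ℤ[X]) * X) * q)
      = ((j + 1 : ℕ) : ℤ[X]) * (1 + X) ^ j * (2 + 7 * X) * (p - q) +
        (((j + 1 : ℕ) : ℤ[X]) * (1 + X) ^ j * (2 + 7 * X) +
          (20 + (c : ℤ[X]) * X - 18 * ((j + 1 : ℕ) : ℤ[X]) * X)) * q := by ring
  rw [e]
  refine NN_add (NN_mul ?_ hpq) (NN_mul (pos0 j c hc) hq)
  exact NN_mul (NN_mul (NN_nat _) (NN_pow (NN_add NN_one NN_X) _))
    (NN_add (NN_ofNat 2) (NN_mul (NN_ofNat 7) NN_X))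

/-- star whose neighbour is not forced -/
lemma close_star0 {a m : ℕ} {p q : ℤ[X]} (hm : 1 ≤ m) (hq : NN q) (hpq : NN (p - q))
    (h1 : NN (EE a p)) (h2 : NN (EE a q)) :
    NN (EE (m + a) ((1 + X) ^ m * p + X * q)) := by
  obtain ⟨j, rfl⟩ : ∃ j, m = j + 1 := ⟨m - 1, by omega⟩
  rw [EE_star0, add_assoc ((1 + X) ^ (j + 1) * EE a p + X * EE a q)]
  refine NN_add (NN_add (NN_mul (NN_pow (NN_add NN_one NN_X) _) h1) (NN_mul NN_X h2))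
    (close_aux hq hpq ?_)
  rcases Nat.lt_or_ge j 6 with h | h
  · interval_cases j <;> norm_num
  · nlinarith

/-- large star -/
lemma close_big {a m : ℕ} {p q : ℤ[X]} (hm : 6 ≤ m) (hq : NN q) (hpq : NN (p - q))
    (h1 : NN (EE (a + 1) p)) (h2 : NN (EE a q)) :
    NN (EE (m + (a + 1)) ((1 + X) ^ m * p + X * q)) := by
  obtain ⟨j, rfl⟩ : ∃ j, m = j + 1 := ⟨m - 1, by omega⟩
  rw [EE_star1, add_assoc ((1 + X) ^ (j + 1) * EE (a + 1) p + X * EE a q)]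
  refine NN_add (NN_add (NN_mul (NN_pow (NN_add NN_one NN_X) _) h1) (NN_mul NN_X h2))
    (close_aux hq hpq ?_)
  nlinarith

end Pool.Agent.Lib.MP_24a1b5_co.In

namespace Pool.Agent.Lib.MP_24a1b5_co.In

lemma EE_star1' (a m : ℕ) (hm : 1 ≤ m) (p q : ℤ[X]) :
    EE (m + (a + 1)) ((1 + X) ^ m * p + X * q) =
      (1 + X) ^ m * EE (a + 1) p + X * EE a q +
      ((m : ℕ) : ℤ[X]) * (1 + X) ^ (m - 1) * (2 + 7 * X) * p +
      (20 + 7 * X - 18 * (m : ℤ[X]) * X) * q := by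
  obtain ⟨j, rfl⟩ : ∃ j, m = j + 1 := ⟨m - 1, by omega⟩
  rw [EE_star1, Nat.add_sub_cancel]
  push_cast
  ring

/-- the polynomial deciding the case of two stars -/
noncomputable def Phi (m n : ℕ) : ℤ[X] :=
  ((m + n : ℕ) : ℤ[X]) * (1 + X) ^ (m + n - 1) * (2 + 7 * X) +
    (1 + X) ^ n * (20 + 7 * X - 18 * (m : ℤ[X]) * X) +
    (n : ℤ[X]) * (1 + X) ^ (n - 1) * (2 + 7 * X) * X +
    (20 + 7 * X - 18 * (n : ℤ[X]) * X) * ((1 + X) ^ m + X)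

lemma phi_1_2 : NN (Phi 1 2) := by
  have e : Phi 1 2 = 46 + 77 * X + 6 * X ^ 2 + 24 * X ^ 3 := by
    simp only [Phi]
    norm_num
    ring
  rw [e]
  exact (NN_add (NN_add (NN_add (NN_ofNat 46) (NN_mul (NN_ofNat 77) NN_X)) (NN_mul (NN_ofNat 6) (NN_pow NN_X 2))) (NN_mul (NN_ofNat 24) (NN_pow NN_X 3)))

lemma phi_1_3 : NN (Phi 1 3) := by
  have e : Phi 1 3 = 48 + 100 * X + 74 * X ^ 2 + 127 * X ^ 3 + 38 * X ^ 4 := by
    simp only [Phi]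
    norm_num
    ring
  rw [e]
  exact (NN_add (NN_add (NN_add (NN_add (NN_ofNat 48) (NN_mul (NN_ofNat 100) NN_X)) (NN_mul (NN_ofNat 74) (NN_pow NN_X 2))) (NN_mul (NN_ofNat 127) (NN_pow NN_X 3))) (NN_mul (NN_ofNat 38) (NN_pow NN_X 4)))

lemma phi_1_4 : NN (Phi 1 4) := by
  have e : Phi 1 4 = 50 + 127 * X + 198 * X ^ 2 + 372 * X ^ 3 + 218 * X ^ 4 + 52 * X ^ 5 := by
    simp only [Phi]
    norm_num
    ring
  rw [e]
  exact (NN_add (NN_add (NN_add (NN_add (NN_add (NN_ofNat 50) (NN_mul (NN_ofNat 127) NN_X)) (NN_mul (NN_ofNat 198) (NN_pow NN_X 2))) (NN_mul (NN_ofNat 372) (NN_pow NN_X 3))) (NN_mul (NN_ofNat 218) (NN_pow NN_X 4))) (NN_mul (NN_ofNat 52) (NN_pow NN_X 5)))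

lemma phi_1_5 : NN (Phi 1 5) := by
  have e : Phi 1 5 = 52 + 158 * X + 384 * X ^ 2 + 830 * X ^ 3 + 720 * X ^ 4 + 337 * X ^ 5 + 66 * X ^ 6 := by
    simp only [Phi]
    norm_num
    ring
  rw [e]
  exact (NN_add (NN_add (NN_add (NN_add (NN_add (NN_add (NN_ofNat 52) (NN_mul (NN_ofNat 158) NN_X)) (NN_mul (NN_ofNat 384) (NN_pow NN_X 2))) (NN_mul (NN_ofNat 830) (NN_pow NN_X 3))) (NN_mul (NN_ofNat 720) (NN_pow NN_X 4))) (NN_mul (NN_ofNat 337) (NN_pow NN_X 5))) (NN_mul (NN_ofNat 66) (NN_pow NN_X 6)))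

lemma phi_2_1 : NN (Phi 2 1) := by
  have e : Phi 2 1 = 46 + 75 * X + 13 * X ^ 2 + 10 * X ^ 3 := by
    simp only [Phi]
    norm_num
    ring
  rw [e]
  exact (NN_add (NN_add (NN_add (NN_ofNat 46) (NN_mul (NN_ofNat 75) NN_X)) (NN_mul (NN_ofNat 13) (NN_pow NN_X 2))) (NN_mul (NN_ofNat 10) (NN_pow NN_X 3)))

lemma phi_2_2 : NN (Phi 2 2) := by
  have e : Phi 2 2 = 48 + 98 * X + 21 * X ^ 2 + 48 * X ^ 3 + 28 * X ^ 4 := by
    simp only [Phi]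
    norm_num
    ring
  rw [e]
  exact (NN_add (NN_add (NN_add (NN_add (NN_ofNat 48) (NN_mul (NN_ofNat 98) NN_X)) (NN_mul (NN_ofNat 21) (NN_pow NN_X 2))) (NN_mul (NN_ofNat 48) (NN_pow NN_X 3))) (NN_mul (NN_ofNat 28) (NN_pow NN_X 4)))

lemma phi_2_3 : NN (Phi 2 3) := by
  have e : Phi 2 3 = 50 + 125 * X + 85 * X ^ 2 + 184 * X ^ 3 + 142 * X ^ 4 + 35 * X ^ 5 := by
    simp only [Phi]
    norm_num
    ring
  rw [e]
  exact (NN_add (NN_add (NN_add (NN_add (NN_add (NN_ofNat 50) (NN_mul (NN_ofNat 125) NN_X)) (NN_mul (NN_ofNat 85) (NN_pow NN_X 2))) (NN_mul (NN_ofNat 184) (NN_pow NN_X 3))) (NN_mul (NN_ofNat 142) (NN_pow NN_X 4))) (NN_mul (NN_ofNat 35) (NN_pow NN_X 5)))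

lemma phi_2_4 : NN (Phi 2 4) := by
  have e : Phi 2 4 = 52 + 156 * X + 211 * X ^ 2 + 489 * X ^ 3 + 476 * X ^ 4 + 221 * X ^ 5 + 42 * X ^ 6 := by
    simp only [Phi]
    norm_num
    ring
  rw [e]
  exact (NN_add (NN_add (NN_add (NN_add (NN_add (NN_add (NN_ofNat 52) (NN_mul (NN_ofNat 156) NN_X)) (NN_mul (NN_ofNat 211) (NN_pow NN_X 2))) (NN_mul (NN_ofNat 489) (NN_pow NN_X 3))) (NN_mul (NN_ofNat 476) (NN_pow NN_X 4))) (NN_mul (NN_ofNat 221) (NN_pow NN_X 5))) (NN_mul (NN_ofNat 42) (NN_pow NN_X 6)))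

lemma phi_2_5 : NN (Phi 2 5) := by
  have e : Phi 2 5 = 54 + 191 * X + 405 * X ^ 2 + 1042 * X ^ 3 + 1250 * X ^ 4 + 844 * X ^ 5 + 314 * X ^ 6 + 49 * X ^ 7 := by
    simp only [Phi]
    norm_num
    ring
  rw [e]
  exact (NN_add (NN_add (NN_add (NN_add (NN_add (NN_add (NN_add (NN_ofNat 54) (NN_mul (NN_ofNat 191) NN_X)) (NN_mul (NN_ofNat 405) (NN_pow NN_X 2))) (NN_mul (NN_ofNat 1042) (NN_pow NN_X 3))) (NN_mul (NN_ofNat 1250) (NN_pow NN_X 4))) (NN_mul (NN_ofNat 844) (NN_pow NN_X 5))) (NN_mul (NN_ofNat 314) (NN_pow NN_X 6))) (NN_mul (NN_ofNat 49) (NN_pow NN_X 7)))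

lemma phi_3_1 : NN (Phi 3 1) := by
  have e : Phi 3 1 = 48 + 96 * X + 84 * X ^ 2 + 79 * X ^ 3 + 17 * X ^ 4 := by
    simp only [Phi]
    norm_num
    ring
  rw [e]
  exact (NN_add (NN_add (NN_add (NN_add (NN_ofNat 48) (NN_mul (NN_ofNat 96) NN_X)) (NN_mul (NN_ofNat 84) (NN_pow NN_X 2))) (NN_mul (NN_ofNat 79) (NN_pow NN_X 3))) (NN_mul (NN_ofNat 17) (NN_pow NN_X 4)))

lemma phi_3_2 : NN (Phi 3 2) := by
  have e : Phi 3 2 = 50 + 123 * X + 88 * X ^ 2 + 150 * X ^ 3 + 121 * X ^ 4 + 35 * X ^ 5 := by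
    simp only [Phi]
    norm_num
    ring
  rw [e]
  exact (NN_add (NN_add (NN_add (NN_add (NN_add (NN_ofNat 50) (NN_mul (NN_ofNat 123) NN_X)) (NN_mul (NN_ofNat 88) (NN_pow NN_X 2))) (NN_mul (NN_ofNat 150) (NN_pow NN_X 3))) (NN_mul (NN_ofNat 121) (NN_pow NN_X 4))) (NN_mul (NN_ofNat 35) (NN_pow NN_X 5)))

lemma phi_3_3 : NN (Phi 3 3) := by
  have e : Phi 3 3 = 52 + 154 * X + 154 * X ^ 2 + 346 * X ^ 3 + 407 * X ^ 4 + 222 * X ^ 5 + 42 * X ^ 6 := by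
    simp only [Phi]
    norm_num
    ring
  rw [e]
  exact (NN_add (NN_add (NN_add (NN_add (NN_add (NN_add (NN_ofNat 52) (NN_mul (NN_ofNat 154) NN_X)) (NN_mul (NN_ofNat 154) (NN_pow NN_X 2))) (NN_mul (NN_ofNat 346) (NN_pow NN_X 3))) (NN_mul (NN_ofNat 407) (NN_pow NN_X 4))) (NN_mul (NN_ofNat 222) (NN_pow NN_X 5))) (NN_mul (NN_ofNat 42) (NN_pow NN_X 6)))

lemma phi_3_4 : NN (Phi 3 4) := by
  have e : Phi 3 4 = 54 + 189 * X + 288 * X ^ 2 + 746 * X ^ 3 + 1049 * X ^ 4 + 800 * X ^ 5 + 308 * X ^ 6 + 49 * X ^ 7 := by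
    simp only [Phi]
    norm_num
    ring
  rw [e]
  exact (NN_add (NN_add (NN_add (NN_add (NN_add (NN_add (NN_add (NN_ofNat 54) (NN_mul (NN_ofNat 189) NN_X)) (NN_mul (NN_ofNat 288) (NN_pow NN_X 2))) (NN_mul (NN_ofNat 746) (NN_pow NN_X 3))) (NN_mul (NN_ofNat 1049) (NN_pow NN_X 4))) (NN_mul (NN_ofNat 800) (NN_pow NN_X 5))) (NN_mul (NN_ofNat 308) (NN_pow NN_X 6))) (NN_mul (NN_ofNat 49) (NN_pow NN_X 7)))

lemma phi_3_5 : NN (Phi 3 5) := by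
  have e : Phi 3 5 = 56 + 228 * X + 496 * X ^ 2 + 1437 * X ^ 3 + 2317 * X ^ 4 + 2231 * X ^ 5 + 1276 * X ^ 6 + 408 * X ^ 7 + 56 * X ^ 8 := by
    simp only [Phi]
    norm_num
    ring
  rw [e]
  exact (NN_add (NN_add (NN_add (NN_add (NN_add (NN_add (NN_add (NN_add (NN_ofNat 56) (NN_mul (NN_ofNat 228) NN_X)) (NN_mul (NN_ofNat 496) (NN_pow NN_X 2))) (NN_mul (NN_ofNat 1437) (NN_pow NN_X 3))) (NN_mul (NN_ofNat 2317) (NN_pow NN_X 4))) (NN_mul (NN_ofNat 2231) (NN_pow NN_X 5))) (NN_mul (NN_ofNat 1276) (NN_pow NN_X 6))) (NN_mul (NN_ofNat 408) (NN_pow NN_X 7))) (NN_mul (NN_ofNat 56) (NN_pow NN_X 8)))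

lemma phi_4_1 : NN (Phi 4 1) := by
  have e : Phi 4 1 = 50 + 121 * X + 207 * X ^ 2 + 264 * X ^ 3 + 126 * X ^ 4 + 24 * X ^ 5 := by
    simp only [Phi]
    norm_num
    ring
  rw [e]
  exact (NN_add (NN_add (NN_add (NN_add (NN_add (NN_ofNat 50) (NN_mul (NN_ofNat 121) NN_X)) (NN_mul (NN_ofNat 207) (NN_pow NN_X 2))) (NN_mul (NN_ofNat 264) (NN_pow NN_X 3))) (NN_mul (NN_ofNat 126) (NN_pow NN_X 4))) (NN_mul (NN_ofNat 24) (NN_pow NN_X 5)))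

lemma phi_4_2 : NN (Phi 4 2) := by
  have e : Phi 4 2 = 52 + 152 * X + 213 * X ^ 2 + 395 * X ^ 3 + 384 * X ^ 4 + 193 * X ^ 5 + 42 * X ^ 6 := by
    simp only [Phi]
    norm_num
    ring
  rw [e]
  exact (NN_add (NN_add (NN_add (NN_add (NN_add (NN_add (NN_ofNat 52) (NN_mul (NN_ofNat 152) NN_X)) (NN_mul (NN_ofNat 213) (NN_pow NN_X 2))) (NN_mul (NN_ofNat 395) (NN_pow NN_X 3))) (NN_mul (NN_ofNat 384) (NN_pow NN_X 4))) (NN_mul (NN_ofNat 193) (NN_pow NN_X 5))) (NN_mul (NN_ofNat 42) (NN_pow NN_X 6)))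

lemma phi_4_3 : NN (Phi 4 3) := by
  have e : Phi 4 3 = 54 + 187 * X + 287 * X ^ 2 + 686 * X ^ 3 + 978 * X ^ 4 + 772 * X ^ 5 + 308 * X ^ 6 + 49 * X ^ 7 := by
    simp only [Phi]
    norm_num
    ring
  rw [e]
  exact (NN_add (NN_add (NN_add (NN_add (NN_add (NN_add (NN_add (NN_ofNat 54) (NN_mul (NN_ofNat 187) NN_X)) (NN_mul (NN_ofNat 287) (NN_pow NN_X 2))) (NN_mul (NN_ofNat 686) (NN_pow NN_X 3))) (NN_mul (NN_ofNat 978) (NN_pow NN_X 4))) (NN_mul (NN_ofNat 772) (NN_pow NN_X 5))) (NN_mul (NN_ofNat 308) (NN_pow NN_X 6))) (NN_mul (NN_ofNat 49) (NN_pow NN_X 7)))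

lemma phi_4_4 : NN (Phi 4 4) := by
  have e : Phi 4 4 = 56 + 226 * X + 435 * X ^ 2 + 1224 * X ^ 3 + 2132 * X ^ 4 + 2194 * X ^ 5 + 1288 * X ^ 6 + 408 * X ^ 7 + 56 * X ^ 8 := by
    simp only [Phi]
    norm_num
    ring
  rw [e]
  exact (NN_add (NN_add (NN_add (NN_add (NN_add (NN_add (NN_add (NN_add (NN_ofNat 56) (NN_mul (NN_ofNat 226) NN_X)) (NN_mul (NN_ofNat 435) (NN_pow NN_X 2))) (NN_mul (NN_ofNat 1224) (NN_pow NN_X 3))) (NN_mul (NN_ofNat 2132) (NN_pow NN_X 4))) (NN_mul (NN_ofNat 2194) (NN_pow NN_X 5))) (NN_mul (NN_ofNat 1288) (NN_pow NN_X 6))) (NN_mul (NN_ofNat 408) (NN_pow NN_X 7))) (NN_mul (NN_ofNat 56) (NN_pow NN_X 8)))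

lemma phi_4_5 : NN (Phi 4 5) := by
  have e : Phi 4 5 = 58 + 269 * X + 663 * X ^ 2 + 2104 * X ^ 3 + 4176 * X ^ 4 + 5180 * X ^ 5 + 4002 * X ^ 6 + 1908 * X ^ 7 + 522 * X ^ 8 + 63 * X ^ 9 := by
    simp only [Phi]
    norm_num
    ring
  rw [e]
  exact (NN_add (NN_add (NN_add (NN_add (NN_add (NN_add (NN_add (NN_add (NN_add (NN_ofNat 58) (NN_mul (NN_ofNat 269) NN_X)) (NN_mul (NN_ofNat 663) (NN_pow NN_X 2))) (NN_mul (NN_ofNat 2104) (NN_pow NN_X 3))) (NN_mul (NN_ofNat 4176) (NN_pow NN_X 4))) (NN_mul (NN_ofNat 5180) (NN_pow NN_X 5))) (NN_mul (NN_ofNat 4002) (NN_pow NN_X 6))) (NN_mul (NN_ofNat 1908) (NN_pow NN_X 7))) (NN_mul (NN_ofNat 522) (NN_pow NN_X 8))) (NN_mul (NN_ofNat 63) (NN_pow NN_X 9)))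

lemma phi_5_1 : NN (Phi 5 1) := by
  have e : Phi 5 1 = 52 + 150 * X + 388 * X ^ 2 + 630 * X ^ 3 + 470 * X ^ 4 + 187 * X ^ 5 + 31 * X ^ 6 := by
    simp only [Phi]
    norm_num
    ring
  rw [e]
  exact (NN_add (NN_add (NN_add (NN_add (NN_add (NN_add (NN_ofNat 52) (NN_mul (NN_ofNat 150) NN_X)) (NN_mul (NN_ofNat 388) (NN_pow NN_X 2))) (NN_mul (NN_ofNat 630) (NN_pow NN_X 3))) (NN_mul (NN_ofNat 470) (NN_pow NN_X 4))) (NN_mul (NN_ofNat 187) (NN_pow NN_X 5))) (NN_mul (NN_ofNat 31) (NN_pow NN_X 6)))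

lemma phi_5_2 : NN (Phi 5 2) := by
  have e : Phi 5 2 = 54 + 185 * X + 402 * X ^ 2 + 856 * X ^ 3 + 1000 * X ^ 4 + 694 * X ^ 5 + 279 * X ^ 6 + 49 * X ^ 7 := by
    simp only [Phi]
    norm_num
    ring
  rw [e]
  exact (NN_add (NN_add (NN_add (NN_add (NN_add (NN_add (NN_add (NN_ofNat 54) (NN_mul (NN_ofNat 185) NN_X)) (NN_mul (NN_ofNat 402) (NN_pow NN_X 2))) (NN_mul (NN_ofNat 856) (NN_pow NN_X 3))) (NN_mul (NN_ofNat 1000) (NN_pow NN_X 4))) (NN_mul (NN_ofNat 694) (NN_pow NN_X 5))) (NN_mul (NN_ofNat 279) (NN_pow NN_X 6))) (NN_mul (NN_ofNat 49) (NN_pow NN_X 7)))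

lemma phi_5_3 : NN (Phi 5 3) := by
  have e : Phi 5 3 = 56 + 224 * X + 490 * X ^ 2 + 1285 * X ^ 3 + 2088 * X ^ 4 + 2081 * X ^ 5 + 1241 * X ^ 6 + 408 * X ^ 7 + 56 * X ^ 8 := by
    simp only [Phi]
    norm_num
    ring
  rw [e]
  exact (NN_add (NN_add (NN_add (NN_add (NN_add (NN_add (NN_add (NN_add (NN_ofNat 56) (NN_mul (NN_ofNat 224) NN_X)) (NN_mul (NN_ofNat 490) (NN_pow NN_X 2))) (NN_mul (NN_ofNat 1285) (NN_pow NN_X 3))) (NN_mul (NN_ofNat 2088) (NN_pow NN_X 4))) (NN_mul (NN_ofNat 2081) (NN_pow NN_X 5))) (NN_mul (NN_ofNat 1241) (NN_pow NN_X 6))) (NN_mul (NN_ofNat 408) (NN_pow NN_X 7))) (NN_mul (NN_ofNat 56) (NN_pow NN_X 8)))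

lemma phi_5_4 : NN (Phi 5 4) := by
  have e : Phi 5 4 = 58 + 267 * X + 658 * X ^ 2 + 2012 * X ^ 3 + 4018 * X ^ 4 + 5058 * X ^ 5 + 3967 * X ^ 6 + 1908 * X ^ 7 + 522 * X ^ 8 + 63 * X ^ 9 := by
    simp only [Phi]
    norm_num
    ring
  rw [e]
  exact (NN_add (NN_add (NN_add (NN_add (NN_add (NN_add (NN_add (NN_add (NN_add (NN_ofNat 58) (NN_mul (NN_ofNat 267) NN_X)) (NN_mul (NN_ofNat 658) (NN_pow NN_X 2))) (NN_mul (NN_ofNat 2012) (NN_pow NN_X 3))) (NN_mul (NN_ofNat 4018) (NN_pow NN_X 4))) (NN_mul (NN_ofNat 5058) (NN_pow NN_X 5))) (NN_mul (NN_ofNat 3967) (NN_pow NN_X 6))) (NN_mul (NN_ofNat 1908) (NN_pow NN_X 7))) (NN_mul (NN_ofNat 522) (NN_pow NN_X 8))) (NN_mul (NN_ofNat 63) (NN_pow NN_X 9)))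

lemma phi_5_5 : NN (Phi 5 5) := by
  have e : Phi 5 5 = 60 + 314 * X + 912 * X ^ 2 + 3140 * X ^ 3 + 7190 * X ^ 4 + 10700 * X ^ 5 + 10369 * X ^ 6 + 6600 * X ^ 7 + 2700 * X ^ 8 + 650 * X ^ 9 + 70 * X ^ 10 := by
    simp only [Phi]
    norm_num
    ring
  rw [e]
  exact (NN_add (NN_add (NN_add (NN_add (NN_add (NN_add (NN_add (NN_add (NN_add (NN_add (NN_ofNat 60) (NN_mul (NN_ofNat 314) NN_X)) (NN_mul (NN_ofNat 912) (NN_pow NN_X 2))) (NN_mul (NN_ofNat 3140) (NN_pow NN_X 3))) (NN_mul (NN_ofNat 7190) (NN_pow NN_X 4))) (NN_mul (NN_ofNat 10700) (NN_pow NN_X 5))) (NN_mul (NN_ofNat 10369) (NN_pow NN_X 6))) (NN_mul (NN_ofNat 6600) (NN_pow NN_X 7))) (NN_mul (NN_ofNat 2700) (NN_pow NN_X 8))) (NN_mul (NN_ofNat 650) (NN_pow NN_X 9))) (NN_mul (NN_ofNat 70) (NN_pow NN_X 10)))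

lemma phi_nn {m n : ℕ} (hm : 1 ≤ m) (hn : 1 ≤ n) (hm5 : m ≤ 5) (hn5 : n ≤ 5)
    (h : ¬ (m = 1 ∧ n = 1)) : NN (Phi m n) := by
  interval_cases m <;> interval_cases n
  · exact absurd ⟨rfl, rfl⟩ h
  · exact phi_1_2
  · exact phi_1_3
  · exact phi_1_4
  · exact phi_1_5
  · exact phi_2_1
  · exact phi_2_2
  · exact phi_2_3
  · exact phi_2_4
  · exact phi_2_5
  · exact phi_3_1
  · exact phi_3_2
  · exact phi_3_3
  · exact phi_3_4
  · exact phi_3_5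
  · exact phi_4_1
  · exact phi_4_2
  · exact phi_4_3
  · exact phi_4_4
  · exact phi_4_5
  · exact phi_5_1
  · exact phi_5_2
  · exact phi_5_3
  · exact phi_5_4
  · exact phi_5_5

/-- two stars, not both with one leaf -/
lemma close_pair {a m n : ℕ} {p q : ℤ[X]} (hm : 1 ≤ m) (hn : 1 ≤ n) (hm5 : m ≤ 5) (hn5 : n ≤ 5)
    (h : ¬ (m = 1 ∧ n = 1)) (hq : NN q) (hpq : NN (p - q))
    (h1 : NN (EE (a + 1) p)) (h2 : NN (EE a q)) (h3 : NN (EE (m + a) (((1 + X) ^ m + X) * q))) :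
    NN (EE (n + (m + (a + 1)))
      ((1 + X) ^ n * ((1 + X) ^ m * p + X * q) + X * (((1 + X) ^ m + X) * q))) := by
  rw [show n + (m + (a + 1)) = n + ((m + a) + 1) by ring, EE_star1' _ _ hn,
    show (m + a) + 1 = m + (a + 1) by ring, EE_star1' _ _ hm]
  obtain ⟨j, rfl⟩ : ∃ j, m = j + 1 := ⟨m - 1, by omega⟩
  obtain ⟨i, rfl⟩ : ∃ i, n = i + 1 := ⟨n - 1, by omega⟩
  have hphi := phi_nn hm hn hm5 hn5 h
  rw [Phi, show j + 1 + (i + 1) - 1 = j + i + 1 by omega, Nat.add_sub_cancel] at hphi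
  rw [Nat.add_sub_cancel, Nat.add_sub_cancel]
  have e : (1 + X : ℤ[X]) ^ (i + 1) *
        ((1 + X) ^ (j + 1) * EE (a + 1) p + X * EE a q +
          ((j + 1 : ℕ) : ℤ[X]) * (1 + X) ^ j * (2 + 7 * X) * p +
          (20 + 7 * X - 18 * ((j + 1 : ℕ) : ℤ[X]) * X) * q) +
      X * EE (j + 1 + a) (((1 + X) ^ (j + 1) + X) * q) +
      ((i + 1 : ℕ) : ℤ[X]) * (1 + X) ^ i * (2 + 7 * X) * ((1 + X) ^ (j + 1) * p + X * q) +
      (20 + 7 * X - 18 * ((i + 1 : ℕ) : ℤ[X]) * X) * (((1 + X) ^ (j + 1) + X) * q) =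
      (1 + X) ^ (i + 1) * ((1 + X) ^ (j + 1) * EE (a + 1) p + X * EE a q) +
      X * EE (j + 1 + a) (((1 + X) ^ (j + 1) + X) * q) +
      ((j + 1 + (i + 1) : ℕ) : ℤ[X]) * (1 + X) ^ (j + i + 1) * (2 + 7 * X) * (p - q) +
      (((j + 1 + (i + 1) : ℕ) : ℤ[X]) * (1 + X) ^ (j + i + 1) * (2 + 7 * X) +
        (1 + X) ^ (i + 1) * (20 + 7 * X - 18 * ((j + 1 : ℕ) : ℤ[X]) * X) +
        ((i + 1 : ℕ) : ℤ[X]) * (1 + X) ^ i * (2 + 7 * X) * X +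
        (20 + 7 * X - 18 * ((i + 1 : ℕ) : ℤ[X]) * X) * ((1 + X) ^ (j + 1) + X)) * q := by
    push_cast
    ring
  rw [e]
  have hX : NN (1 + X) := NN_add NN_one NN_X
  have h27 : NN (2 + 7 * X) := NN_add (NN_ofNat 2) (NN_mul (NN_ofNat 7) NN_X)
  refine NN_add (NN_add (NN_add (NN_mul (NN_pow hX _) (NN_add (NN_mul (NN_pow hX _) h1)
    (NN_mul NN_X h2))) (NN_mul NN_X h3)) (NN_mul (NN_mul (NN_mul (NN_nat _) (NN_pow hX _)) h27) hpq))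
    (NN_mul hphi hq)

/-- three short stars -/
lemma close_triple {a : ℕ} {r v : ℤ[X]} (hr : NN r) (hv : NN v) (h1 : NN (EE a r))
    (h2 : NN (EE a v)) :
    NN (EE (a + 4) ((1 + 2 * X) ^ 3 * r + X * (1 + X) ^ 3 * v)) := by
  have e : EE (a + 4) ((1 + 2 * X) ^ 3 * r + X * (1 + X) ^ 3 * v) =
      (1 + 2 * X) ^ 3 * EE a r + X * (1 + X) ^ 3 * EE a v +
      (1 + 2 * X) ^ 2 * (48 + 6 * X) * r + (1 + X) ^ 2 * (20 + 33 * X + 28 * X ^ 2) * v := by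
    simp only [EE, derivative_mul, derivative_add, derivative_one, derivative_X, derivative_pow,
      derivative_ofNat]
    push_cast
    norm_num
    ring
  rw [e]
  exact NN_add (NN_add (NN_add (NN_mul (NN_pow (NN_add NN_one (NN_mul (NN_ofNat 2) NN_X)) 3) h1) (NN_mul (NN_mul NN_X (NN_pow (NN_add NN_one NN_X) 3)) h2)) (NN_mul (NN_mul (NN_pow (NN_add NN_one (NN_mul (NN_ofNat 2) NN_X)) 2) (NN_add (NN_ofNat 48) (NN_mul (NN_ofNat 6) NN_X))) hr)) (NN_mul (NN_mul (NN_pow (NN_add NN_one NN_X) 2) (NN_add (NN_add (NN_ofNat 20) (NN_mul (NN_ofNat 33) NN_X)) (NN_mul (NN_ofNat 28) (NN_pow NN_X 2)))) hv)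

/-- two short stars and at most one other neighbour -/
lemma close_two {a : ℕ} {v w : ℤ[X]} (hv : NN v) (hw : NN w) (hvw : NN (v - w))
    (h1 : NN (EE a (v + X * w))) (h2 : NN (EE a v)) :
    NN (EE (a + 3) ((1 + 2 * X) ^ 2 * (v + X * w) + X * (1 + X) ^ 2 * v)) := by
  have e : EE (a + 3) ((1 + 2 * X) ^ 2 * (v + X * w) + X * (1 + X) ^ 2 * v) =
      (1 + 2 * X) ^ 2 * EE a (v + X * w) + X * (1 + X) ^ 2 * EE a v +
      (46 + 95 * X + 36 * X ^ 2 + 21 * X ^ 3) * (v - w) +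
      (46 + 121 * X + 80 * X ^ 2 + 5 * X ^ 3) * w := by
    simp only [EE, derivative_mul, derivative_add, derivative_one, derivative_X, derivative_pow,
      derivative_ofNat]
    push_cast
    norm_num
    ring
  rw [e]
  exact NN_add (NN_add (NN_add (NN_mul (NN_pow (NN_add NN_one (NN_mul (NN_ofNat 2) NN_X)) 2) h1) (NN_mul (NN_mul NN_X (NN_pow (NN_add NN_one NN_X) 2)) h2)) (NN_mul (NN_add (NN_add (NN_add (NN_ofNat 46) (NN_mul (NN_ofNat 95) NN_X)) (NN_mul (NN_ofNat 36) (NN_pow NN_X 2))) (NN_mul (NN_ofNat 21) (NN_pow NN_X 3))) hvw)) (NN_mul (NN_add (NN_add (NN_add (NN_ofNat 46) (NN_mul (NN_ofNat 121) NN_X)) (NN_mul (NN_ofNat 80) (NN_pow NN_X 2))) (NN_mul (NN_ofNat 5) (NN_pow NN_X 3))) hw)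


lemma close_one_1 {a : ℕ} {v w : ℤ[X]} (hw : NN w) (hvw : NN (v - w))
    (h0 : NN (EE (a + 1) (v + X * w + X * v))) (h1 : NN (EE a (v + X * w))) (h2 : NN (EE a v)) :
    NN (EE (1 + (a + 1)) ((1 + X) ^ 1 * (v + X * w + X * v) + X * (v + X * w))) := by
  have e : 4 * EE (1 + (a + 1)) ((1 + X) ^ 1 * (v + X * w + X * v) + X * (v + X * w)) =
      3 * (1 + X) * EE (a + 1) (v + X * w + X * v) +
      (1 + 5 * X) * EE a (v + X * w) + (1 + X) * X * EE a v +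
      (90 + 1 * X + 35 * X ^ 2) * (v - w) +
      (90 + 71 * X + 1 * X ^ 2) * w := by
    simp only [EE, derivative_mul, derivative_add, derivative_one, derivative_X, derivative_pow,
      derivative_ofNat]
    push_cast
    norm_num
    ring
  have h4 : NN (4 * EE (1 + (a + 1)) ((1 + X) ^ 1 * (v + X * w + X * v) + X * (v + X * w))) := by
    rw [e]
    exact NN_add (NN_add (NN_add (NN_add (NN_mul (NN_mul (NN_ofNat 3) (NN_add NN_one NN_X)) h0) (NN_mul (NN_add NN_one (NN_mul (NN_ofNat 5) NN_X)) h1)) (NN_mul (NN_mul (NN_add NN_one NN_X) NN_X) h2)) (NN_mul (NN_add (NN_add (NN_ofNat 90) (NN_mul NN_one NN_X)) (NN_mul (NN_ofNat 35) (NN_pow NN_X 2))) hvw)) (NN_mul (NN_add (NN_add (NN_ofNat 90) (NN_mul (NN_ofNat 71) NN_X)) (NN_mul NN_one (NN_pow NN_X 2))) hw)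
  intro k
  have := h4 k
  rw [show (4 : ℤ[X]) = C 4 by simp, coeff_C_mul] at this
  omega

lemma close_one_2 {a : ℕ} {v w : ℤ[X]} (hw : NN w) (hvw : NN (v - w))
    (h1 : NN (EE a (v + X * w))) (h2 : NN (EE a v)) :
    NN (EE (2 + (a + 1)) ((1 + X) ^ 2 * (v + X * w + X * v) + X * (v + X * w))) := by
  have e : EE (2 + (a + 1)) ((1 + X) ^ 2 * (v + X * w + X * v) + X * (v + X * w)) =
      ((1 + X) ^ 2 + X) * EE a (v + X * w) + (1 + X) ^ 2 * X * EE a v +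
      (26 + 4 * X + 48 * X ^ 2 + 21 * X ^ 3) * (v - w) +
      (26 + 10 * X + 1 * X ^ 2 + 17 * X ^ 3) * w := by
    simp only [EE, derivative_mul, derivative_add, derivative_one, derivative_X, derivative_pow,
      derivative_ofNat]
    push_cast
    norm_num
    ring
  rw [e]
  exact NN_add (NN_add (NN_add (NN_mul (NN_add (NN_pow (NN_add NN_one NN_X) 2) NN_X) h1) (NN_mul (NN_mul (NN_pow (NN_add NN_one NN_X) 2) NN_X) h2)) (NN_mul (NN_add (NN_add (NN_add (NN_ofNat 26) (NN_mul (NN_ofNat 4) NN_X)) (NN_mul (NN_ofNat 48) (NN_pow NN_X 2))) (NN_mul (NN_ofNat 21) (NN_pow NN_X 3))) hvw)) (NN_mul (NN_add (NN_add (NN_add (NN_ofNat 26) (NN_mul (NN_ofNat 10) NN_X)) (NN_mul NN_one (NN_pow NN_X 2))) (NN_mul (NN_ofNat 17) (NN_pow NN_X 3))) hw)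

lemma close_one_3 {a : ℕ} {v w : ℤ[X]} (hw : NN w) (hvw : NN (v - w))
    (h1 : NN (EE a (v + X * w))) (h2 : NN (EE a v)) :
    NN (EE (3 + (a + 1)) ((1 + X) ^ 3 * (v + X * w + X * v) + X * (v + X * w))) := by
  have e : EE (3 + (a + 1)) ((1 + X) ^ 3 * (v + X * w + X * v) + X * (v + X * w)) =
      ((1 + X) ^ 3 + X) * EE a (v + X * w) + (1 + X) ^ 3 * X * EE a v +
      (28 + 5 * X + 108 * X ^ 2 + 92 * X ^ 3 + 28 * X ^ 4) * (v - w) +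
      (28 + 13 * X + 40 * X ^ 2 + 86 * X ^ 3 + 31 * X ^ 4) * w := by
    simp only [EE, derivative_mul, derivative_add, derivative_one, derivative_X, derivative_pow,
      derivative_ofNat]
    push_cast
    norm_num
    ring
  rw [e]
  exact NN_add (NN_add (NN_add (NN_mul (NN_add (NN_pow (NN_add NN_one NN_X) 3) NN_X) h1) (NN_mul (NN_mul (NN_pow (NN_add NN_one NN_X) 3) NN_X) h2)) (NN_mul (NN_add (NN_add (NN_add (NN_add (NN_ofNat 28) (NN_mul (NN_ofNat 5) NN_X)) (NN_mul (NN_ofNat 108) (NN_pow NN_X 2))) (NN_mul (NN_ofNat 92) (NN_pow NN_X 3))) (NN_mul (NN_ofNat 28) (NN_pow NN_X 4))) hvw)) (NN_mul (NN_add (NN_add (NN_add (NN_add (NN_ofNat 28) (NN_mul (NN_ofNat 13) NN_X)) (NN_mul (NN_ofNat 40) (NN_pow NN_X 2))) (NN_mul (NN_ofNat 86) (NN_pow NN_X 3))) (NN_mul (NN_ofNat 31) (NN_pow NN_X 4))) hw)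

lemma close_one_4 {a : ℕ} {v w : ℤ[X]} (hw : NN w) (hvw : NN (v - w))
    (h1 : NN (EE a (v + X * w))) (h2 : NN (EE a v)) :
    NN (EE (4 + (a + 1)) ((1 + X) ^ 4 * (v + X * w + X * v) + X * (v + X * w))) := by
  have e : EE (4 + (a + 1)) ((1 + X) ^ 4 * (v + X * w + X * v) + X * (v + X * w)) =
      ((1 + X) ^ 4 + X) * EE a (v + X * w) + (1 + X) ^ 4 * X * EE a v +
      (30 + 10 * X + 200 * X ^ 2 + 250 * X ^ 3 + 150 * X ^ 4 + 35 * X ^ 5) * (v - w) +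
      (30 + 20 * X + 115 * X ^ 2 + 250 * X ^ 3 + 170 * X ^ 4 + 45 * X ^ 5) * w := by
    simp only [EE, derivative_mul, derivative_add, derivative_one, derivative_X, derivative_pow,
      derivative_ofNat]
    push_cast
    norm_num
    ring
  rw [e]
  exact NN_add (NN_add (NN_add (NN_mul (NN_add (NN_pow (NN_add NN_one NN_X) 4) NN_X) h1) (NN_mul (NN_mul (NN_pow (NN_add NN_one NN_X) 4) NN_X) h2)) (NN_mul (NN_add (NN_add (NN_add (NN_add (NN_add (NN_ofNat 30) (NN_mul (NN_ofNat 10) NN_X)) (NN_mul (NN_ofNat 200) (NN_pow NN_X 2))) (NN_mul (NN_ofNat 250) (NN_pow NN_X 3))) (NN_mul (NN_ofNat 150) (NN_pow NN_X 4))) (NN_mul (NN_ofNat 35) (NN_pow NN_X 5))) hvw)) (NN_mul (NN_add (NN_add (NN_add (NN_add (NN_add (NN_ofNat 30) (NN_mul (NN_ofNat 20) NN_X)) (NN_mul (NN_ofNat 115) (NN_pow NN_X 2))) (NN_mul (NN_ofNat 250) (NN_pow NN_X 3))) (NN_mul (NN_ofNat 170) (NN_pow NN_X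 4))) (NN_mul (NN_ofNat 45) (NN_pow NN_X 5))) hw)

lemma close_one_5 {a : ℕ} {v w : ℤ[X]} (hw : NN w) (hvw : NN (v - w))
    (h1 : NN (EE a (v + X * w))) (h2 : NN (EE a v)) :
    NN (EE (5 + (a + 1)) ((1 + X) ^ 5 * (v + X * w + X * v) + X * (v + X * w))) := by
  have e : EE (5 + (a + 1)) ((1 + X) ^ 5 * (v + X * w + X * v) + X * (v + X * w)) =
      ((1 + X) ^ 5 + X) * EE a (v + X * w) + (1 + X) ^ 5 * X * EE a v +
      (32 + 19 * X + 330 * X ^ 2 + 540 * X ^ 3 + 480 * X ^ 4 + 222 * X ^ 5 + 42 * X ^ 6) * (v - w) +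
      (32 + 31 * X + 232 * X ^ 2 + 560 * X ^ 3 + 550 * X ^ 4 + 282 * X ^ 5 + 59 * X ^ 6) * w := by
    simp only [EE, derivative_mul, derivative_add, derivative_one, derivative_X, derivative_pow,
      derivative_ofNat]
    push_cast
    norm_num
    ring
  rw [e]
  exact NN_add (NN_add (NN_add (NN_mul (NN_add (NN_pow (NN_add NN_one NN_X) 5) NN_X) h1) (NN_mul (NN_mul (NN_pow (NN_add NN_one NN_X) 5) NN_X) h2)) (NN_mul (NN_add (NN_add (NN_add (NN_add (NN_add (NN_add (NN_ofNat 32) (NN_mul (NN_ofNat 19) NN_X)) (NN_mul (NN_ofNat 330) (NN_pow NN_X 2))) (NN_mul (NN_ofNat 540) (NN_pow NN_X 3))) (NN_mul (NN_ofNat 480) (NN_pow NN_X 4))) (NN_mul (NN_ofNat 222) (NN_pow NN_X 5))) (NN_mul (NN_ofNat 42) (NN_pow NN_X 6))) hvw)) (NN_mul (NN_add (NN_add (NN_add (NN_add (NN_add (NN_add (NN_ofNat 32) (NN_mul (NN_ofNat 31) NN_X)) (NN_mul (NN_ofNat 232) (NN_pow NN_X 2))) (NN_mul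 (NN_ofNat 560) (NN_pow NN_X 3))) (NN_mul (NN_ofNat 550) (NN_pow NN_X 4))) (NN_mul (NN_ofNat 282) (NN_pow NN_X 5))) (NN_mul (NN_ofNat 59) (NN_pow NN_X 6))) hw)

/-- one star and at most one other neighbour -/
lemma close_one {a m : ℕ} {v w : ℤ[X]} (hm : 1 ≤ m) (hm5 : m ≤ 5) (hw : NN w)
    (hvw : NN (v - w)) (h0 : NN (EE (a + 1) (v + X * w + X * v)))
    (h1 : NN (EE a (v + X * w))) (h2 : NN (EE a v)) :
    NN (EE (m + (a + 1)) ((1 + X) ^ m * (v + X * w + X * v) + X * (v + X * w))) := by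
  interval_cases m
  · exact close_one_1 hw hvw h0 h1 h2
  · exact close_one_2 hw hvw h1 h2
  · exact close_one_3 hw hvw h1 h2
  · exact close_one_4 hw hvw h1 h2
  · exact close_one_5 hw hvw h1 h2

end Pool.Agent.Lib.MP_24a1b5_co.In
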