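import Pool.Agent.Lib.MP_24a1b5_co.Ends
import Pool.Agent.Lib.MP_24a1b5_co.InP
import Pool.Prelude.Def_F_f5f3026a

/-!
Independence polynomials of vertex sets, stars, the structure at the end of a forest, and the main
induction.
-/

set_option autoImplicit false
open Polynomial
open scoped Classical
open N36365310

namespace Pool.Agent.Lib.MP_24a1b5_co.In

variable {V : Type*} {G : SimpleGraph V}

/-- independence polynomial of the vertex set `S` -/
noncomputable def P (G : SimpleGraph V) (S : Finset V) : ℤ[X] := Z G (fun _ => (X : ℤ[X])) S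

lemma coeff_P (G : SimpleGraph V) (S : Finset V) (k : ℕ) : (P G S).coeff k = (cnt G S k : ℤ) := by
  rw [P, Z_const_eq_sum, Polynomial.finsetSum_coeff]
  simp only [Polynomial.coeff_natCast_mul, Polynomial.coeff_X_pow]
  rw [Finset.sum_eq_single k]
  · simp
  · intro b _ hb
    simp [Ne.symm hb]
  · intro hj
    rw [Finset.mem_range, not_lt] at hj
    simp [cnt_eq_zero (G := G) (S := S) (k := k) (by omega)]

lemma NN_P (G : SimpleGraph V) (S : Finset V) : NN (P G S) := fun k => by
  rw [coeff_P]; exact Int.natCast_nonneg _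

lemma cnt_mono {S T : Finset V} (h : S ⊆ T) (k : ℕ) : cnt G S k ≤ cnt G T k := by
  rw [cnt_eq, cnt_eq]
  apply Finset.card_le_card
  intro I hI
  rw [mem_Ik] at hI ⊢
  exact ⟨hI.1.trans h, hI.2⟩

lemma NN_P_sub {S T : Finset V} (h : S ⊆ T) : NN (P G T - P G S) := fun k => by
  rw [coeff_sub, coeff_P, coeff_P]
  have := cnt_mono (G := G) h k
  omega

lemma P_empty : P G ∅ = 1 := Z_empty G _

lemma P_rec {v : V} {S : Finset V} (hv : v ∈ S) :
    P G S = P G (S.erase v) + X * P G (del G v S) := Z_rec G _ hv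

lemma P_union {S T : Finset V} (hd : Disjoint S T) (h : ∀ u ∈ S, ∀ w ∈ T, ¬ G.Adj u w) :
    P G (S ∪ T) = P G S * P G T := Z_union' G _ hd h

lemma alpha_rec {v : V} {S : Finset V} (hv : v ∈ S) :
    alpha G S = max (alpha G (S.erase v)) (alpha G (del G v S) + 1) := by
  apply le_antisymm
  · obtain ⟨I, h1, h2, h3⟩ := exists_alpha G S
    rw [← h3]
    by_cases hvI : v ∈ I
    · apply le_max_of_le_right
      have h4 : I.erase v ⊆ del G v S := by
        intro u hu
        rw [Finset.mem_erase] at hu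
        exact mem_del.2 ⟨h1 hu.2, hu.1, h2 v hvI u hu.2⟩
      have := card_le_alpha h4 (h2.subset (Finset.erase_subset _ _))
      rw [Finset.card_erase_of_mem hvI] at this
      have : 0 < I.card := Finset.card_pos.2 ⟨v, hvI⟩
      omega
    · apply le_max_of_le_left
      exact card_le_alpha (fun u hu => Finset.mem_erase.2 ⟨fun h => hvI (h ▸ hu), h1 hu⟩) h2
  · apply max_le
    · exact alpha_mono (Finset.erase_subset _ _)
    · obtain ⟨I, h1, h2, h3⟩ := exists_alpha G (del G v S)
      have hvI : v ∉ I := fun h => (mem_del.1 (h1 h)).2.1 rfl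
      have h4 : insert v I ⊆ S := by
        intro u hu
        rw [Finset.mem_insert] at hu
        rcases hu with rfl | hu
        · exact hv
        · exact (mem_del.1 (h1 hu)).1
      have h5 : Ind G (insert v I) := (ind_insert G).2 ⟨h2, fun u hu => (mem_del.1 (h1 hu)).2.2⟩
      have := card_le_alpha h4 h5
      rw [Finset.card_insert_of_notMem hvI, h3] at this
      exact this

lemma alpha_union {S T : Finset V} (hd : Disjoint S T) (h : ∀ u ∈ S, ∀ w ∈ T, ¬ G.Adj u w) :
    alpha G (S ∪ T) = alpha G S + alpha G T := by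
  apply le_antisymm
  · obtain ⟨I, h1, h2, h3⟩ := exists_alpha G (S ∪ T)
    have e : I = (I ∩ S) ∪ (I ∩ T) := by
      rw [← Finset.inter_union_distrib_left, Finset.inter_eq_left.2 h1]
    have h4 := card_le_alpha (Finset.inter_subset_right : I ∩ S ⊆ S)
      (h2.subset Finset.inter_subset_left)
    have h5 := card_le_alpha (Finset.inter_subset_right : I ∩ T ⊆ T)
      (h2.subset Finset.inter_subset_left)
    have h6 := Finset.card_union_le (I ∩ S) (I ∩ T)
    rw [← e] at h6
    omega
  · obtain ⟨I, h1, h2, h3⟩ := exists_alpha G S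
    obtain ⟨J, g1, g2, g3⟩ := exists_alpha G T
    rw [← h3, ← g3, ← Finset.card_union_of_disjoint (hd.mono h1 g1)]
    apply card_le_alpha (Finset.union_subset_union h1 g1)
    intro a ha b hb hab
    rw [Finset.mem_union] at ha hb
    rcases ha with ha | ha <;> rcases hb with hb | hb
    · exact h2 a ha b hb hab
    · exact h a (h1 ha) b (g1 hb) hab
    · exact h b (h1 hb) a (g1 ha) hab.symm
    · exact g2 a ha b hb hab

lemma alpha_indep {L : Finset V} (h : Ind G L) : alpha G L = L.card := by
  apply le_antisymm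
  · obtain ⟨I, h1, -, h3⟩ := exists_alpha G L
    rw [← h3]; exact Finset.card_le_card h1
  · exact card_le_alpha (Finset.Subset.refl _) h

lemma P_indep : ∀ (n : ℕ) (L : Finset V), L.card = n → Ind G L → P G L = (1 + X) ^ n
  | 0, L, h, _ => by
      rw [Finset.card_eq_zero] at h
      rw [h, P_empty, pow_zero]
  | n + 1, L, h, hL => by
      obtain ⟨v, hv⟩ : L.Nonempty := by rw [← Finset.card_pos]; omega
      have e : del G v L = L.erase v := by
        ext u
        rw [mem_del, Finset.mem_erase]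
        exact ⟨fun h => ⟨h.2.1, h.1⟩, fun h => ⟨h.2, h.1, hL v hv u h.2⟩⟩
      rw [P_rec hv, e, P_indep n (L.erase v) (by rw [Finset.card_erase_of_mem hv]; omega)
        (hL.subset (Finset.erase_subset _ _))]
      ring

/-- `s` has in `S` the leaves `L` as neighbours, and possibly `w` -/
structure Star (G : SimpleGraph V) (S : Finset V) (w s : V) (L : Finset V) : Prop where
  hs : s ∈ S
  hw : w ∈ S
  hsw : G.Adj s w
  hL : L ⊆ S
  hne : L.Nonempty
  hwL : w ∉ L
  hnb : ∀ u ∈ S, G.Adj s u → u = w ∨ u ∈ L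
  hadj : ∀ u ∈ L, G.Adj s u
  hleaf : ∀ u ∈ L, ∀ y ∈ S, G.Adj u y → y = s

/-- `s` and the leaves `L` form a component of `S` -/
structure Star0 (G : SimpleGraph V) (S : Finset V) (s : V) (L : Finset V) : Prop where
  hs : s ∈ S
  hL : L ⊆ S
  hne : L.Nonempty
  hnb : ∀ u ∈ S, G.Adj s u → u ∈ L
  hadj : ∀ u ∈ L, G.Adj s u
  hleaf : ∀ u ∈ L, ∀ y ∈ S, G.Adj u y → y = s

/-- the rest of `S` -/
noncomputable def rem (S : Finset V) (s : V) (L : Finset V) : Finset V := S \ insert s L

lemma mem_rem {S L : Finset V} {s u : V} : u ∈ rem S s L ↔ u ∈ S ∧ u ≠ s ∧ u ∉ L := by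
  rw [rem, Finset.mem_sdiff, Finset.mem_insert, not_or]

lemma rem_subset (S : Finset V) (s : V) (L : Finset V) : rem S s L ⊆ S := Finset.sdiff_subset

namespace Star0

variable {S L : Finset V} {s : V}

lemma notMem (h : Star0 G S s L) : s ∉ L := fun hs => G.irrefl (h.hadj s hs)

lemma ind (h : Star0 G S s L) : Ind G L := fun a ha b hb hab =>
  h.notMem ((h.hleaf a ha b (h.hL hb) hab) ▸ hb)

lemma erase_eq (h : Star0 G S s L) : S.erase s = rem S s L ∪ L := by
  ext u
  rw [Finset.mem_erase, Finset.mem_union, mem_rem]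
  constructor
  · rintro ⟨h1, h2⟩
    by_cases hu : u ∈ L
    · exact Or.inr hu
    · exact Or.inl ⟨h2, h1, hu⟩
  · rintro (⟨h1, h2, -⟩ | hu)
    · exact ⟨h2, h1⟩
    · exact ⟨fun e => h.notMem (e ▸ hu), h.hL hu⟩

lemma del_eq (h : Star0 G S s L) : del G s S = rem S s L := by
  ext u
  rw [mem_del, mem_rem]
  constructor
  · rintro ⟨h1, h2, h3⟩
    exact ⟨h1, h2, fun hu => h3 (h.hadj u hu)⟩
  · rintro ⟨h1, h2, h3⟩
    exact ⟨h1, h2, fun hu => h3 (h.hnb u h1 hu)⟩

lemma disj (h : Star0 G S s L) : Disjoint (rem S s L) L :=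
  Finset.disjoint_left.2 (fun _ hu => (mem_rem.1 hu).2.2)

lemma noadj (h : Star0 G S s L) : ∀ u ∈ rem S s L, ∀ w ∈ L, ¬ G.Adj u w := by
  intro u hu w hw hadj
  rw [mem_rem] at hu
  exact hu.2.1 (h.hleaf w hw u hu.1 hadj.symm)

lemma P_eq (h : Star0 G S s L) :
    P G S = (1 + X) ^ L.card * P G (rem S s L) + X * P G (rem S s L) := by
  rw [P_rec h.hs, h.erase_eq, h.del_eq, P_union h.disj h.noadj, P_indep _ L rfl h.ind]
  ring

lemma alpha_eq (h : Star0 G S s L) : alpha G S = L.card + alpha G (rem S s L) := by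
  have h1 := h.hne.card_pos
  rw [alpha_rec h.hs, h.erase_eq, h.del_eq, alpha_union h.disj h.noadj, alpha_indep h.ind]
  rw [max_eq_left (by omega)]
  ring

end Star0

namespace Star

variable {S L : Finset V} {s w : V}

lemma notMem (h : Star G S w s L) : s ∉ L := fun hs => G.irrefl (h.hadj s hs)

lemma ne (h : Star G S w s L) : w ≠ s := fun e => G.irrefl (e ▸ h.hsw)

lemma w_mem (h : Star G S w s L) : w ∈ rem S s L := mem_rem.2 ⟨h.hw, h.ne, h.hwL⟩

lemma ind (h : Star G S w s L) : Ind G L := fun a ha b hb hab =>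
  h.notMem ((h.hleaf a ha b (h.hL hb) hab) ▸ hb)

lemma erase_eq (h : Star G S w s L) : S.erase s = rem S s L ∪ L := by
  ext u
  rw [Finset.mem_erase, Finset.mem_union, mem_rem]
  constructor
  · rintro ⟨h1, h2⟩
    by_cases hu : u ∈ L
    · exact Or.inr hu
    · exact Or.inl ⟨h2, h1, hu⟩
  · rintro (⟨h1, h2, -⟩ | hu)
    · exact ⟨h2, h1⟩
    · exact ⟨fun e => h.notMem (e ▸ hu), h.hL hu⟩

lemma del_eq (h : Star G S w s L) : del G s S = (rem S s L).erase w := by
  ext u
  rw [mem_del, Finset.mem_erase, mem_rem]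
  constructor
  · rintro ⟨h1, h2, h3⟩
    exact ⟨fun e => h3 (e ▸ h.hsw), h1, h2, fun hu => h3 (h.hadj u hu)⟩
  · rintro ⟨h0, h1, h2, h3⟩
    refine ⟨h1, h2, fun hu => ?_⟩
    rcases h.hnb u h1 hu with e | e
    · exact h0 e
    · exact h3 e

lemma disj (h : Star G S w s L) : Disjoint (rem S s L) L :=
  Finset.disjoint_left.2 (fun _ hu => (mem_rem.1 hu).2.2)

lemma noadj (h : Star G S w s L) : ∀ u ∈ rem S s L, ∀ w ∈ L, ¬ G.Adj u w := by
  intro u hu w hw hadj
  rw [mem_rem] at hu
  exact hu.2.1 (h.hleaf w hw u hu.1 hadj.symm)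

lemma P_eq (h : Star G S w s L) :
    P G S = (1 + X) ^ L.card * P G (rem S s L) + X * P G ((rem S s L).erase w) := by
  rw [P_rec h.hs, h.erase_eq, h.del_eq, P_union h.disj h.noadj, P_indep _ L rfl h.ind]
  ring

lemma alpha_eq (h : Star G S w s L) : alpha G S = L.card + alpha G (rem S s L) := by
  have h1 := h.hne.card_pos
  have h2 := alpha_mono (G := G) (Finset.erase_subset w (rem S s L))
  rw [alpha_rec h.hs, h.erase_eq, h.del_eq, alpha_union h.disj h.noadj, alpha_indep h.ind]
  rw [max_eq_left (by omega)]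
  ring

/-- in `S.erase w` the star is a component -/
lemma star0 (h : Star G S w s L) : Star0 G (S.erase w) s L where
  hs := Finset.mem_erase.2 ⟨h.ne.symm, h.hs⟩
  hL := fun u hu => Finset.mem_erase.2 ⟨fun e => h.hwL (e ▸ hu), h.hL hu⟩
  hne := h.hne
  hnb := fun u hu hadj => by
    rw [Finset.mem_erase] at hu
    exact (h.hnb u hu.2 hadj).resolve_left hu.1
  hadj := h.hadj
  hleaf := fun u hu y hy => h.hleaf u hu y (Finset.mem_of_mem_erase hy)

lemma rem_erase (S L : Finset V) (s w : V) : rem (S.erase w) s L = (rem S s L).erase w := by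
  ext u
  simp only [mem_rem, Finset.mem_erase]
  tauto

lemma P_erase (h : Star G S w s L) :
    P G (S.erase w) = ((1 + X) ^ L.card + X) * P G ((rem S s L).erase w) := by
  rw [h.star0.P_eq, rem_erase]
  ring

lemma alpha_erase (h : Star G S w s L) :
    alpha G (S.erase w) = L.card + alpha G ((rem S s L).erase w) := by
  rw [h.star0.alpha_eq, rem_erase]

/-- another star at `w` survives -/
lemma persist {s' : V} {L' : Finset V} (h : Star G S w s L) (h' : Star G S w s' L')
    (hne : s ≠ s') : Star G (rem S s L) w s' L' where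
  hs := by
    refine mem_rem.2 ⟨h'.hs, hne.symm, fun hs => h.ne ?_⟩
    exact h.hleaf s' hs w h.hw h'.hsw
  hw := h.w_mem
  hsw := h'.hsw
  hL := by
    intro u hu
    refine mem_rem.2 ⟨h'.hL hu, ?_, ?_⟩
    · rintro rfl
      exact h'.ne (h'.hleaf u hu w h.hw h.hsw)
    · intro hu2
      exact hne (h'.hleaf u hu s h.hs (h.hadj u hu2).symm)
  hne := h'.hne
  hwL := h'.hwL
  hnb := fun u hu => h'.hnb u (rem_subset _ _ _ hu)
  hadj := h'.hadj
  hleaf := fun u hu y hy => h'.hleaf u hu y (rem_subset _ _ _ hy)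

lemma card_rem_lt (h : Star G S w s L) : (rem S s L).card < S.card := by
  apply Finset.card_lt_card
  rw [Finset.ssubset_iff_of_subset (rem_subset _ _ _)]
  exact ⟨s, h.hs, fun hs => (mem_rem.1 hs).2.1 rfl⟩

end Star

lemma Star0.card_rem_lt {S L : Finset V} {s : V} (h : Star0 G S s L) :
    (rem S s L).card < S.card := by
  apply Finset.card_lt_card
  rw [Finset.ssubset_iff_of_subset (rem_subset _ _ _)]
  exact ⟨s, h.hs, fun hs => (mem_rem.1 hs).2.1 rfl⟩

end Pool.Agent.Lib.MP_24a1b5_co.In

namespace Pool.Agent.Lib.MP_24a1b5_co.In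

variable {V : Type*} {G : SimpleGraph V}

lemma nb_subset (v : V) (S : Finset V) : nb G v S ⊆ S := Finset.filter_subset _ _

/-- the ends of a forest -/
lemma ends (hG : Degen G) (S : Finset V) (hS : S.Nonempty) :
    (∃ v ∈ S, nb G v S = ∅) ∨ (∃ s L, Star0 G S s L) ∨
    (∃ w s L l, Star G S w s L ∧ l ∈ S ∧ l ≠ s ∧ G.Adj w l ∧ (∀ y ∈ S, G.Adj l y → y = w)) ∨
    (∃ w N, w ∈ S ∧ N ⊆ nb G w S ∧ N.Nonempty ∧ (nb G w S \ N).card ≤ 1 ∧
      ∀ s ∈ N, ∃ L, Star G S w s L) := by
  by_cases h0 : ∃ v ∈ S, nb G v S = ∅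
  · exact Or.inl h0
  right
  have h0' : ∀ v ∈ S, 1 ≤ (nb G v S).card := by
    intro v hv
    by_contra hc
    apply h0
    refine ⟨v, hv, ?_⟩
    rw [← Finset.card_eq_zero]; omega
  set A := S.filter (fun v => (nb G v S).card ≤ 1) with hA
  set B := S \ A with hB
  have hAl : ∀ u ∈ A, ∀ v ∈ S, G.Adj u v → ∀ y ∈ S, G.Adj u y → y = v := by
    intro u hu v hv huv y hy huy
    rw [hA, Finset.mem_filter] at hu
    exact Finset.card_le_one.1 hu.2 y (mem_nb.2 ⟨hy, huy⟩) v (mem_nb.2 ⟨hv, huv⟩)
  have hBS : B ⊆ S := Finset.sdiff_subset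
  have hBc : ∀ v ∈ B, 2 ≤ (nb G v S).card := by
    intro v hv
    rw [hB, Finset.mem_sdiff, hA, Finset.mem_filter, not_and] at hv
    have := hv.2 hv.1
    omega
  by_cases hBe : B = ∅
  · obtain ⟨v, hv⟩ := hS
    have hall : ∀ u ∈ S, u ∈ A := by
      intro u hu
      by_contra hc
      have : u ∈ B := Finset.mem_sdiff.2 ⟨hu, hc⟩
      rw [hBe] at this
      simp at this
    obtain ⟨u, hu⟩ := Finset.card_pos.1 (h0' v hv)
    rw [mem_nb] at hu
    left
    refine ⟨u, {v}, ⟨hu.1, by simpa using hv, ⟨v, by simp⟩, ?_, ?_, ?_⟩⟩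
    · intro y hy huy
      rw [Finset.mem_singleton]
      exact hAl u (hall u hu.1) v hv hu.2.symm y hy huy
    · intro y hy
      rw [Finset.mem_singleton] at hy
      rw [hy]; exact hu.2.symm
    · intro y hy z hz hyz
      rw [Finset.mem_singleton] at hy
      subst hy
      exact hAl y (hall y hv) u hu.1 hu.2 z hz hyz
  · have hBne : B.Nonempty := Finset.nonempty_iff_ne_empty.2 hBe
    set C := B.filter (fun v => (nb G v B).card ≤ 1) with hC
    have hCB : C ⊆ B := Finset.filter_subset _ _
    -- the leaves at a vertex of `C`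
    have hL : ∀ s ∈ C, (nb G s A).Nonempty := by
      intro s hs
      rw [hC, Finset.mem_filter] at hs
      have h2 := hBc s hs.1
      have h3 : nb G s S = nb G s A ∪ nb G s B := by
        ext u
        simp only [Finset.mem_union, mem_nb, hB, Finset.mem_sdiff]
        constructor
        · rintro ⟨h1, h2⟩
          by_cases hu : u ∈ A
          · exact Or.inl ⟨hu, h2⟩
          · exact Or.inr ⟨⟨h1, hu⟩, h2⟩
        · rintro (⟨h1, h2⟩ | ⟨⟨h1, -⟩, h2⟩)
          · exact ⟨(Finset.mem_filter.1 h1).1, h2⟩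
          · exact ⟨h1, h2⟩
      have h4 := Finset.card_union_le (nb G s A) (nb G s B)
      rw [← h3] at h4
      rw [← Finset.card_pos]
      omega
    have hAS : A ⊆ S := Finset.filter_subset _ _
    have hstar0 : ∀ s ∈ C, nb G s B = ∅ → Star0 G S s (nb G s A) := by
      intro s hs he
      refine ⟨hBS (hCB hs), (nb_subset _ _).trans hAS, hL s hs, ?_, ?_, ?_⟩
      · intro u hu hsu
        by_cases huA : u ∈ A
        · exact mem_nb.2 ⟨huA, hsu⟩
        · have : u ∈ nb G s B := mem_nb.2 ⟨Finset.mem_sdiff.2 ⟨hu, huA⟩, hsu⟩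
          rw [he] at this
          simp at this
      · intro u hu
        exact (mem_nb.1 hu).2
      · intro u hu y hy huy
        rw [mem_nb] at hu
        exact hAl u hu.1 s (hBS (hCB hs)) hu.2.symm y hy huy
    have hstar : ∀ s ∈ C, ∀ w ∈ B, G.Adj s w → Star G S w s (nb G s A) := by
      intro s hs w hw hsw
      refine ⟨hBS (hCB hs), hBS hw, hsw, (nb_subset _ _).trans hAS, hL s hs, ?_, ?_, ?_, ?_⟩
      · intro h
        rw [mem_nb] at h
        exact (Finset.mem_sdiff.1 hw).2 h.1
      · intro u hu hsu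
        by_cases huA : u ∈ A
        · exact Or.inr (mem_nb.2 ⟨huA, hsu⟩)
        · left
          have h1 : u ∈ nb G s B := mem_nb.2 ⟨Finset.mem_sdiff.2 ⟨hu, huA⟩, hsu⟩
          have h2 : w ∈ nb G s B := mem_nb.2 ⟨hw, hsw⟩
          rw [hC, Finset.mem_filter] at hs
          exact Finset.card_le_one.1 hs.2 u h1 w h2
      · intro u hu
        exact (mem_nb.1 hu).2
      · intro u hu y hy huy
        rw [mem_nb] at hu
        exact hAl u hu.1 s (hBS (hCB hs)) hu.2.symm y hy huy
    by_cases hDe : B \ C = ∅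
    · obtain ⟨s, hsB, hs1⟩ := hG B hBne
      have hs : s ∈ C := Finset.mem_filter.2 ⟨hsB, hs1⟩
      by_cases he : nb G s B = ∅
      · exact Or.inl ⟨s, _, hstar0 s hs he⟩
      · obtain ⟨w, hw⟩ := Finset.nonempty_iff_ne_empty.2 he
        rw [mem_nb] at hw
        have hwC : w ∈ C := by
          by_contra hc
          have : w ∈ B \ C := Finset.mem_sdiff.2 ⟨hw.1, hc⟩
          rw [hDe] at this
          simp at this
        obtain ⟨l, hl⟩ := hL w hwC
        rw [mem_nb] at hl
        right; left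
        refine ⟨w, s, _, l, hstar s hs w hw.1 hw.2, hAS hl.1, ?_, hl.2, ?_⟩
        · rintro rfl
          exact (Finset.mem_sdiff.1 hsB).2 hl.1
        · intro y hy hly
          exact hAl l hl.1 w (hBS hw.1) hl.2.symm y hy hly
    · obtain ⟨w, hw, hw1⟩ := hG (B \ C) (Finset.nonempty_iff_ne_empty.2 hDe)
      rw [Finset.mem_sdiff] at hw
      have hw2 : 2 ≤ (nb G w B).card := by
        by_contra hc
        exact hw.2 (Finset.mem_filter.2 ⟨hw.1, by omega⟩)
      have h3 : nb G w B = nb G w C ∪ nb G w (B \ C) := by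
        ext u
        simp only [Finset.mem_union, mem_nb, Finset.mem_sdiff]
        constructor
        · rintro ⟨h1, h2⟩
          by_cases hu : u ∈ C
          · exact Or.inl ⟨hu, h2⟩
          · exact Or.inr ⟨⟨h1, hu⟩, h2⟩
        · rintro (⟨h1, h2⟩ | ⟨⟨h1, -⟩, h2⟩)
          · exact ⟨hCB h1, h2⟩
          · exact ⟨h1, h2⟩
      have h4 := Finset.card_union_le (nb G w C) (nb G w (B \ C))
      rw [← h3] at h4
      have hN : (nb G w C).Nonempty := by
        rw [← Finset.card_pos]; omega
      by_cases hlw : (nb G w A).Nonempty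
      · obtain ⟨l, hl⟩ := hlw
        obtain ⟨s, hs⟩ := hN
        rw [mem_nb] at hl hs
        right; left
        refine ⟨w, s, _, l, hstar s hs.1 w hw.1 hs.2.symm, hAS hl.1, ?_, hl.2, ?_⟩
        · rintro rfl
          exact (Finset.mem_sdiff.1 (hCB hs.1)).2 hl.1
        · intro y hy hly
          exact hAl l hl.1 w (hBS hw.1) hl.2.symm y hy hly
      · right; right
        refine ⟨w, nb G w C, hBS hw.1, ?_, hN, ?_, ?_⟩
        · intro u hu
          rw [mem_nb] at hu ⊢
          exact ⟨hBS (hCB hu.1), hu.2⟩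
        · refine le_trans (Finset.card_le_card ?_) hw1
          intro u hu
          rw [Finset.mem_sdiff, mem_nb, mem_nb, not_and] at hu
          rw [mem_nb, Finset.mem_sdiff]
          refine ⟨⟨?_, fun h => hu.2 h hu.1.2⟩, hu.1.2⟩
          by_contra hc
          apply hlw
          refine ⟨u, mem_nb.2 ⟨?_, hu.1.2⟩⟩
          by_contra hc2
          exact hc (Finset.mem_sdiff.2 ⟨hu.1.1, hc2⟩)
        · intro s hs
          rw [mem_nb] at hs
          exact ⟨_, hstar s hs.1 w hw.1 hs.2.symm⟩

lemma alpha_le_erase (v : V) (S : Finset V) : alpha G S ≤ alpha G (S.erase v) + 1 := by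
  by_cases hv : v ∈ S
  · rw [alpha_rec hv]
    apply max_le
    · omega
    · have := alpha_mono (G := G) (del_subset_erase G v S)
      omega
  · rw [Finset.erase_eq_of_notMem hv]; omega

/-- a vertex with a leaf is not forced -/
lemma alpha_leaf {S : Finset V} {w l : V} (hw : w ∈ S) (hl : l ∈ S) (hwl : G.Adj w l)
    (h : ∀ y ∈ S, G.Adj l y → y = w) : alpha G S = alpha G (S.erase w) := by
  have hne : l ≠ w := fun e => G.irrefl (e ▸ hwl)
  apply le_antisymm
  · rw [alpha_rec hl]
    have h1 : del G l S = (S.erase l).erase w := by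
      ext u
      rw [mem_del, Finset.mem_erase, Finset.mem_erase]
      constructor
      · rintro ⟨h1, h2, h3⟩
        exact ⟨fun e => h3 (e ▸ hwl.symm), h2, h1⟩
      · rintro ⟨h1, h2, h3⟩
        exact ⟨h3, h2, fun h4 => h1 (h u h3 h4)⟩
    have hl2 : l ∈ S.erase w := Finset.mem_erase.2 ⟨hne, hl⟩
    have h2 : del G l (S.erase w) = (S.erase l).erase w := by
      ext u
      rw [mem_del, Finset.mem_erase, Finset.mem_erase, Finset.mem_erase]
      constructor
      · rintro ⟨⟨h1, h2⟩, h3, h4⟩
        exact ⟨h1, h3, h2⟩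
      · rintro ⟨h1, h2, h3⟩
        exact ⟨⟨h1, h3⟩, h2, fun h4 => h1 (h u h3 h4)⟩
    have h3 := alpha_rec (G := G) hl2
    rw [h2] at h3
    have h4 := alpha_le_erase (G := G) w (S.erase l)
    rw [h1]
    have h5 := le_max_right (alpha G ((S.erase w).erase l)) (alpha G ((S.erase l).erase w) + 1)
    rw [← h3] at h5
    exact max_le (by omega) h5
  · exact alpha_mono (Finset.erase_subset _ _)

/-- at a forced vertex with at most one neighbour -/
lemma at_most_one {S : Finset V} {w : V} (hw : w ∈ S) (h1 : (nb G w S).card ≤ 1)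
    (hα : alpha G S = alpha G (S.erase w) + 1)
    (ih : ∀ T : Finset V, T ⊂ S → NN (EE (alpha G T) (P G T))) :
    ∃ v u : ℤ[X], P G (S.erase w) = v + X * u ∧ P G S = v + X * u + X * v ∧
      NN v ∧ NN u ∧ NN (v - u) ∧ NN (EE (alpha G (S.erase w)) v) := by
  have hrec := alpha_rec (G := G) hw
  have hdel : alpha G (del G w S) = alpha G (S.erase w) := by
    have := alpha_mono (G := G) (del_subset_erase G w S)
    rcases max_choice (alpha G (S.erase w)) (alpha G (del G w S) + 1) with h | h <;> omega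
  have hss : del G w S ⊂ S := by
    rw [Finset.ssubset_iff_of_subset (del_subset _ _ _)]
    exact ⟨w, hw, fun h => (mem_del.1 h).2.1 rfl⟩
  have hE := ih _ hss
  rw [hdel] at hE
  by_cases h0 : nb G w S = ∅
  · have e : del G w S = S.erase w := by
      ext u
      rw [mem_del, Finset.mem_erase]
      constructor
      · rintro ⟨h1, h2, -⟩; exact ⟨h2, h1⟩
      · rintro ⟨h2, h1⟩
        refine ⟨h1, h2, fun h => ?_⟩
        have : u ∈ nb G w S := mem_nb.2 ⟨h1, h⟩
        rw [h0] at this; simp at this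
    refine ⟨P G (S.erase w), 0, by ring, ?_, NN_P _ _, NN_zero, by simpa using NN_P _ _, ?_⟩
    · rw [P_rec hw, e]; ring
    · rw [← e]; rw [e] at hE ⊢; exact hE
  · obtain ⟨v, hv⟩ := Finset.nonempty_iff_ne_empty.2 h0
    have huniq : ∀ y ∈ S, G.Adj w y → y = v := fun y hy h =>
      Finset.card_le_one.1 h1 y (mem_nb.2 ⟨hy, h⟩) v hv
    rw [mem_nb] at hv
    have hne : v ≠ w := fun e => G.irrefl (e ▸ hv.2)
    have e : del G w S = (S.erase w).erase v := by
      ext u
      rw [mem_del, Finset.mem_erase, Finset.mem_erase]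
      constructor
      · rintro ⟨h1, h2, h3⟩
        exact ⟨fun e => h3 (e ▸ hv.2), h2, h1⟩
      · rintro ⟨h1, h2, h3⟩
        exact ⟨h3, h2, fun h => h1 (huniq u h3 h)⟩
    have hv2 : v ∈ S.erase w := Finset.mem_erase.2 ⟨hne, hv.1⟩
    refine ⟨P G (del G w S), P G (del G v (S.erase w)), ?_, ?_, NN_P _ _, NN_P _ _, ?_, hE⟩
    · rw [P_rec hv2, e]
    · rw [P_rec hw, P_rec hv2, e]
    · rw [e]; exact NN_P_sub (del_subset_erase _ _ _)

end Pool.Agent.Lib.MP_24a1b5_co.In

namespace Pool.Agent.Lib.MP_24a1b5_co.In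

variable {V : Type*} {G : SimpleGraph V}

/-- the case of a vertex `w` all of whose neighbours except at most one are centres of stars -/
lemma main_end {S : Finset V} (ih : ∀ T : Finset V, T ⊂ S → NN (EE (alpha G T) (P G T)))
    {w : V} {N : Finset V} (hN : N ⊆ nb G w S) (hNe : N.Nonempty)
    (hN1 : (nb G w S \ N).card ≤ 1) (hst : ∀ s ∈ N, ∃ L, Star G S w s L)
    (hforced : ∀ s L, Star G S w s L → alpha G (rem S s L) = alpha G ((rem S s L).erase w) + 1) :
    NN (EE (alpha G S) (P G S)) := by
  have hsub : ∀ {s L}, Star G S w s L → rem S s L ⊂ S := by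
    intro s L h
    rw [Finset.ssubset_iff_of_subset (rem_subset _ _ _)]
    exact ⟨s, h.hs, fun hs => (mem_rem.1 hs).2.1 rfl⟩
  have hsub2 : ∀ {s L}, Star G S w s L → (rem S s L).erase w ⊂ S := fun h =>
    lt_of_le_of_lt (Finset.erase_subset _ _) (hsub h)
  -- big stars
  by_cases hbig : ∃ s L, Star G S w s L ∧ 6 ≤ L.card
  · obtain ⟨s, L, h, h6⟩ := hbig
    rw [h.P_eq, h.alpha_eq, hforced s L h]
    refine close_big h6 (NN_P _ _) (NN_P_sub (Finset.erase_subset _ _)) ?_ (ih _ (hsub2 h))
    rw [← hforced s L h]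
    exact ih _ (hsub h)
  have hsmall : ∀ s L, Star G S w s L → L.card ≤ 5 := by
    intro s L h
    by_contra hc
    exact hbig ⟨s, L, h, by omega⟩
  -- a pair of stars
  have hpair : ∀ s L s' L', Star G S w s L → Star G S w s' L' → s ≠ s' →
      ¬ (L.card = 1 ∧ L'.card = 1) → NN (EE (alpha G S) (P G S)) := by
    intro s L s' L' h h' hne hnot
    have h2 := h.persist h' hne
    have hT := rem_subset (rem S s L) s' L'
    have hf := hforced s L h
    have hα : alpha G (rem (rem S s L) s' L')
        = alpha G ((rem (rem S s L) s' L').erase w) + 1 := by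
      have e1 := h2.alpha_eq
      have e2 := h2.alpha_erase
      omega
    have hsubT : rem (rem S s L) s' L' ⊂ S := lt_of_le_of_lt hT (hsub h)
    have hsubU : (rem (rem S s L) s' L').erase w ⊂ S :=
      lt_of_le_of_lt (Finset.erase_subset _ _) hsubT
    have e1 := h2.P_erase
    have e2 := h2.alpha_erase
    have i1 := ih _ (hsub2 h)
    rw [e1, e2] at i1
    have i2 := ih _ hsubT
    rw [hα] at i2
    have key := close_pair h2.hne.card_pos h.hne.card_pos (hsmall _ _ h') (hsmall _ _ h)
      (fun hc => hnot ⟨hc.2, hc.1⟩) (NN_P _ _) (NN_P_sub (Finset.erase_subset w _))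
      i2 (ih _ hsubU) i1
    rw [h.P_eq, h.alpha_eq, h2.P_eq, h2.alpha_eq, hα, e1]
    exact key
  obtain ⟨s, hs⟩ := hNe
  obtain ⟨L, hL⟩ := hst s hs
  by_cases hN2 : ∃ s' ∈ N, s' ≠ s
  · obtain ⟨s', hs', hne⟩ := hN2
    obtain ⟨L', hL'⟩ := hst s' hs'
    by_cases h11 : L.card = 1 ∧ L'.card = 1
    swap
    · exact hpair s L s' L' hL hL' hne.symm h11
    have h2 := hL.persist hL' hne.symm
    have hf := hforced s L hL
    have hα : alpha G (rem (rem S s L) s' L')
        = alpha G ((rem (rem S s L) s' L').erase w) + 1 := by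
      have e1 := h2.alpha_eq
      have e2 := h2.alpha_erase
      omega
    have hsubT : rem (rem S s L) s' L' ⊂ S :=
      lt_of_le_of_lt (rem_subset (rem S s L) s' L') (hsub hL)
    by_cases hN3 : ∃ s'' ∈ N, s'' ≠ s ∧ s'' ≠ s'
    · -- three stars
      obtain ⟨s'', hs'', hne1, hne2⟩ := hN3
      obtain ⟨L'', hL''⟩ := hst s'' hs''
      by_cases h1 : L''.card = 1
      swap
      · exact hpair s L s'' L'' hL hL'' hne1.symm (fun hc => h1 hc.2)
      have h3 := h2.persist (hL.persist hL'' hne1.symm) hne2.symm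
      have a1 := hL.alpha_eq
      have a2 := h2.alpha_eq
      have a3 := h3.alpha_eq
      have a4 := h3.alpha_erase
      have hwT := h3.w_mem
      have p3 := h3.P_eq
      have p4 := h3.P_erase
      have hsubT3 := rem_subset (rem (rem S s L) s' L') s'' L''
      rw [h11.1] at a1
      rw [h11.2] at a2
      rw [h1] at a3 a4 p3 p4
      generalize rem (rem (rem S s L) s' L') s'' L'' = T at *
      have hαT : alpha G T = alpha G (T.erase w) + 1 := by omega
      have hdel : alpha G (del G w T) = alpha G (T.erase w) := by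
        have hrec := alpha_rec (G := G) hwT
        have := alpha_mono (G := G) (del_subset_erase G w T)
        rcases max_choice (alpha G (T.erase w)) (alpha G (del G w T) + 1) with h | h <;> omega
      have hsubT4 : T ⊂ S := lt_of_le_of_lt hsubT3 hsubT
      have i1 := ih (T.erase w) (lt_of_le_of_lt (Finset.erase_subset _ _) hsubT4)
      have i2 := ih (del G w T) (lt_of_le_of_lt (del_subset _ _ _) hsubT4)
      rw [hdel] at i2
      have key := close_triple (NN_P G (T.erase w)) (NN_P G (del G w T)) i1 i2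
      have eα : alpha G S = alpha G (T.erase w) + 4 := by omega
      have eP : P G S = (1 + 2 * X) ^ 3 * P G (T.erase w) + X * (1 + X) ^ 3 * P G (del G w T) := by
        rw [hL.P_eq, h2.P_eq, h2.P_erase, p3, p4, h11.1, h11.2, P_rec (G := G) hwT]
        ring
      rw [eα, eP]
      exact key
    · -- exactly two stars
      have hnb : (nb G w (rem (rem S s L) s' L')).card ≤ 1 := by
        refine le_trans (Finset.card_le_card ?_) hN1
        intro u hu
        rw [mem_nb] at hu
        have huS : u ∈ S := rem_subset _ _ _ (rem_subset _ _ _ hu.1)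
        rw [Finset.mem_sdiff, mem_nb]
        refine ⟨⟨huS, hu.2⟩, fun huN => hN3 ⟨u, huN, ?_, ?_⟩⟩
        · rintro rfl
          exact (mem_rem.1 (rem_subset _ _ _ hu.1)).2.1 rfl
        · rintro rfl
          exact (mem_rem.1 hu.1).2.1 rfl
      have a1 := hL.alpha_eq
      have a2 := h2.alpha_eq
      have hwT := h2.w_mem
      have p2 := h2.P_eq
      have p3 := h2.P_erase
      rw [h11.1] at a1
      rw [h11.2] at a2 p2 p3
      generalize rem (rem S s L) s' L' = T at *
      obtain ⟨v, u, e1, e2, n1, n2, n3, n4⟩ := at_most_one hwT hnb hα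
        (fun T' hT' => ih T' (lt_trans hT' hsubT))
      have i1 := ih (T.erase w) (lt_of_le_of_lt (Finset.erase_subset _ _) hsubT)
      rw [e1] at i1
      have key := close_two n1 n2 n3 i1 n4
      have eα : alpha G S = alpha G (T.erase w) + 3 := by omega
      have eP : P G S = (1 + 2 * X) ^ 2 * (v + X * u) + X * (1 + X) ^ 2 * v := by
        rw [hL.P_eq, p2, p3, h11.1, e1, e2]
        ring
      rw [eα, eP]
      exact key
  · -- one star
    set T := rem S s L with hTdef
    have hwT : w ∈ T := hL.w_mem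
    have hα := hforced s L hL
    have hnb : (nb G w T).card ≤ 1 := by
      refine le_trans (Finset.card_le_card ?_) hN1
      intro u hu
      rw [mem_nb] at hu
      have huS : u ∈ S := rem_subset _ _ _ hu.1
      rw [Finset.mem_sdiff, mem_nb]
      refine ⟨⟨huS, hu.2⟩, fun huN => hN2 ⟨u, huN, ?_⟩⟩
      rintro rfl
      exact (mem_rem.1 hu.1).2.1 rfl
    obtain ⟨v, u, e1, e2, n1, n2, n3, n4⟩ := at_most_one hwT hnb hα
      (fun T' hT' => ih T' (lt_trans hT' (hsub hL)))
    have i0 := ih T (hsub hL)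
    have i1 := ih (T.erase w) (hsub2 hL)
    rw [e1] at i1
    rw [hα, e2] at i0
    have key := close_one hL.hne.card_pos (hsmall _ _ hL) n2 n3 i0 i1 n4
    rw [hL.P_eq, hL.alpha_eq, e1, ← hTdef, hα, e2]
    exact key

/-- the main inequality -/
theorem main_ineq (hG : Degen G) : ∀ S : Finset V, NN (EE (alpha G S) (P G S)) := by
  intro S
  induction S using Finset.strongInduction with
  | H S ih =>
    rcases S.eq_empty_or_nonempty with rfl | hne
    · rw [P_empty]
      have : alpha G (∅ : Finset V) = 0 := by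
        rw [alpha_indep (ind_empty G), Finset.card_empty]
      rw [this]
      simpa [EE] using NN_zero
    rcases ends hG S hne with ⟨v, hv, h0⟩ | ⟨s, L, h⟩ | ⟨w, s, L, l, h, hl, hls, hwl, hleaf⟩ |
      ⟨w, N, hw, hN, hNe, hN1, hst⟩
    · -- isolated vertex
      have e : del G v S = S.erase v := by
        ext u
        rw [mem_del, Finset.mem_erase]
        constructor
        · rintro ⟨h1, h2, -⟩; exact ⟨h2, h1⟩
        · rintro ⟨h2, h1⟩
          refine ⟨h1, h2, fun h => ?_⟩
          have : u ∈ nb G v S := mem_nb.2 ⟨h1, h⟩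
          rw [h0] at this; simp at this
      have h1 := close_iso (NN_P G (S.erase v)) (ih _ (Finset.erase_ssubset hv))
      have eP : P G S = (1 + X) * P G (S.erase v) := by
        rw [P_rec hv, e]; ring
      have eα : alpha G S = alpha G (S.erase v) + 1 := by
        rw [alpha_rec hv, e]; omega
      rw [eP, eα]
      exact h1
    · -- a star component
      have hss : rem S s L ⊂ S := by
        rw [Finset.ssubset_iff_of_subset (rem_subset _ _ _)]
        exact ⟨s, h.hs, fun hs => (mem_rem.1 hs).2.1 rfl⟩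
      rw [h.P_eq, h.alpha_eq]
      exact close_star0 h.hne.card_pos (NN_P _ _) (by simpa using NN_zero) (ih _ hss) (ih _ hss)
    · -- a star at a vertex with a leaf
      have hss : rem S s L ⊂ S := by
        rw [Finset.ssubset_iff_of_subset (rem_subset _ _ _)]
        exact ⟨s, h.hs, fun hs => (mem_rem.1 hs).2.1 rfl⟩
      have hss2 : (rem S s L).erase w ⊂ S := lt_of_le_of_lt (Finset.erase_subset _ _) hss
      have hlT : l ∈ rem S s L := by
        refine mem_rem.2 ⟨hl, hls, fun hlL => ?_⟩
        exact h.ne (h.hleaf l hlL w h.hw hwl.symm)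
      have hα : alpha G (rem S s L) = alpha G ((rem S s L).erase w) :=
        alpha_leaf h.w_mem hlT hwl (fun y hy => hleaf y (rem_subset _ _ _ hy))
      rw [h.P_eq, h.alpha_eq]
      refine close_star0 h.hne.card_pos (NN_P _ _) (NN_P_sub (Finset.erase_subset _ _))
        (ih _ hss) ?_
      rw [hα]
      exact ih _ hss2
    · -- the general end
      by_cases hf : ∃ s L, Star G S w s L ∧ alpha G (rem S s L) = alpha G ((rem S s L).erase w)
      · obtain ⟨s, L, h, hα⟩ := hf
        have hss : rem S s L ⊂ S := by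
          rw [Finset.ssubset_iff_of_subset (rem_subset _ _ _)]
          exact ⟨s, h.hs, fun hs => (mem_rem.1 hs).2.1 rfl⟩
        rw [h.P_eq, h.alpha_eq]
        refine close_star0 h.hne.card_pos (NN_P _ _) (NN_P_sub (Finset.erase_subset _ _))
          (ih _ hss) ?_
        rw [hα]
        exact ih _ (lt_of_le_of_lt (Finset.erase_subset _ _) hss)
      · refine main_end ih hN hNe hN1 hst ?_
        intro s L h
        have h1 := alpha_le_erase (G := G) w (rem S s L)
        have h2 := alpha_mono (G := G) (Finset.erase_subset w (rem S s L))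
        have h3 : alpha G (rem S s L) ≠ alpha G ((rem S s L).erase w) := fun hc => hf ⟨s, L, h, hc⟩
        omega

/-- the inequality with the number of vertices -/
theorem second_ineq (hG : Degen G) : ∀ S : Finset V,
    NN ((1 + 3 * X) * derivative (P G S) - (S.card : ℤ[X]) * P G S) := by
  intro S
  induction S using Finset.strongInduction with
  | H S ih =>
    rcases S.eq_empty_or_nonempty with rfl | hne
    · rw [P_empty]
      simpa using NN_zero
    obtain ⟨v, hv, h1⟩ := hG S hne
    have hcard : S.card = (S.erase v).card + 1 := by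
      rw [Finset.card_erase_of_mem hv]
      have := Finset.card_pos.2 ⟨v, hv⟩
      omega
    by_cases h0 : nb G v S = ∅
    · have e : del G v S = S.erase v := by
        ext u
        rw [mem_del, Finset.mem_erase]
        constructor
        · rintro ⟨h1, h2, -⟩; exact ⟨h2, h1⟩
        · rintro ⟨h2, h1⟩
          refine ⟨h1, h2, fun h => ?_⟩
          have : u ∈ nb G v S := mem_nb.2 ⟨h1, h⟩
          rw [h0] at this; simp at this
      have h2 := ih _ (Finset.erase_ssubset hv)
      have e2 : (1 + 3 * X) * derivative (P G S) - (S.card : ℤ[X]) * P G S =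
          (1 + X) * ((1 + 3 * X) * derivative (P G (S.erase v)) -
            ((S.erase v).card : ℤ[X]) * P G (S.erase v)) + 2 * X * P G (S.erase v) := by
        rw [hcard, P_rec hv, e]
        simp only [derivative_mul, derivative_add, derivative_X]
        push_cast
        ring
      rw [e2]
      exact NN_add (NN_mul (NN_add NN_one NN_X) h2)
        (NN_mul (NN_mul (NN_ofNat 2) NN_X) (NN_P _ _))
    · obtain ⟨w, hw⟩ := Finset.nonempty_iff_ne_empty.2 h0
      have huniq : ∀ y ∈ S, G.Adj v y → y = w := fun y hy h =>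
        Finset.card_le_one.1 h1 y (mem_nb.2 ⟨hy, h⟩) w hw
      rw [mem_nb] at hw
      have hne : w ≠ v := fun e => G.irrefl (e ▸ hw.2)
      have e : del G v S = (S.erase v).erase w := by
        ext u
        rw [mem_del, Finset.mem_erase, Finset.mem_erase]
        constructor
        · rintro ⟨h1, h2, h3⟩
          exact ⟨fun e => h3 (e ▸ hw.2), h2, h1⟩
        · rintro ⟨h1, h2, h3⟩
          exact ⟨h3, h2, fun h => h1 (huniq u h3 h)⟩
      have hw2 : w ∈ S.erase v := Finset.mem_erase.2 ⟨hne, hw.1⟩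
      have hcard2 : (S.erase v).card = ((S.erase v).erase w).card + 1 := by
        rw [Finset.card_erase_of_mem hw2]
        have := Finset.card_pos.2 ⟨w, hw2⟩
        omega
      have i1 := ih _ (Finset.erase_ssubset hv)
      have i2 := ih ((S.erase v).erase w)
        (lt_of_le_of_lt (Finset.erase_subset _ _) (Finset.erase_ssubset hv))
      have hd := NN_P_sub (G := G) (del_subset_erase G w (S.erase v))
      have e2 : (1 + 3 * X) * derivative (P G S) - (S.card : ℤ[X]) * P G S =
          ((1 + 3 * X) * derivative (P G (S.erase v)) -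
            ((S.erase v).card : ℤ[X]) * P G (S.erase v)) +
          X * ((1 + 3 * X) * derivative (P G ((S.erase v).erase w)) -
            (((S.erase v).erase w).card : ℤ[X]) * P G ((S.erase v).erase w)) +
          X * (P G ((S.erase v).erase w) - P G (del G w (S.erase v))) := by
        rw [P_rec hv, e]
        simp only [derivative_mul, derivative_add, derivative_X]
        rw [hcard, hcard2]
        push_cast
        have := P_rec (G := G) hw2
        linear_combination -this
      rw [e2]
      exact NN_add (NN_add i1 (NN_mul NN_X i2)) (NN_mul NN_X hd)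

lemma coeff_X_derivative (p : ℤ[X]) (k : ℕ) :
    (X * derivative p).coeff k = k * p.coeff k := by
  cases k with
  | zero => simp
  | succ k => rw [coeff_X_mul, coeff_derivative]; push_cast; ring

theorem cnt_ineq (hG : Degen G) (S : Finset V) (k : ℕ) :
    18 * (alpha G S : ℤ) * cnt G S k - 25 * k * cnt G S k ≤ 20 * (k + 1) * cnt G S (k + 1) := by
  have h := main_ineq hG S k
  have e : EE (alpha G S) (P G S) = C 20 * derivative (P G S) + C 25 * (X * derivative (P G S)) -
      C (18 * (alpha G S : ℤ)) * P G S := by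
    rw [EE]
    simp only [map_mul, map_natCast]
    simp only [show (C (20 : ℤ) : ℤ[X]) = 20 from rfl, show (C (25 : ℤ) : ℤ[X]) = 25 from rfl,
      show (C (18 : ℤ) : ℤ[X]) = 18 from rfl]
    ring
  rw [e, coeff_sub, coeff_add, coeff_C_mul, coeff_C_mul, coeff_C_mul, coeff_derivative,
    coeff_X_derivative, coeff_P, coeff_P] at h
  linarith

theorem cnt_ineq2 (hG : Degen G) (S : Finset V) (k : ℕ) :
    (S.card : ℤ) * cnt G S k - 3 * k * cnt G S k ≤ (k + 1) * cnt G S (k + 1) := by
  have h := second_ineq hG S k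
  have e : (1 + 3 * X) * derivative (P G S) - (S.card : ℤ[X]) * P G S =
      derivative (P G S) + C 3 * (X * derivative (P G S)) - C (S.card : ℤ) * P G S := by
    simp only [map_natCast]
    simp only [show (C (3 : ℤ) : ℤ[X]) = 3 from rfl]
    ring
  rw [e, coeff_sub, coeff_add, coeff_C_mul, coeff_C_mul, coeff_derivative,
    coeff_X_derivative, coeff_P, coeff_P] at h
  linarith

end Pool.Agent.Lib.MP_24a1b5_co.In

namespace Pool.Agent.Lib.MP_24a1b5_co.In

variable {V : Type*}

lemma indepSeq_eq_cnt [Fintype V] (G : SimpleGraph V) (k : ℕ) :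
    indepSeq G k = cnt G Finset.univ k := by
  rw [indepSeq, cnt_eq]
  apply Nat.subtype_card
  intro s
  rw [mem_Ik]
  constructor
  · rintro ⟨-, h1, h2⟩
    exact ⟨h2, fun a ha b hb _ => h1 a ha b hb⟩
  · rintro ⟨h1, h2⟩
    refine ⟨Finset.subset_univ _, fun a ha b hb hab => ?_, h1⟩
    exact h2 ha hb (G.ne_of_adj hab) hab

lemma alpha_univ [Fintype V] (G : SimpleGraph V) : alpha G Finset.univ = G.indepNum := by
  apply le_antisymm
  · obtain ⟨I, -, h2, h3⟩ := exists_alpha G Finset.univ
    rw [← h3]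
    exact SimpleGraph.IsIndepSet.card_le_indepNum
      (fun a ha b hb _ => h2 a ha b hb)
  · obtain ⟨I, hI⟩ := G.exists_isNIndepSet_indepNum
    rw [← hI.card_eq]
    refine card_le_alpha (Finset.subset_univ _) (fun a ha b hb hab => ?_)
    exact hI.isIndepSet ha hb (G.ne_of_adj hab) hab

theorem main' [Fintype V] (G : SimpleGraph V) (hG : G.IsAcyclic) (k : ℕ) :
    (18 * (G.indepNum : ℤ) - 25 * k) * indepSeq G k ≤ 20 * (k + 1) * indepSeq G (k + 1) ∧
    ((Fintype.card V : ℤ) - 3 * k) * indepSeq G k ≤ (k + 1) * indepSeq G (k + 1) ∧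
    (45 * k + 20 ≤ 18 * G.indepNum ∨ 4 * k + 1 ≤ Fintype.card V →
      indepSeq G k ≤ indepSeq G (k + 1)) := by
  have h1 := cnt_ineq (degen_of_acyclic hG) Finset.univ k
  have h2 := cnt_ineq2 (degen_of_acyclic hG) Finset.univ k
  rw [alpha_univ, ← indepSeq_eq_cnt, ← indepSeq_eq_cnt] at h1
  rw [Finset.card_univ, ← indepSeq_eq_cnt, ← indepSeq_eq_cnt] at h2
  refine ⟨by linarith, by linarith, ?_⟩
  intro h
  by_contra hc
  have hc1 : (indepSeq G (k + 1) : ℤ) + 1 ≤ indepSeq G k := by
    have := not_le.1 hc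
    exact_mod_cast this
  have hk : (0 : ℤ) ≤ k := Int.natCast_nonneg _
  have hp : (0 : ℤ) ≤ indepSeq G (k + 1) := Int.natCast_nonneg _
  rcases h with h | h
  · have h3 : 45 * (k : ℤ) + 20 ≤ 18 * G.indepNum := by exact_mod_cast h
    have h4 : (20 * ((k : ℤ) + 1)) * indepSeq G k ≤ (18 * (G.indepNum : ℤ) - 25 * k) * indepSeq G k :=
      mul_le_mul_of_nonneg_right (by linarith) (Int.natCast_nonneg _)
    nlinarith
  · have h3 : 4 * (k : ℤ) + 1 ≤ Fintype.card V := by exact_mod_cast h
    have h4 : ((k : ℤ) + 1) * indepSeq G k ≤ ((Fintype.card V : ℤ) - 3 * k) * indepSeq G k :=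
      mul_le_mul_of_nonneg_right (by linarith) (Int.natCast_nonneg _)
    nlinarith

end Pool.Agent.Lib.MP_24a1b5_co.In
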