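import Pool.Agent.Lib.MP_24a1b5_co.Final
import Pool.Prelude.Def_F_f5f3026a

set_option autoImplicit false
open scoped Classical
open N36365310

namespace Pool.Agent.Lib.MP_24a1b5_co

variable {V : Type*}

lemma indepSeq_eq [Fintype V] (G : SimpleGraph V) (k : ℕ) :
    indepSeq G k = cnt G Finset.univ k := by
  rw [indepSeq, cnt_eq]
  apply Nat.subtype_card
  intro s
  rw [mem_Ik]
  constructor
  · rintro ⟨-, h1, h2⟩
    exact ⟨h2, fun a ha b hb _ => h1 a ha b hb⟩
  · rintro ⟨h1, h2⟩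
    refine ⟨Finset.subset_univ _, fun a ha b hb hab => ?_, h1⟩
    exact h2 ha hb (G.ne_of_adj hab) hab

theorem large_forest_unimodal [Fintype V] (G : SimpleGraph V) (hG : G.IsAcyclic)
    (hV : Real.exp (10 ^ 8) ≤ (Fintype.card V : ℝ)) : UnimodalSeq (indepSeq G) := by
  have h := unimodal_cnt hG (Finset.univ : Finset V) (by
    rw [Finset.card_univ]
    norm_num at hV ⊢
    exact hV)
  obtain ⟨m, h1, h2⟩ := h
  refine ⟨m, fun i hi => ?_, fun i hi => ?_⟩
  · rw [indepSeq_eq, indepSeq_eq]; exact h1 i hi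
  · rw [indepSeq_eq, indepSeq_eq]; exact h2 i hi

end Pool.Agent.Lib.MP_24a1b5_co
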