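import Pool.Agent.Lib.MP_24a1b5_co.InQ

/-!
Log-concavity of the independence sequences of well-covered forests.

A: the size of a random independent set of a forest (weights `t ^ card`, `0 < t ≤ 1`) has variance
at most its mean. B: such a bound gives log-concavity of the corona sequence. C: the independence
sequence of a corona. D: a well-covered forest is a corona of a forest plus isolated vertices.
-/

set_option autoImplicit false
open N36365310

namespace Pool.Agent.Lib.MP_24a1b5_co.Wc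

/-! ## A: variance at most mean -/

section A
open Finset Polynomial
open scoped Classical

lemma cub1 {s : ℝ} (hs : 0 ≤ s) : s ≤ 0.4 * (1 + s + s ^ 2 / 2 + s ^ 3 / 6) := by
  nlinarith [sq_nonneg (s - 1.4), mul_nonneg hs (sq_nonneg (s - 1.4)), pow_nonneg hs 3,
    sq_nonneg (s - 1)]

lemma cub2 {s : ℝ} (hs : 0 ≤ s) : 4 * (s - 1) ≤ 0.85 * 2 * (1 + s + s ^ 2 / 2 + s ^ 3 / 6) := by
  nlinarith [sq_nonneg (s - 1.5), pow_nonneg hs 3]

lemma cub3 {s : ℝ} (hs : 0 ≤ s) :
    0 ≤ 0.85 * (1 + s + s ^ 2 / 2 + s ^ 3 / 6) ^ 2 - 4 * (s - 1) * (1 + s + s ^ 2 / 2 + s ^ 3 / 6)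
      - 4 * s + 1.6 := by
  have h3 := pow_nonneg hs 3
  nlinarith [sq_nonneg (s ^ 2 * (s - 1.8)), mul_nonneg hs (sq_nonneg (s * (s - 1.8))),
    sq_nonneg (s * (s - 1.8)), mul_nonneg hs (sq_nonneg (s - 1.8)), sq_nonneg (s - 1.8),
    sq_nonneg (s ^ 3 - 5.8), mul_nonneg hs (sq_nonneg (s ^ 2 - 3.24)), sq_nonneg (s ^ 2 - 3.24)]

lemma brk {s Q : ℝ} (hs : 0 ≤ s) (hQ0 : 0 < Q) (hQ : Q * (1 + s + s ^ 2 / 2 + s ^ 3 / 6) ≤ 1) :
    Q * (2 + Q) * (2 * (s - 1) + Q * s) ≤ 0.85 := by
  set E := 1 + s + s ^ 2 / 2 + s ^ 3 / 6 with hE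
  have hE1 : 1 ≤ E := by rw [hE]; nlinarith [pow_nonneg hs 3, sq_nonneg s]
  have h1 : s ≤ 0.4 * E := cub1 hs
  have h2 : 4 * (s - 1) ≤ 0.85 * 2 * E := cub2 hs
  have h3 : 0 ≤ 0.85 * E ^ 2 - 4 * (s - 1) * E - 4 * s + 1.6 := cub3 hs
  clear_value E
  obtain ⟨y, hy⟩ : ∃ y : ℝ, Q * y = 1 := ⟨Q⁻¹, mul_inv_cancel₀ hQ0.ne'⟩
  have hyE : E ≤ y := by
    by_contra h
    push Not at h
    nlinarith
  have hy1 : 1 ≤ y := hE1.trans hyE
  have k1 : 0 ≤ 0.85 * y ^ 2 - 4 * (s - 1) * y - 4 * s + 1.6 := by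
    have : 0.85 * y ^ 2 - 4 * (s - 1) * y - 4 * s + 1.6 =
        (0.85 * E ^ 2 - 4 * (s - 1) * E - 4 * s + 1.6) + (y - E) * (0.85 * 2 * E - 4 * (s - 1))
          + 0.85 * (y - E) ^ 2 := by ring
    rw [this]
    have := mul_nonneg (sub_nonneg.2 hyE) (sub_nonneg.2 h2)
    nlinarith [sq_nonneg (y - E)]
  have k2 : (2 * y + 1) * (2 * (s - 1) * y + s) ≤ 0.85 * y ^ 3 := by
    have := mul_nonneg (by linarith : (0:ℝ) ≤ y) k1
    nlinarith
  have k3 : Q * (2 + Q) * (2 * (s - 1) + Q * s)
      = Q ^ 3 * ((2 * y + 1) * (2 * (s - 1) * y + s)) := by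
    have e1 : Q * (2 + Q) * (2 * (s - 1) + Q * s)
      = Q * (2 * (Q * y) + Q) * (2 * (s - 1) * (Q * y) + Q * s) := by rw [hy]; ring
    rw [e1]; ring
  rw [k3]
  have hQ3 : 0 < Q ^ 3 := pow_pos hQ0 3
  have k4 : Q ^ 3 * (0.85 * y ^ 3) = 0.85 := by
    have : Q ^ 3 * (0.85 * y ^ 3) = 0.85 * (Q * y) ^ 3 := by ring
    rw [this, hy]; norm_num
  rw [← k4]
  exact mul_le_mul_of_nonneg_left k2 hQ3.le

lemma quart {r : ℝ} (h0 : 0 ≤ r) (h1 : r ≤ 0.52) : 0.85 ≤ 1 + r - (1 + r) ^ 4 / 8 := by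
  nlinarith [mul_nonneg h0 (sub_nonneg.2 h1), mul_nonneg (mul_nonneg h0 h0) (sub_nonneg.2 h1),
    mul_nonneg (mul_nonneg (mul_nonneg h0 h0) h0) (sub_nonneg.2 h1)]

lemma disc {s Q t : ℝ} (hs : 0 ≤ s) (hQ0 : 0 < Q) (hQ : Q * (1 + s + s ^ 2 / 2 + s ^ 3 / 6) ≤ 1)
    (ht : 0 < t) (ht1 : t ≤ 1) :
    (2 * (1 + t) - t * (1 + t * Q) ^ 2) ^ 2 ≤
      4 * (1 + t) * (1 + t * Q + t) * (1 + t * Q - s * (t * Q) * (2 + t * Q)) := by
  have hQ1 : Q ≤ 1 := by
    have h3 : 0 ≤ s + s ^ 2 / 2 + s ^ 3 / 6 := by positivity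
    nlinarith [mul_nonneg hQ0.le h3]
  have hb := brk hs hQ0 hQ
  have hr0 : 0 ≤ t * Q := by positivity
  have hrt : t * Q ≤ t := by nlinarith
  have hrQ : t * Q ≤ Q := by nlinarith
  have e : 4 * (1 + t) * (1 + t * Q + t) * (1 + t * Q - s * (t * Q) * (2 + t * Q))
      - (2 * (1 + t) - t * (1 + t * Q) ^ 2) ^ 2
      = t * (4 * (1 + t) * ((1 + t * Q) - Q * (2 + t * Q) * ((1 + t * Q + t) * s - (1 + t)))
        - t * (1 + t * Q) ^ 4) := by ring
  suffices h : 0 ≤ 4 * (1 + t) * ((1 + t * Q) - Q * (2 + t * Q) * ((1 + t * Q + t) * s - (1 + t)))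
        - t * (1 + t * Q) ^ 4 by
    have := mul_nonneg ht.le h
    linarith
  set r := t * Q with hr
  rcases le_or_gt ((1 + r + t) * s) (1 + t) with hc | hc
  · have h1 : 0 ≤ Q * (2 + r) * ((1 + t) - (1 + r + t) * s) :=
      mul_nonneg (mul_nonneg hQ0.le (by linarith)) (by linarith)
    have h2 : t * (1 + r) ^ 4 ≤ 4 * (1 + t) * (1 + r) := by
      have h3 : (1 + r) ^ 3 ≤ (1 + t) ^ 3 := pow_le_pow_left₀ (by linarith) (by linarith) 3
      have h4 : t * (1 + r) ^ 3 ≤ 4 * (1 + t) := by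
        have h5 : t * (1 + t) ^ 3 ≤ 4 * (1 + t) := by
          have h6 : t * (1 + t) ^ 2 ≤ 4 := by nlinarith [mul_nonneg ht.le ht.le]
          nlinarith
        exact (mul_le_mul_of_nonneg_left h3 ht.le).trans h5
      have := mul_le_mul_of_nonneg_right h4 (by linarith : (0:ℝ) ≤ 1 + r)
      nlinarith
    have h3 : 0 ≤ 4 * (1 + t) * (Q * (2 + r) * ((1 + t) - (1 + r + t) * s)) :=
      mul_nonneg (by linarith) h1
    nlinarith
  · have hs23 : 2 / 3 ≤ s := by
      by_contra h
      push Not at h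
      nlinarith
    have hQ52 : Q ≤ 0.52 := by
      by_contra h
      push Not at h
      have h5 : (1.93 : ℝ) ≤ 1 + s + s ^ 2 / 2 + s ^ 3 / 6 := by
        have h6 : (2 / 3 : ℝ) ^ 2 ≤ s ^ 2 := pow_le_pow_left₀ (by norm_num) hs23 2
        have h7 : (2 / 3 : ℝ) ^ 3 ≤ s ^ 3 := pow_le_pow_left₀ (by norm_num) hs23 3
        nlinarith
      nlinarith
    have hq := quart hr0 (hrQ.trans hQ52)
    have hD : (1 + r + t) * s - (1 + t) ≤ 2 * (s - 1) + Q * s := by
      have hd : 0 ≤ (s - 1) + Q * s := by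
        rcases le_or_gt 1 s with h1 | h1
        · nlinarith [mul_nonneg hQ0.le hs]
        · have : t * (1 - s) ≤ t * (Q * s) := by
            have : (1 + t) * (1 - s) < t * (Q * s) := by rw [hr] at hc; nlinarith
            nlinarith
          have := le_of_mul_le_mul_left this ht
          linarith
      have : 2 * (s - 1) + Q * s - ((1 + r + t) * s - (1 + t)) = (1 - t) * ((s - 1) + Q * s) := by
        rw [hr]; ring
      have := mul_nonneg (sub_nonneg.2 ht1) hd
      linarith
    have hpos : 0 < (1 + r + t) * s - (1 + t) := by linarith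
    have h1 : Q * (2 + r) * ((1 + r + t) * s - (1 + t)) ≤ 0.85 := by
      refine le_trans ?_ hb
      refine mul_le_mul ?_ hD hpos.le (by positivity)
      exact mul_le_mul_of_nonneg_left (by linarith) hQ0.le
    have h2 : t * (1 + r) ^ 4 ≤ 4 * (1 + t) * ((1 + r) ^ 4 / 8) := by
      have : 0 ≤ (1 + r) ^ 4 := by positivity
      nlinarith [mul_nonneg (sub_nonneg.2 ht1) this]
    have h3 : 0 ≤ 4 * (1 + t) * ((1 + r) - Q * (2 + r) * ((1 + r + t) * s - (1 + t))
        - (1 + r) ^ 4 / 8) := mul_nonneg (by linarith) (by linarith)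
    nlinarith

/-- the one-step inequality, in polynomial form -/
lemma keyT {s w x Q t : ℝ} (hs : 0 ≤ s) (hx : 0 ≤ x) (hQ0 : 0 < Q) (hQs : 1 - s ≤ Q)
    (hQe : Q * Real.exp s ≤ 1) (hxs : (s - w) ^ 2 ≤ x * s) (ht : 0 < t) (ht1 : t ≤ 1) :
    0 ≤ (1 + t) * ((1 + t * Q) * x + w * (2 * (t * Q)) - w ^ 2 * (t * Q) * (2 + t * Q)
      + (t * Q) ^ 2) + t * (w * (1 + t * Q) ^ 2 - t * Q * (1 + t * Q)) := by
  have hP3 : 1 + s + s ^ 2 / 2 + s ^ 3 / 6 ≤ Real.exp s := by
    have := Real.sum_le_exp_of_nonneg hs 4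
    simp only [Finset.sum_range_succ, Finset.sum_range_zero] at this
    norm_num [Nat.factorial] at this
    linarith
  have hQ : Q * (1 + s + s ^ 2 / 2 + s ^ 3 / 6) ≤ 1 :=
    (mul_le_mul_of_nonneg_left hP3 hQ0.le).trans hQe
  have hd := disc hs hQ0 hQ ht ht1
  have hc1 := cub1 hs
  have hQ1 : Q ≤ 1 := by
    have h3 : 0 ≤ s + s ^ 2 / 2 + s ^ 3 / 6 := by positivity
    nlinarith [mul_nonneg hQ0.le h3]
  have hr0 : 0 < t * Q := by positivity
  have hsr : s * (t * Q) ≤ 0.4 := by
    have h1 : s * Q ≤ 0.4 := by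
      calc s * Q = Q * s := by ring
        _ ≤ Q * (0.4 * (1 + s + s ^ 2 / 2 + s ^ 3 / 6)) := mul_le_mul_of_nonneg_left hc1 hQ0.le
        _ = 0.4 * (Q * (1 + s + s ^ 2 / 2 + s ^ 3 / 6)) := by ring
        _ ≤ 0.4 := by linarith
    nlinarith [mul_nonneg hs hQ0.le]
  rcases hs.eq_or_lt with h0 | h0
  · subst h0
    have hw : w = 0 := by
      have : w ^ 2 ≤ 0 := by nlinarith
      exact pow_eq_zero_iff (two_ne_zero) |>.1 (le_antisymm this (sq_nonneg w))
    have hQ' : Q = 1 := le_antisymm hQ1 (by linarith)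
    subst hw
    subst hQ'
    nlinarith [mul_nonneg (by linarith : (0:ℝ) ≤ 1 + t) (mul_nonneg (by linarith : (0:ℝ) ≤ 1 + t) hx)]
  · set r := t * Q with hr
    set B := 2 * (1 + t) - t * (1 + r) ^ 2 with hB
    set al := 1 + r - s * r * (2 + r) with hal
    have hal0 : 0 < al := by rw [hal]; nlinarith
    -- the quadratic form
    have hquad : 0 ≤ (1 + t) * al * w ^ 2 - s * B * w + s ^ 2 * (1 + r + t) := by
      have h4 : 0 < 4 * ((1 + t) * al) := by positivity
      have : 0 ≤ 4 * ((1 + t) * al) * ((1 + t) * al * w ^ 2 - s * B * w + s ^ 2 * (1 + r + t)) := by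
        have e : 4 * ((1 + t) * al) * ((1 + t) * al * w ^ 2 - s * B * w + s ^ 2 * (1 + r + t))
          = (2 * ((1 + t) * al) * w - s * B) ^ 2
            + s ^ 2 * (4 * (1 + t) * (1 + r + t) * al - B ^ 2) := by ring
        rw [e]
        have := mul_nonneg (sq_nonneg s) (sub_nonneg.2 hd)
        nlinarith [sq_nonneg (2 * ((1 + t) * al) * w - s * B)]
      exact nonneg_of_mul_nonneg_right this h4
    refine nonneg_of_mul_nonneg_right (a := s) ?_ h0
    have h5 : 0 ≤ (1 + t) * (1 + r) * (x * s - (s - w) ^ 2) :=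
      mul_nonneg (by positivity) (sub_nonneg.2 hxs)
    have h6 : 0 ≤ s * (r * t) * (Q - (1 - s)) :=
      mul_nonneg (by positivity) (sub_nonneg.2 hQs)
    have e : s * ((1 + t) * ((1 + r) * x + w * (2 * r) - w ^ 2 * r * (2 + r)
      + r ^ 2) + t * (w * (1 + r) ^ 2 - r * (1 + r)))
      = ((1 + t) * al * w ^ 2 - s * B * w + s ^ 2 * (1 + r + t))
        + (1 + t) * (1 + r) * (x * s - (s - w) ^ 2) + s * (r * t) * (Q - (1 - s))
        + s * r * (r - t * Q) := by
      rw [hal, hB]; ring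
    have e2 : s * r * (r - t * Q) = 0 := by rw [hr]; ring
    rw [e, e2]
    linarith

lemma keyIII {s w x Q t p p0 : ℝ} (hs : 0 ≤ s) (hx : 0 ≤ x) (hQ0 : 0 < Q) (hQs : 1 - s ≤ Q)
    (hQe : Q * Real.exp s ≤ 1) (hxs : (s - w) ^ 2 ≤ x * s) (ht : 0 < t) (ht1 : t ≤ 1)
    (hp : p = t * Q / (1 + t * Q)) (hp0 : p0 = t / (1 + t)) :
    p * (w ^ 2 + p0 * (1 - w)) ≤ p - p * (1 - p) * (1 - w) ^ 2 + (1 - p) * (x + p0 * w) := by
  have h := keyT hs hx hQ0 hQs hQe hxs ht ht1
  have hr : 0 < 1 + t * Q := by positivity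
  have ht' : 0 < 1 + t := by linarith
  have e : p - p * (1 - p) * (1 - w) ^ 2 + (1 - p) * (x + p0 * w)
      - p * (w ^ 2 + p0 * (1 - w))
      = ((1 + t) * ((1 + t * Q) * x + w * (2 * (t * Q)) - w ^ 2 * (t * Q) * (2 + t * Q)
      + (t * Q) ^ 2) + t * (w * (1 + t * Q) ^ 2 - t * Q * (1 + t * Q)))
        / ((1 + t * Q) ^ 2 * (1 + t)) := by
    rw [hp, hp0]
    field_simp
    ring
  have h2 := div_nonneg h (by positivity : (0:ℝ) ≤ (1 + t * Q) ^ 2 * (1 + t))
  rw [← e] at h2
  linarith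

variable {V : Type*}

/-- independence polynomial with real coefficients -/
noncomputable def PR (G : SimpleGraph V) (S : Finset V) : ℝ[X] := Z G (fun _ => (X : ℝ[X])) S

/-- Euler operator -/
noncomputable def D (p : ℝ[X]) : ℝ[X] := X * derivative p

lemma D_add (p q : ℝ[X]) : D (p + q) = D p + D q := by simp [D, mul_add]

lemma D_mul (p q : ℝ[X]) : D (p * q) = D p * q + p * D q := by
  simp only [D, derivative_mul]; ring

lemma D_X : D (X : ℝ[X]) = X := by simp [D]

lemma D_one : D (1 : ℝ[X]) = 0 := by simp [D]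

/-- value -/
noncomputable def z (G : SimpleGraph V) (t : ℝ) (S : Finset V) : ℝ := (PR G S).eval t

/-- mean -/
noncomputable def m (G : SimpleGraph V) (t : ℝ) (S : Finset V) : ℝ :=
  (D (PR G S)).eval t / z G t S

/-- variance -/
noncomputable def vr (G : SimpleGraph V) (t : ℝ) (S : Finset V) : ℝ :=
  (D (D (PR G S))).eval t / z G t S - m G t S ^ 2

lemma PR_rec (G : SimpleGraph V) {v : V} {S : Finset V} (hv : v ∈ S) :
    PR G S = PR G (S.erase v) + X * PR G (del G v S) := Z_rec G _ hv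

lemma PR_union (G : SimpleGraph V) {S T : Finset V} (hd : Disjoint S T)
    (hadj : ∀ u ∈ S, ∀ w ∈ T, ¬ G.Adj u w) : PR G (S ∪ T) = PR G S * PR G T :=
  Z_union' G _ hd hadj

lemma PR_empty (G : SimpleGraph V) : PR G ∅ = 1 := Z_empty G _

lemma z_pos (G : SimpleGraph V) {t : ℝ} (ht : 0 < t) (S : Finset V) : 0 < z G t S := by
  induction hn : S.card using Nat.strong_induction_on generalizing S with
  | _ n ih =>
    rcases S.eq_empty_or_nonempty with rfl | ⟨v, hv⟩
    · simp [z, PR_empty]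
    · have h1 : (S.erase v).card < n := by rw [← hn]; exact Finset.card_erase_lt_of_mem hv
      have h2 : (del G v S).card < n :=
        lt_of_le_of_lt (Finset.card_le_card (del_subset_erase G v S)) h1
      have e : z G t S = z G t (S.erase v) + t * z G t (del G v S) := by
        simp [z, PR_rec G hv]
      rw [e]
      have := ih _ h1 (S.erase v) rfl
      have := ih _ h2 (del G v S) rfl
      positivity

section
variable (G : SimpleGraph V) {t : ℝ} (ht : 0 < t)
include ht

omit ht in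
lemma z_rec {v : V} {S : Finset V} (hv : v ∈ S) :
    z G t S = z G t (S.erase v) + t * z G t (del G v S) := by
  simp [z, PR_rec G hv]

/-- mean and variance after conditioning on a vertex -/
lemma mean_rec {v : V} {S : Finset V} (hv : v ∈ S) :
    m G t S = m G t (S.erase v) + t * z G t (del G v S) / z G t S *
      (1 + m G t (del G v S) - m G t (S.erase v)) := by
  have hS := z_pos G ht S
  have hA := z_pos G ht (S.erase v)
  have hB := z_pos G ht (del G v S)
  have e := z_rec G (t := t) hv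
  have e1 : (D (PR G S)).eval t = (D (PR G (S.erase v))).eval t
      + t * (z G t (del G v S) + (D (PR G (del G v S))).eval t) := by
    rw [PR_rec G hv, D_add, D_mul, D_X]
    simp only [eval_add, eval_mul, eval_X, z]
    ring
  simp only [m]
  rw [e1]
  rw [e] at hS ⊢
  field_simp
  ring

lemma var_rec {v : V} {S : Finset V} (hv : v ∈ S) :
    vr G t S = (1 - t * z G t (del G v S) / z G t S) * vr G t (S.erase v)
      + t * z G t (del G v S) / z G t S * vr G t (del G v S)
      + t * z G t (del G v S) / z G t S * (1 - t * z G t (del G v S) / z G t S) *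
      (1 + m G t (del G v S) - m G t (S.erase v)) ^ 2 := by
  have hS := z_pos G ht S
  have hA := z_pos G ht (S.erase v)
  have hB := z_pos G ht (del G v S)
  have e := z_rec G (t := t) hv
  have e2 : (D (D (PR G S))).eval t = (D (D (PR G (S.erase v)))).eval t
      + t * (z G t (del G v S) + 2 * (D (PR G (del G v S))).eval t
        + (D (D (PR G (del G v S)))).eval t) := by
    rw [PR_rec G hv, D_add, D_mul, D_X, D_add, D_add, D_mul, D_mul, D_X]
    simp only [eval_add, eval_mul, eval_X, z]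
    ring
  have e1 : (D (PR G S)).eval t = (D (PR G (S.erase v))).eval t
      + t * (z G t (del G v S) + (D (PR G (del G v S))).eval t) := by
    rw [PR_rec G hv, D_add, D_mul, D_X]
    simp only [eval_add, eval_mul, eval_X, z]
    ring
  simp only [vr, m]
  rw [e1, e2]
  rw [e] at hS ⊢
  field_simp
  ring

omit ht in
lemma z_union {S T : Finset V} (hd : Disjoint S T)
    (hadj : ∀ u ∈ S, ∀ w ∈ T, ¬ G.Adj u w) : z G t (S ∪ T) = z G t S * z G t T := by
  simp [z, PR_union G hd hadj]

lemma m_union {S T : Finset V} (hd : Disjoint S T)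
    (hadj : ∀ u ∈ S, ∀ w ∈ T, ¬ G.Adj u w) : m G t (S ∪ T) = m G t S + m G t T := by
  have hS := z_pos G ht S
  have hT := z_pos G ht T
  have e1 : (D (PR G (S ∪ T))).eval t = (D (PR G S)).eval t * z G t T
      + z G t S * (D (PR G T)).eval t := by
    rw [PR_union G hd hadj, D_mul]
    simp only [eval_add, eval_mul, z]
  simp only [m]
  rw [e1, z_union G hd hadj]
  field_simp

lemma vr_union {S T : Finset V} (hd : Disjoint S T)
    (hadj : ∀ u ∈ S, ∀ w ∈ T, ¬ G.Adj u w) : vr G t (S ∪ T) = vr G t S + vr G t T := by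
  have hS := z_pos G ht S
  have hT := z_pos G ht T
  have e2 : (D (D (PR G (S ∪ T)))).eval t = (D (D (PR G S))).eval t * z G t T
      + 2 * (D (PR G S)).eval t * (D (PR G T)).eval t + z G t S * (D (D (PR G T))).eval t := by
    rw [PR_union G hd hadj, D_mul, D_add, D_mul, D_mul]
    simp only [eval_add, eval_mul, z]
    ring
  have e1 := m_union G ht hd hadj
  rw [vr, vr, vr, e1, e2, z_union G hd hadj]
  simp only [m]
  field_simp
  ring

end

lemma m_empty (G : SimpleGraph V) (t : ℝ) : m G t ∅ = 0 := by simp [m, PR_empty, D_one]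

lemma vr_empty (G : SimpleGraph V) (t : ℝ) : vr G t ∅ = 0 := by
  simp [vr, m, PR_empty, D]


/-- what is kept in the induction for the pair (forest without `v`, without `v` and its
neighbours) -/
def Out (G : SimpleGraph V) (t : ℝ) (A B : Finset V) : Prop :=
  ∃ s w x : ℝ, 0 ≤ s ∧ 0 ≤ x ∧ 1 - s ≤ z G t B / z G t A ∧
    z G t B / z G t A * Real.exp s ≤ 1 ∧ m G t B = m G t A - w ∧
    x + t / (1 + t) * w ≤ m G t A - vr G t A ∧ (s - w) ^ 2 ≤ x * s ∧
    0 ≤ m G t B - vr G t B

/-- the potential inequality at `v` -/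
def Star (G : SimpleGraph V) (t : ℝ) (S : Finset V) (v : V) : Prop :=
  t * z G t (del G v S) / z G t S * ((m G t (S.erase v) - m G t (del G v S)) ^ 2
      + t / (1 + t) * (1 - (m G t (S.erase v) - m G t (del G v S))))
    ≤ m G t S - vr G t S

section
variable (G : SimpleGraph V) {t : ℝ} (ht : 0 < t)
include ht

lemma star_of_out (ht1 : t ≤ 1) {S : Finset V} {v : V} (hv : v ∈ S)
    (h : Out G t (S.erase v) (del G v S)) : Star G t S v := by
  obtain ⟨s, w, x, hs, hx, hQs, hQe, hm, hvr, hxs, hB⟩ := h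
  have hA0 := z_pos G ht (S.erase v)
  have hB0 := z_pos G ht (del G v S)
  have hS0 := z_pos G ht S
  have hQ0 : 0 < z G t (del G v S) / z G t (S.erase v) := by positivity
  have hp : t * z G t (del G v S) / z G t S = t * (z G t (del G v S) / z G t (S.erase v)) /
      (1 + t * (z G t (del G v S) / z G t (S.erase v))) := by
    have e := z_rec G (t := t) hv
    rw [e] at hS0 ⊢
    field_simp
  have key := keyIII hs hx hQ0 hQs hQe hxs ht ht1 hp rfl
  rw [Star]
  have hw : m G t (S.erase v) - m G t (del G v S) = w := by linarith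
  rw [hw, mean_rec G ht hv, var_rec G ht hv, hm]
  set p := t * z G t (del G v S) / z G t S with hpd
  have hp0 : 0 ≤ p := by rw [hpd]; positivity
  have hp1 : 0 ≤ 1 - p := by
    have : p ≤ 1 := by
      rw [hpd, div_le_one hS0, z_rec G hv]
      linarith
    linarith
  have h1 := mul_nonneg hp0 hB
  have h2 := mul_le_mul_of_nonneg_left hvr hp1
  rw [hm] at h1
  nlinarith

lemma nonneg_of_star {S : Finset V} {v : V} (h : Star G t S v) : 0 ≤ m G t S - vr G t S := by
  refine le_trans ?_ h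
  have hS0 := z_pos G ht S
  have hB0 := z_pos G ht (del G v S)
  refine mul_nonneg (by positivity) ?_
  set w := m G t (S.erase v) - m G t (del G v S)
  have h1 : 0 < t / (1 + t) := by positivity
  have h2 : t / (1 + t) < 1 := by rw [div_lt_one (by linarith)]; linarith
  set p0 := t / (1 + t)
  nlinarith [sq_nonneg (2 * w - p0)]

/-- a single branch -/
lemma out_of_star {T : Finset V} {c : V} (hc : c ∈ T) (h : Star G t T c)
    (h0 : 0 ≤ m G t (T.erase c) - vr G t (T.erase c)) : Out G t T (T.erase c) := by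
  have hT0 := z_pos G ht T
  have hA0 := z_pos G ht (T.erase c)
  have hB0 := z_pos G ht (del G c T)
  have e := z_rec G (t := t) hc
  have em := mean_rec G ht hc
  rw [Star] at h
  set p := t * z G t (del G c T) / z G t T with hpd
  have hp0 : 0 ≤ p := by rw [hpd]; positivity
  have hQ : z G t (T.erase c) / z G t T = 1 - p := by
    rw [hpd, e]; rw [e] at hT0; field_simp; ring
  set w := m G t (T.erase c) - m G t (del G c T) with hw
  have e3 : m G t (T.erase c) = m G t T - p * (1 - w) := by rw [em, hw]; ring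
  clear_value p w
  refine ⟨p, p * (1 - w), p * w ^ 2, hp0, by positivity, hQ.ge, ?_, e3, ?_, ?_, h0⟩
  · rw [hQ]
    have h1 : 1 - p ≤ Real.exp (-p) := by
      have := Real.add_one_le_exp (-p)
      linarith
    calc (1 - p) * Real.exp p ≤ Real.exp (-p) * Real.exp p :=
          mul_le_mul_of_nonneg_right h1 (Real.exp_pos _).le
      _ = 1 := by rw [← Real.exp_add]; simp
  · refine le_trans (le_of_eq ?_) h
    ring
  · apply le_of_eq; ring

lemma out_self {A : Finset V} (h0 : 0 ≤ m G t A - vr G t A) : Out G t A A := by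
  have hA0 := z_pos G ht A
  refine ⟨0, 0, 0, le_rfl, le_rfl, ?_, ?_, by ring, by simpa using h0, by simp, h0⟩
  · rw [div_self hA0.ne']; norm_num
  · rw [div_self hA0.ne']; simp

lemma out_union {A₁ B₁ A₂ B₂ : Finset V} (h₁ : Out G t A₁ B₁) (h₂ : Out G t A₂ B₂)
    (hd : Disjoint A₁ A₂) (hadj : ∀ u ∈ A₁, ∀ w ∈ A₂, ¬ G.Adj u w) (s₁ : B₁ ⊆ A₁)
    (s₂ : B₂ ⊆ A₂) : Out G t (A₁ ∪ A₂) (B₁ ∪ B₂) := by
  obtain ⟨s, w, x, hs, hx, hQs, hQe, hm, hvr, hxs, hB⟩ := h₁
  obtain ⟨s', w', x', hs', hx', hQs', hQe', hm', hvr', hxs', hB'⟩ := h₂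
  have hd' : Disjoint B₁ B₂ := hd.mono s₁ s₂
  have hadj' : ∀ u ∈ B₁, ∀ w ∈ B₂, ¬ G.Adj u w := fun u hu w hw => hadj u (s₁ hu) w (s₂ hw)
  have a1 := z_pos G ht A₁
  have a2 := z_pos G ht A₂
  have b1 := z_pos G ht B₁
  have b2 := z_pos G ht B₂
  have hq : z G t (B₁ ∪ B₂) / z G t (A₁ ∪ A₂)
      = z G t B₁ / z G t A₁ * (z G t B₂ / z G t A₂) := by
    rw [z_union G hd hadj, z_union G hd' hadj']; field_simp
  have q1 : 0 < z G t B₁ / z G t A₁ := by positivity
  have q2 : 0 < z G t B₂ / z G t A₂ := by positivity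
  have u1 : z G t B₁ / z G t A₁ ≤ 1 := by
    have := Real.one_le_exp hs
    nlinarith
  have u2 : z G t B₂ / z G t A₂ ≤ 1 := by
    have := Real.one_le_exp hs'
    nlinarith
  refine ⟨s + s', w + w', x + x', by positivity, by positivity, ?_, ?_, ?_, ?_, ?_, ?_⟩
  · rw [hq]
    nlinarith [mul_nonneg (sub_nonneg.2 u1) (sub_nonneg.2 u2)]
  · rw [hq, Real.exp_add]
    have e : z G t B₁ / z G t A₁ * (z G t B₂ / z G t A₂) * (Real.exp s * Real.exp s')
      = (z G t B₁ / z G t A₁ * Real.exp s) * (z G t B₂ / z G t A₂ * Real.exp s') := by ring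
    rw [e]
    exact mul_le_one₀ hQe (by positivity) hQe'
  · rw [m_union G ht hd hadj, m_union G ht hd' hadj', hm, hm']; ring
  · rw [m_union G ht hd hadj, vr_union G ht hd hadj]
    linarith
  · have h1 : 2 * ((s - w) * (s' - w')) ≤ x * s' + x' * s := by
      by_contra hcon
      push Not at hcon
      have hY : 0 ≤ x * s' + x' * s := by positivity
      have h2 : (x * s' + x' * s) ^ 2 < (2 * ((s - w) * (s' - w'))) ^ 2 :=
        pow_lt_pow_left₀ hcon hY two_ne_zero
      have h3 : (s - w) ^ 2 * (s' - w') ^ 2 ≤ (x * s) * (x' * s') :=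
        mul_le_mul hxs hxs' (sq_nonneg _) (by positivity)
      nlinarith [sq_nonneg (x * s' - x' * s)]
    nlinarith
  · rw [m_union G ht hd' hadj', vr_union G ht hd' hadj']
    linarith

end

/-- the branch of a forest hanging at the neighbour `c` of `v` -/
lemma branch {G : SimpleGraph V} (hG : G.IsAcyclic) {S : Finset V} {v c : V} (hc : c ∈ S)
    (hvc : G.Adj v c) :
    ∃ A : Finset V, A ⊆ S.erase v ∧ c ∈ A ∧ (∀ x ∈ A, G.Adj v x → x = c) ∧
      ∀ x ∈ A, ∀ y ∈ S, y ≠ v → y ∉ A → ¬ G.Adj x y := by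
  have hcv : c ≠ v := fun h => G.irrefl (h ▸ hvc)
  have hbr := (SimpleGraph.isAcyclic_iff_forall_adj_isBridge.1 hG) hvc
  rw [SimpleGraph.isBridge_iff] at hbr
  refine ⟨S.filter (fun x => x ≠ v ∧
    Relation.ReflTransGen (fun a b => G.Adj a b ∧ b ≠ v ∧ b ∈ S) c x), ?_, ?_, ?_, ?_⟩
  · intro x hx
    rw [Finset.mem_filter] at hx
    exact Finset.mem_erase.2 ⟨hx.2.1, hx.1⟩
  · rw [Finset.mem_filter]
    exact ⟨hc, hcv, Relation.ReflTransGen.refl⟩
  · intro x hx hvx
    rw [Finset.mem_filter] at hx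
    by_contra hxc
    obtain ⟨-, -, hR⟩ := hx
    have key : ∀ y, Relation.ReflTransGen (fun a b => G.Adj a b ∧ b ≠ v ∧ b ∈ S) c y →
        y ≠ v ∧ (G.deleteEdges {s(v, c)}).Reachable c y := by
      intro y hy
      induction hy with
      | refl => exact ⟨hcv, SimpleGraph.Reachable.refl _⟩
      | @tail a b _ hab ih =>
        refine ⟨hab.2.1, ih.2.trans (SimpleGraph.Adj.reachable ?_)⟩
        rw [SimpleGraph.deleteEdges_adj]
        refine ⟨hab.1, fun h1 => ?_⟩
        rw [Set.mem_singleton_iff, Sym2.eq_iff] at h1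
        rcases h1 with ⟨h1, -⟩ | ⟨-, h1⟩
        · exact ih.1 h1
        · exact hab.2.1 h1
    apply hbr
    refine SimpleGraph.Reachable.trans (SimpleGraph.Adj.reachable ?_) (key x hR).2.symm
    rw [SimpleGraph.deleteEdges_adj]
    refine ⟨hvx, fun h1 => ?_⟩
    rw [Set.mem_singleton_iff, Sym2.eq_iff] at h1
    rcases h1 with ⟨-, h1⟩ | ⟨h1, -⟩
    · exact hxc h1
    · exact hcv h1.symm
  · intro x hx y hy hyv hyA hxy
    rw [Finset.mem_filter] at hx
    apply hyA
    rw [Finset.mem_filter]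
    exact ⟨hy, hyv, hx.2.2.tail ⟨hxy, hyv, hy⟩⟩

lemma out_all {G : SimpleGraph V} (hG : G.IsAcyclic) {t : ℝ} (ht : 0 < t) (ht1 : t ≤ 1) :
    ∀ (n : ℕ) (S : Finset V), S.card = n → ∀ v ∈ S, Out G t (S.erase v) (del G v S) := by
  intro n
  induction n using Nat.strong_induction_on with
  | _ n ih =>
    have hst : ∀ T : Finset V, T.card < n → ∀ c ∈ T, Star G t T c := fun T hT c hc =>
      star_of_out G ht ht1 hc (ih _ hT T rfl c hc)
    have hnn : ∀ T : Finset V, T.card < n → 0 ≤ m G t T - vr G t T := by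
      intro T hT
      rcases T.eq_empty_or_nonempty with rfl | ⟨c, hc⟩
      · simp [m_empty, vr_empty]
      · exact nonneg_of_star G ht (hst T hT c hc)
    intro S hS v hv
    have hlt : (S.erase v).card < n := by rw [← hS]; exact Finset.card_erase_lt_of_mem hv
    by_cases hc : ∃ c ∈ S, G.Adj v c
    · obtain ⟨c, hcS, hvc⟩ := hc
      obtain ⟨A, hA, hcA, hA2, hA3⟩ := branch hG hcS hvc
      have hvA : v ∉ A := fun h => Finset.notMem_erase v S (hA h)
      have hAn : A.card < n := lt_of_le_of_lt (Finset.card_le_card hA) hlt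
      have hAS : A ⊆ S := hA.trans (Finset.erase_subset _ _)
      have h1 : Out G t A (A.erase c) := by
        refine out_of_star G ht hcA (hst A hAn c hcA) (hnn _ ?_)
        exact lt_of_le_of_lt (Finset.card_le_card (Finset.erase_subset _ _)) hAn
      have hvS2 : v ∈ S \ A := Finset.mem_sdiff.2 ⟨hv, hvA⟩
      have hS2 : (S \ A).card < n := by
        rw [← hS]
        apply Finset.card_lt_card
        rw [Finset.ssubset_iff_of_subset Finset.sdiff_subset]
        exact ⟨c, hcS, fun h => (Finset.mem_sdiff.1 h).2 hcA⟩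
      have h2 := ih _ hS2 (S \ A) rfl v hvS2
      have e1 : S.erase v = A ∪ (S \ A).erase v := by
        ext x
        simp only [Finset.mem_erase, Finset.mem_union, Finset.mem_sdiff]
        constructor
        · rintro ⟨a1, a2⟩
          by_cases hx : x ∈ A
          · exact Or.inl hx
          · exact Or.inr ⟨a1, a2, hx⟩
        · rintro (a1 | ⟨a1, a2, -⟩)
          · exact Finset.mem_erase.1 (hA a1)
          · exact ⟨a1, a2⟩
      have e2 : del G v S = A.erase c ∪ del G v (S \ A) := by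
        ext x
        simp only [mem_del, Finset.mem_erase, Finset.mem_union, Finset.mem_sdiff]
        constructor
        · rintro ⟨a1, a2, a3⟩
          by_cases hx : x ∈ A
          · exact Or.inl ⟨fun h => a3 (h ▸ hvc), hx⟩
          · exact Or.inr ⟨⟨a1, hx⟩, a2, a3⟩
        · rintro (⟨a1, a2⟩ | ⟨⟨a1, -⟩, a2, a3⟩)
          · exact ⟨hAS a2, fun h => hvA (h ▸ a2), fun h => a1 (hA2 x a2 h)⟩
          · exact ⟨a1, a2, a3⟩
      rw [e1, e2]
      refine out_union G ht h1 h2 ?_ ?_ (Finset.erase_subset _ _) (del_subset_erase _ _ _)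
      · rw [Finset.disjoint_left]
        intro x hx hx2
        exact (Finset.mem_sdiff.1 (Finset.mem_of_mem_erase hx2)).2 hx
      · intro x hx y hy
        rw [Finset.mem_erase, Finset.mem_sdiff] at hy
        exact hA3 x hx y hy.2.1 hy.1 hy.2.2
    · push Not at hc
      have e2 : del G v S = S.erase v := by
        ext x
        rw [mem_del, Finset.mem_erase]
        exact ⟨fun h => ⟨h.2.1, h.1⟩, fun h => ⟨h.2, h.1, hc x h.2⟩⟩
      rw [e2]
      exact out_self G ht (hnn _ hlt)

/-- the variance is at most the mean -/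
lemma var_le_mean {G : SimpleGraph V} (hG : G.IsAcyclic) {t : ℝ} (ht : 0 < t) (ht1 : t ≤ 1)
    (S : Finset V) : vr G t S ≤ m G t S := by
  rcases S.eq_empty_or_nonempty with rfl | ⟨v, hv⟩
  · simp [m_empty, vr_empty]
  · have := nonneg_of_star G ht (star_of_out G ht ht1 hv (out_all hG ht ht1 _ S rfl v hv))
    linarith

lemma PR_eq (G : SimpleGraph V) (S : Finset V) {n : ℕ} (hn : ∀ j, n < j → cnt G S j = 0) :
    PR G S = ∑ j ∈ range (n + 1), C (cnt G S j : ℝ) * X ^ j := by
  rw [PR, Z_const_eq_sum]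
  have h1 : ∀ N : ℕ, n ≤ N → (∀ j, N < j → cnt G S j = 0) →
      ∑ j ∈ range (N + 1), (cnt G S j : ℝ[X]) * X ^ j
        = ∑ j ∈ range (n + 1), (cnt G S j : ℝ[X]) * X ^ j := by
    intro N hN _
    symm
    apply Finset.sum_subset
    · intro x hx
      rw [Finset.mem_range] at hx ⊢
      omega
    · intro x _ hx
      rw [Finset.mem_range] at hx
      rw [hn x (by omega)]
      simp
  have h2 : ∀ j, S.card < j → cnt G S j = 0 := fun j hj => cnt_eq_zero hj
  have e : ∑ j ∈ range (S.card + 1), (cnt G S j : ℝ[X]) * X ^ j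
      = ∑ j ∈ range (n + 1), (cnt G S j : ℝ[X]) * X ^ j := by
    rcases le_total n S.card with h | h
    · exact h1 _ h h2
    · apply Finset.sum_subset
      · intro x hx
        rw [Finset.mem_range] at hx ⊢
        omega
      · intro x _ hx
        rw [Finset.mem_range] at hx
        rw [h2 x (by omega)]
        simp
  rw [e]
  apply Finset.sum_congr rfl
  intro j _
  simp

lemma D_mon (a : ℝ) (j : ℕ) : D (C a * X ^ j) = C (a * j) * X ^ j := by
  rcases j with _ | j
  · simp [D]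
  · rw [D, derivative_C_mul, derivative_X_pow]
    simp only [Nat.add_sub_cancel, C_mul]
    rw [show C ((j + 1 : ℕ) : ℝ) = C (((j + 1 : ℕ) : ℝ)) from rfl]
    ring

lemma D_sum {ι : Type*} (s : Finset ι) (f : ι → ℝ[X]) : D (∑ i ∈ s, f i) = ∑ i ∈ s, D (f i) := by
  simp only [D, derivative_sum, Finset.mul_sum]

/-- the variance inequality as an inequality between power sums -/
theorem hv_forest {G : SimpleGraph V} (hG : G.IsAcyclic) (S : Finset V) {n : ℕ}
    (hn : ∀ j, n < j → cnt G S j = 0) {t : ℝ} (ht : 0 < t) (ht1 : t ≤ 1) :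
    (∑ j ∈ range (n + 1), (j : ℝ) ^ 2 * (cnt G S j : ℝ) * t ^ j) *
        (∑ j ∈ range (n + 1), (cnt G S j : ℝ) * t ^ j) ≤
      (∑ j ∈ range (n + 1), (j : ℝ) * (cnt G S j : ℝ) * t ^ j) ^ 2 +
        (∑ j ∈ range (n + 1), (j : ℝ) * (cnt G S j : ℝ) * t ^ j) *
          ∑ j ∈ range (n + 1), (cnt G S j : ℝ) * t ^ j := by
  have h := var_le_mean hG ht ht1 S
  have hz := z_pos G ht S
  have e0 : z G t S = ∑ j ∈ range (n + 1), (cnt G S j : ℝ) * t ^ j := by
    rw [z, PR_eq G S hn, eval_finsetSum]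
    simp
  have e1 : (D (PR G S)).eval t = ∑ j ∈ range (n + 1), (j : ℝ) * (cnt G S j : ℝ) * t ^ j := by
    rw [PR_eq G S hn, D_sum, eval_finsetSum]
    apply Finset.sum_congr rfl
    intro j _
    rw [D_mon]
    simp only [eval_mul, eval_C, eval_pow, eval_X]
    ring
  have e2 : (D (D (PR G S))).eval t
      = ∑ j ∈ range (n + 1), (j : ℝ) ^ 2 * (cnt G S j : ℝ) * t ^ j := by
    rw [PR_eq G S hn, D_sum, D_sum, eval_finsetSum]
    apply Finset.sum_congr rfl
    intro j _
    rw [D_mon, D_mon]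
    simp only [eval_mul, eval_C, eval_pow, eval_X]
    ring
  rw [vr, m, e1, e2] at h
  rw [e0] at h hz
  rw [← e0] at h hz ⊢
  rw [div_pow, div_sub_div _ _ hz.ne' (pow_ne_zero 2 hz.ne'), div_le_div_iff₀ (by positivity) hz] at h
  have h3 : 0 < z G t S ^ 2 := by positivity
  have h4 : ((∑ j ∈ range (n + 1), (j : ℝ) ^ 2 * (cnt G S j : ℝ) * t ^ j) * z G t S) *
      z G t S ^ 2 ≤ ((∑ j ∈ range (n + 1), (j : ℝ) * (cnt G S j : ℝ) * t ^ j) ^ 2 +
        (∑ j ∈ range (n + 1), (j : ℝ) * (cnt G S j : ℝ) * t ^ j) * z G t S) * z G t S ^ 2 := by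
    nlinarith
  exact le_of_mul_le_mul_right h4 h3

end A

/-! ## B: from the variance to log-concavity -/

section B
open Finset

section seq

variable {n K : ℕ} {c : ℕ → ℝ} {s : ℝ}

/-- A sequence with `c (j + 1) * (n - j) = c j * (K - j)`, times `s ^ j`, `1 ≤ s`, is quasi-concave. -/
theorem quasi (hK : K ≤ n) (hs : 1 ≤ s) (hc0 : ∀ j, 0 ≤ c j)
    (hc : ∀ j, j < n → c (j + 1) * ((n : ℝ) - j) = c j * ((K : ℝ) - j) ∨ (c (j + 1) = 0))
    (hcK : ∀ j, j < K → c (j + 1) * ((n : ℝ) - j) = c j * ((K : ℝ) - j)) {p j q : ℕ}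
    (hpj : p ≤ j) (hjq : j ≤ q) (hq : q ≤ n) :
    c p * s ^ p ≤ c j * s ^ j ∨ c q * s ^ q ≤ c j * s ^ j := by
  have hs0 : 0 < s := by linarith
  by_cases hA : ((n : ℝ) - j) ≤ ((K : ℝ) - j) * s
  · -- increasing up to `j`
    left
    have hmono : ∀ i, p ≤ i → i ≤ j → c p * s ^ p ≤ c i * s ^ i := by
      intro i hpi
      induction i, hpi using Nat.le_induction with
      | base => intro _; exact le_rfl
      | succ i hpi ih =>
        intro hij
        refine (ih (by omega)).trans ?_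
        have hi : i < j := by omega
        have hij' : (i : ℝ) + 1 ≤ j := by exact_mod_cast hi
        have hin : (i : ℝ) + 1 ≤ n := by exact_mod_cast (show i + 1 ≤ n by omega)
        have hAi : ((n : ℝ) - i) ≤ ((K : ℝ) - i) * s := by nlinarith
        have hKi : i < K := by
          by_contra hKi
          have : (K : ℝ) ≤ i := by exact_mod_cast (not_lt.1 hKi)
          nlinarith
        have h1 := hcK i hKi
        have h2 : 0 < (n : ℝ) - i := by linarith
        have h3 : c i * ((n : ℝ) - i) ≤ c (i + 1) * s * ((n : ℝ) - i) := by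
          have h4 := mul_le_mul_of_nonneg_left hAi (hc0 i)
          calc c i * ((n : ℝ) - i) ≤ c i * (((K : ℝ) - i) * s) := h4
            _ = (c i * ((K : ℝ) - i)) * s := by ring
            _ = (c (i + 1) * ((n : ℝ) - i)) * s := by rw [h1]
            _ = c (i + 1) * s * ((n : ℝ) - i) := by ring
        have h5 : c i ≤ c (i + 1) * s := le_of_mul_le_mul_right h3 h2
        rw [pow_succ']
        calc c i * s ^ i ≤ (c (i + 1) * s) * s ^ i := mul_le_mul_of_nonneg_right h5 (by positivity)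
          _ = c (i + 1) * (s * s ^ i) := by ring
    exact hmono j hpj le_rfl
  · right
    push Not at hA
    have hmono : ∀ i, j ≤ i → i ≤ n → c i * s ^ i ≤ c j * s ^ j := by
      intro i hji
      induction i, hji using Nat.le_induction with
      | base => intro _; exact le_rfl
      | succ i hji ih =>
        intro hin
        refine le_trans ?_ (ih (by omega))
        have hji' : (j : ℝ) ≤ i := by exact_mod_cast hji
        have hin' : (i : ℝ) + 1 ≤ n := by exact_mod_cast hin
        rcases hc i (by omega) with h1 | h1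
        · have hAi : ((K : ℝ) - i) * s ≤ ((n : ℝ) - i) := by nlinarith
          have h2 : 0 < (n : ℝ) - i := by linarith
          have h3 : c (i + 1) * s * ((n : ℝ) - i) ≤ c i * ((n : ℝ) - i) := by
            have h4 := mul_le_mul_of_nonneg_left hAi (hc0 i)
            calc c (i + 1) * s * ((n : ℝ) - i) = (c (i + 1) * ((n : ℝ) - i)) * s := by ring
              _ = (c i * ((K : ℝ) - i)) * s := by rw [h1]
              _ = c i * (((K : ℝ) - i) * s) := by ring
              _ ≤ c i * ((n : ℝ) - i) := h4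
          have h5 : c (i + 1) * s ≤ c i := le_of_mul_le_mul_right h3 h2
          rw [pow_succ']
          calc c (i + 1) * (s * s ^ i) = (c (i + 1) * s) * s ^ i := by ring
            _ ≤ c i * s ^ i := mul_le_mul_of_nonneg_right h5 (by positivity)
        · rw [h1, zero_mul]
          exact mul_nonneg (hc0 i) (by positivity)
    exact hmono q hjq hq

end seq

/-- Variance at most the mean for the weights `f j * c j`. -/
theorem var_le {n K : ℕ} (hK : K ≤ n) {f c : ℕ → ℝ} (h0 : 0 < f 0) (hf : ∀ j, 0 ≤ f j)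
    (hv : ∀ t : ℝ, 0 < t → t ≤ 1 → (∑ j ∈ range (n+1), (j:ℝ)^2 * f j * t^j) *
      (∑ j ∈ range (n+1), f j * t^j) ≤ (∑ j ∈ range (n+1), (j:ℝ) * f j * t^j)^2 +
      (∑ j ∈ range (n+1), (j:ℝ) * f j * t^j) * ∑ j ∈ range (n+1), f j * t^j)
    (hc0 : ∀ j, 0 ≤ c j) (hcp : ∀ j, j ≤ K → 0 < c j) (hcz : ∀ j, K < j → j ≤ n → c j = 0)
    (hcK : ∀ j, j < K → c (j + 1) * ((n : ℝ) - j) = c j * ((K : ℝ) - j)) :
    (∑ j ∈ range (n+1), (j:ℝ)^2 * (f j * c j)) * (∑ j ∈ range (n+1), f j * c j) ≤
      (∑ j ∈ range (n+1), (j:ℝ) * (f j * c j))^2 +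
      (∑ j ∈ range (n+1), (j:ℝ) * (f j * c j)) * ∑ j ∈ range (n+1), f j * c j := by
  set H0 := ∑ j ∈ range (n+1), f j * c j with hH0
  set H1 := ∑ j ∈ range (n+1), (j:ℝ) * (f j * c j) with hH1
  set H2 := ∑ j ∈ range (n+1), (j:ℝ)^2 * (f j * c j) with hH2
  have hη : ∀ j, 0 ≤ f j * c j := fun j => mul_nonneg (hf j) (hc0 j)
  have hH0p : 0 < H0 := by
    refine sum_pos' (fun j _ => hη j) ⟨0, by simp, mul_pos h0 (hcp 0 (Nat.zero_le _))⟩
  have hH1n : 0 ≤ H1 := sum_nonneg fun j _ => mul_nonneg (Nat.cast_nonneg _) (hη j)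
  have hc : ∀ j, j < n → c (j + 1) * ((n : ℝ) - j) = c j * ((K : ℝ) - j) ∨ (c (j + 1) = 0) := by
    intro j hj
    by_cases hjK : j < K
    · exact Or.inl (hcK j hjK)
    · exact Or.inr (hcz _ (by omega) (by omega))
  -- the sequence is nonincreasing
  have hdec : ∀ i j, i ≤ j → j ≤ n → c j ≤ c i := by
    intro i j hij
    induction j, hij using Nat.le_induction with
    | base => intro _; exact le_rfl
    | succ j hij ih =>
      intro hj
      refine le_trans ?_ (ih (by omega))
      by_cases hjK : j < K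
      · have h1 := hcK j hjK
        have h2 : (j : ℝ) + 1 ≤ n := by exact_mod_cast hj
        have h3 : (K : ℝ) ≤ n := by exact_mod_cast hK
        have h4 : 0 < (n : ℝ) - j := by linarith
        have h5 : c (j + 1) * ((n : ℝ) - j) ≤ c j * ((n : ℝ) - j) := by
          rw [h1]
          exact mul_le_mul_of_nonneg_left (by linarith) (hc0 j)
        exact le_of_mul_le_mul_right h5 h4
      · rw [hcz (j + 1) (by omega) hj]
        exact hc0 j
  rcases hH1n.eq_or_lt with hz | hpos
  · -- mean zero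
    have h1 : ∀ j ∈ range (n+1), (j:ℝ) * (f j * c j) = 0 :=
      (sum_eq_zero_iff_of_nonneg fun j _ => mul_nonneg (Nat.cast_nonneg _) (hη j)).1 hz.symm
    have h2 : H2 = 0 := by
      refine sum_eq_zero fun j hj => ?_
      rw [pow_two, mul_assoc, h1 j hj, mul_zero]
    rw [h2, ← hz]
    simp
  -- the parameter `t`
  set y := H1 / H0 with hy
  have hy0 : 0 < y := div_pos hpos hH0p
  have hyH : y * H0 = H1 := div_mul_cancel₀ _ hH0p.ne'
  have hyK : y ≤ K := by
    rw [hy, div_le_iff₀ hH0p, hH1, hH0, mul_sum]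
    refine sum_le_sum fun j hj => ?_
    by_cases hjK : j ≤ K
    · exact mul_le_mul_of_nonneg_right (by exact_mod_cast hjK) (hη j)
    · rw [hcz j (by omega) (by simpa [Nat.lt_succ_iff] using hj)]
      simp
  obtain ⟨t, ht0, ht1, ht⟩ : ∃ t : ℝ, 0 < t ∧ t ≤ 1 ∧
      ∑ j ∈ range (n+1), ((j:ℝ) - y) * (f j * t ^ j) = 0 := by
    have hcont : ContinuousOn (fun t : ℝ => ∑ j ∈ range (n+1), ((j:ℝ) - y) * (f j * t ^ j))
        (Set.Icc 0 1) := by fun_prop
    have hφ0 : ∑ j ∈ range (n+1), ((j:ℝ) - y) * (f j * (0:ℝ) ^ j) = - y * f 0 := by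
      rw [sum_eq_single 0]
      · simp
      · intro j _ hj
        rw [zero_pow hj]; ring
      · intro h; simp at h
    have hφ1 : 0 ≤ ∑ j ∈ range (n+1), ((j:ℝ) - y) * (f j * (1:ℝ) ^ j) := by
      have hfl : (⌊y⌋₊ : ℝ) ≤ y := Nat.floor_le hy0.le
      have hflK : ⌊y⌋₊ ≤ K := by
        have : (⌊y⌋₊ : ℝ) ≤ K := hfl.trans hyK
        exact_mod_cast this
      have hcs : 0 < c ⌊y⌋₊ := hcp _ hflK
      have h1 : ∑ j ∈ range (n+1), ((j:ℝ) - y) * (f j * c j) = 0 := by
        have : ∀ j ∈ range (n+1), ((j:ℝ) - y) * (f j * c j) =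
            (j:ℝ) * (f j * c j) - y * (f j * c j) := fun j _ => by ring
        rw [sum_congr rfl this, sum_sub_distrib, ← mul_sum, ← hH0, ← hH1, hyH, sub_self]
      have h2 : ∑ j ∈ range (n+1), ((j:ℝ) - y) * (f j * c j) ≤
          c ⌊y⌋₊ * ∑ j ∈ range (n+1), ((j:ℝ) - y) * (f j * (1:ℝ) ^ j) := by
        rw [mul_sum]
        refine sum_le_sum fun j hj => ?_
        have hjn : j ≤ n := by simpa [Nat.lt_succ_iff] using hj
        rw [one_pow, mul_one]
        rcases le_or_gt j ⌊y⌋₊ with h | h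
        · have h3 : (j : ℝ) ≤ y := (by exact_mod_cast h : (j : ℝ) ≤ ⌊y⌋₊).trans hfl
          have h4 := hdec j ⌊y⌋₊ h (hflK.trans hK)
          have h5 : 0 ≤ (y - j) * f j * (c j - c ⌊y⌋₊) :=
            mul_nonneg (mul_nonneg (by linarith) (hf j)) (by linarith)
          nlinarith
        · have h3 : y ≤ (j : ℝ) := by
            have := Nat.lt_floor_add_one y
            have h6 : ((⌊y⌋₊ : ℝ) + 1) ≤ j := by exact_mod_cast h
            linarith
          have h4 := hdec ⌊y⌋₊ j h.le hjn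
          have h5 : 0 ≤ ((j:ℝ) - y) * f j * (c ⌊y⌋₊ - c j) :=
            mul_nonneg (mul_nonneg (by linarith) (hf j)) (by linarith)
          nlinarith
      rw [h1] at h2
      exact nonneg_of_mul_nonneg_right h2 hcs
    have hmem : (0:ℝ) ∈ Set.Icc (∑ j ∈ range (n+1), ((j:ℝ) - y) * (f j * (0:ℝ) ^ j))
        (∑ j ∈ range (n+1), ((j:ℝ) - y) * (f j * (1:ℝ) ^ j)) := by
      refine ⟨?_, hφ1⟩
      rw [hφ0]
      nlinarith [mul_pos hy0 h0]
    obtain ⟨t, ht, htz⟩ := intermediate_value_Icc (zero_le_one' ℝ) hcont hmem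
    refine ⟨t, lt_of_le_of_ne ht.1 ?_, ht.2, htz⟩
    rintro rfl
    have h6 : - y * f 0 = 0 := by rw [← hφ0]; exact htz
    nlinarith [mul_pos hy0 h0]
  set P0 := ∑ j ∈ range (n+1), f j * t^j with hP0
  set P1 := ∑ j ∈ range (n+1), (j:ℝ) * f j * t^j with hP1
  set P2 := ∑ j ∈ range (n+1), (j:ℝ)^2 * f j * t^j with hP2
  have hvt := hv t ht0 ht1
  rw [← hP0, ← hP1, ← hP2] at hvt
  have hπ : ∀ j, 0 ≤ f j * t ^ j := fun j => mul_nonneg (hf j) (pow_nonneg ht0.le _)
  have hP0p : 0 < P0 := by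
    refine sum_pos' (fun j _ => hπ j) ⟨0, by simp, by simpa using h0⟩
  have hP1y : P1 = y * P0 := by
    have : ∀ j ∈ range (n+1), ((j:ℝ) - y) * (f j * t ^ j) =
        (j:ℝ) * f j * t ^ j - y * (f j * t ^ j) := fun j _ => by ring
    rw [sum_congr rfl this, sum_sub_distrib, ← mul_sum, ← hP0, ← hP1] at ht
    linarith
  -- comparison of the second moments
  have hs1 : 1 ≤ t⁻¹ := (one_le_inv₀ ht0).2 ht1
  have hG : ∀ j, f j * c j = (f j * t ^ j) * (c j * t⁻¹ ^ j) := by
    intro j
    have : t ^ j * t⁻¹ ^ j = 1 := by rw [← mul_pow, mul_inv_cancel₀ ht0.ne', one_pow]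
    calc f j * c j = f j * c j * (t ^ j * t⁻¹ ^ j) := by rw [this, mul_one]
      _ = _ := by ring
  obtain ⟨p, q, hpq⟩ : ∃ p q : ℝ, ∀ j ∈ range (n+1),
      ((j:ℝ) - p) * ((j:ℝ) - q) * ((f j * c j) * P0 - (f j * t ^ j) * H0) ≤ 0 := by
    set S := (range (n+1)).filter (fun j => H0 ≤ (c j * t⁻¹ ^ j) * P0) with hS
    rcases S.eq_empty_or_nonempty with he | hne
    · refine ⟨0, 0, fun j hj => ?_⟩
      have h1 : (c j * t⁻¹ ^ j) * P0 < H0 := by
        by_contra h
        have : j ∈ S := mem_filter.2 ⟨hj, not_lt.1 h⟩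
        rw [he] at this
        simp at this
      rw [hG j]
      have h2 : 0 ≤ ((j:ℝ) - 0) * ((j:ℝ) - 0) * (f j * t ^ j) * (H0 - (c j * t⁻¹ ^ j) * P0) :=
        mul_nonneg (mul_nonneg (mul_self_nonneg _) (hπ j)) (by linarith)
      nlinarith
    · refine ⟨(S.min' hne : ℕ), (S.max' hne : ℕ), fun j hj => ?_⟩
      have hmin := mem_filter.1 (S.min'_mem hne)
      have hmax := mem_filter.1 (S.max'_mem hne)
      rw [hG j]
      have hrw : ((f j * t ^ j) * (c j * t⁻¹ ^ j) * P0 - (f j * t ^ j) * H0) =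
          (f j * t ^ j) * ((c j * t⁻¹ ^ j) * P0 - H0) := by ring
      rw [hrw]
      by_cases hjS : S.min' hne ≤ j ∧ j ≤ S.max' hne
      · have h1 : H0 ≤ (c j * t⁻¹ ^ j) * P0 := by
          rcases quasi hK hs1 hc0 hc hcK hjS.1 hjS.2
            (by simpa [Nat.lt_succ_iff] using hmax.1) with h | h
          · exact hmin.2.trans (mul_le_mul_of_nonneg_right h hP0p.le)
          · exact hmax.2.trans (mul_le_mul_of_nonneg_right h hP0p.le)
        have h2 : ((S.min' hne : ℕ) : ℝ) ≤ j := by exact_mod_cast hjS.1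
        have h3 : (j : ℝ) ≤ ((S.max' hne : ℕ) : ℝ) := by exact_mod_cast hjS.2
        have h4 : 0 ≤ ((j:ℝ) - (S.min' hne : ℕ)) * ((S.max' hne : ℕ) - (j:ℝ)) *
            ((f j * t ^ j) * ((c j * t⁻¹ ^ j) * P0 - H0)) :=
          mul_nonneg (mul_nonneg (by linarith) (by linarith)) (mul_nonneg (hπ j) (by linarith))
        nlinarith
      · have h1 : (c j * t⁻¹ ^ j) * P0 < H0 := by
          by_contra h
          have : j ∈ S := mem_filter.2 ⟨hj, not_lt.1 h⟩
          exact hjS ⟨S.min'_le j this, S.le_max' j this⟩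
        have h2 : 0 ≤ ((j:ℝ) - (S.min' hne : ℕ)) * ((j:ℝ) - (S.max' hne : ℕ)) := by
          have hmm : S.min' hne ≤ S.max' hne := S.min'_le _ (S.max'_mem hne)
          have hmm' : ((S.min' hne : ℕ) : ℝ) ≤ ((S.max' hne : ℕ) : ℝ) := by exact_mod_cast hmm
          rcases not_and_or.1 hjS with h | h
          · have : (j : ℝ) ≤ ((S.min' hne : ℕ) : ℝ) := by exact_mod_cast (not_le.1 h).le
            exact mul_nonneg_of_nonpos_of_nonpos (by linarith) (by linarith)
          · have : ((S.max' hne : ℕ) : ℝ) ≤ (j : ℝ) := by exact_mod_cast (not_le.1 h).le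
            exact mul_nonneg (by linarith) (by linarith)
        have h4 : 0 ≤ ((j:ℝ) - (S.min' hne : ℕ)) * ((j:ℝ) - (S.max' hne : ℕ)) *
            ((f j * t ^ j) * (H0 - (c j * t⁻¹ ^ j) * P0)) :=
          mul_nonneg h2 (mul_nonneg (hπ j) (by linarith))
        nlinarith
  have hcmp : H2 * P0 ≤ P2 * H0 := by
    have h1 : ∑ j ∈ range (n+1),
        ((j:ℝ) - p) * ((j:ℝ) - q) * ((f j * c j) * P0 - (f j * t ^ j) * H0) ≤ 0 :=
      sum_nonpos hpq
    have h2 : ∑ j ∈ range (n+1),
        ((j:ℝ) - p) * ((j:ℝ) - q) * ((f j * c j) * P0 - (f j * t ^ j) * H0) =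
        (H2 * P0 - P2 * H0) - (p + q) * (H1 * P0 - P1 * H0) + p * q * (H0 * P0 - P0 * H0) := by
      have : ∀ j ∈ range (n+1),
          ((j:ℝ) - p) * ((j:ℝ) - q) * ((f j * c j) * P0 - (f j * t ^ j) * H0) =
          P0 * ((j:ℝ)^2 * (f j * c j)) - H0 * ((j:ℝ)^2 * f j * t ^ j)
          - ((p + q) * P0) * ((j:ℝ) * (f j * c j)) + ((p + q) * H0) * ((j:ℝ) * f j * t ^ j)
          + (p * q * P0) * (f j * c j) - (p * q * H0) * (f j * t ^ j) := fun j _ => by ring
      rw [sum_congr rfl this, sum_sub_distrib, sum_add_distrib, sum_add_distrib, sum_sub_distrib,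
        sum_sub_distrib, ← mul_sum, ← mul_sum, ← mul_sum, ← mul_sum, ← mul_sum, ← mul_sum,
        ← hH0, ← hH1, ← hH2, ← hP0, ← hP1, ← hP2]
      ring
    have h3 : H1 * P0 - P1 * H0 = 0 := by rw [hP1y, ← hyH]; ring
    rw [h2, h3] at h1
    nlinarith
  -- conclusion
  have hfin : (H2 * H0) * (P0 * P0) ≤ (H1 ^ 2 + H1 * H0) * (P0 * P0) := by
    calc (H2 * H0) * (P0 * P0) = (H2 * P0) * (H0 * P0) := by ring
      _ ≤ (P2 * H0) * (H0 * P0) := mul_le_mul_of_nonneg_right hcmp (mul_pos hH0p hP0p).le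
      _ = (P2 * P0) * (H0 * H0) := by ring
      _ ≤ (P1 ^ 2 + P1 * P0) * (H0 * H0) := mul_le_mul_of_nonneg_right hvt (mul_self_nonneg _)
      _ = (H1 ^ 2 + H1 * H0) * (P0 * P0) := by rw [hP1y, ← hyH]; ring
  exact le_of_mul_le_mul_right hfin (mul_pos hP0p hP0p)

/-- Strong log-concavity of the corona sequence: `(n - k)! a k` is log-concave. -/
theorem lc_of_var (n : ℕ) (f : ℕ → ℝ) (h0 : 0 < f 0) (hf : ∀ j, 0 ≤ f j) (hn : ∀ j, n < j → f j = 0)
    (hr : ∀ j : ℕ, ((j:ℝ)+1) * f (j+1) ≤ ((n:ℝ) - j) * f j)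
    (hv : ∀ t : ℝ, 0 < t → t ≤ 1 → (∑ j ∈ range (n+1), (j:ℝ)^2 * f j * t^j) *
      (∑ j ∈ range (n+1), f j * t^j) ≤ (∑ j ∈ range (n+1), (j:ℝ) * f j * t^j)^2 +
      (∑ j ∈ range (n+1), (j:ℝ) * f j * t^j) * ∑ j ∈ range (n+1), f j * t^j)
    (a : ℕ → ℝ) (ha : ∀ k, a k = ∑ j ∈ range (k+1), f j * ((n-j).choose (k-j) : ℝ)) (k : ℕ) :
    ((n:ℝ) - k) * (a k * a (k+2)) ≤ ((n:ℝ) - k - 1) * a (k+1)^2 := by
  have hzero : ∀ l, n < l → a l = 0 := by
    intro l hl
    rw [ha]
    refine sum_eq_zero fun j hj => ?_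
    by_cases hjn : n < j
    · rw [hn j hjn, zero_mul]
    · rw [Nat.choose_eq_zero_of_lt (by rw [mem_range] at hj; omega)]
      simp
  by_cases hkn : n < k + 2
  · rw [hzero _ hkn, mul_zero, mul_zero]
    by_cases hkn' : n < k + 1
    · rw [hzero _ hkn']; simp
    · have : ((k : ℝ) + 1) ≤ n := by exact_mod_cast not_lt.1 hkn'
      exact mul_nonneg (by linarith) (sq_nonneg _)
  push Not at hkn
  set c : ℕ → ℝ := fun j => ((n - j).choose (n - (k + 2)) : ℝ) with hc
  have hcast : ∀ l j : ℕ, j ≤ l → l ≤ n → ((n - j).choose (l - j) : ℝ) = ((n - j).choose (n - l) : ℝ) := by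
    intro l j hj hl
    rw [← Nat.choose_symm (show l - j ≤ n - j by omega)]
    congr 2
    omega
  -- the three sums over `range (n + 1)`
  have hext : ∀ l, l ≤ n → a l = ∑ j ∈ range (n+1), f j * ((n - j).choose (n - l) : ℝ) := by
    intro l hl
    rw [ha]
    have hsub : range (l + 1) ⊆ range (n + 1) := range_subset_range.2 (by omega)
    rw [← sum_subset hsub]
    · refine sum_congr rfl fun j hj => ?_
      rw [hcast l j (by rw [mem_range] at hj; omega) hl]
    · intro j hj hj'
      rw [mem_range] at hj hj'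
      rw [Nat.choose_eq_zero_of_lt (by omega)]
      simp
  set m : ℝ := (n : ℝ) - (k + 1) with hm
  have hkn' : ((k : ℝ) + 2) ≤ n := by exact_mod_cast hkn
  have hm1 : 1 ≤ m := by rw [hm]; linarith
  -- binomial recursions
  have hb1 : ∀ j, j ≤ n → m * ((n - j).choose (n - (k + 1)) : ℝ) = ((k : ℝ) + 2 - j) * c j ∨
      (k + 2 < j ∧ c j = 0 ∧ ((n - j).choose (n - (k + 1)) : ℝ) = 0) := by
    intro j hj
    by_cases hjk : j ≤ k + 2
    · left
      have h := Nat.choose_succ_right_eq (n - j) (n - (k + 2))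
      have e1 : n - (k + 2) + 1 = n - (k + 1) := by omega
      have e2 : n - j - (n - (k + 2)) = k + 2 - j := by omega
      rw [e1, e2] at h
      have h' := congrArg (fun x : ℕ => (x : ℝ)) h
      push_cast [Nat.cast_sub hjk, Nat.cast_sub (show k + 1 ≤ n by omega)] at h'
      rw [hc, hm]
      linarith
    · right
      push Not at hjk
      refine ⟨hjk, ?_, ?_⟩
      · rw [hc]
        simp only
        rw [Nat.choose_eq_zero_of_lt (by omega)]; simp
      · rw [Nat.choose_eq_zero_of_lt (by omega)]; simp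
  have hb1' : ∀ j, j ≤ n → m * ((n - j).choose (n - (k + 1)) : ℝ) = ((k : ℝ) + 2 - j) * c j := by
    intro j hj
    rcases hb1 j hj with h | ⟨-, h, h'⟩
    · exact h
    · rw [h, h']; ring
  have hb2 : ∀ j, j ≤ n → (m + 1) * ((n - j).choose (n - k) : ℝ) =
      ((k : ℝ) + 1 - j) * ((n - j).choose (n - (k + 1)) : ℝ) := by
    intro j hj
    by_cases hjk : j ≤ k + 1
    · have h := Nat.choose_succ_right_eq (n - j) (n - (k + 1))
      have e1 : n - (k + 1) + 1 = n - k := by omega
      have e2 : n - j - (n - (k + 1)) = k + 1 - j := by omega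
      rw [e1, e2] at h
      have h' := congrArg (fun x : ℕ => (x : ℝ)) h
      push_cast [Nat.cast_sub hjk, Nat.cast_sub (show k ≤ n by omega)] at h'
      rw [hm]
      linarith
    · rw [Nat.choose_eq_zero_of_lt (show n - j < n - k by omega),
        Nat.choose_eq_zero_of_lt (show n - j < n - (k + 1) by omega)]
      simp
  set H0 := ∑ j ∈ range (n+1), f j * c j with hH0
  set H1 := ∑ j ∈ range (n+1), (j:ℝ) * (f j * c j) with hH1
  set H2 := ∑ j ∈ range (n+1), (j:ℝ)^2 * (f j * c j) with hH2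
  have ha2 : a (k + 2) = H0 := hext _ hkn
  have ha1 : m * a (k + 1) = ((k : ℝ) + 2) * H0 - H1 := by
    rw [hext _ (by omega), mul_sum, hH0, hH1, mul_sum, ← sum_sub_distrib]
    refine sum_congr rfl fun j hj => ?_
    have := hb1' j (by simpa [Nat.lt_succ_iff] using hj)
    calc m * (f j * ((n - j).choose (n - (k + 1)) : ℝ))
        = f j * (m * ((n - j).choose (n - (k + 1)) : ℝ)) := by ring
      _ = _ := by rw [this]; ring
  have ha0 : m * (m + 1) * a k =
      ((k : ℝ) + 2) * ((k : ℝ) + 1) * H0 - (2 * (k : ℝ) + 3) * H1 + H2 := by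
    rw [hext _ (by omega), mul_sum, hH0, hH1, hH2, mul_sum, mul_sum, ← sum_sub_distrib,
      ← sum_add_distrib]
    refine sum_congr rfl fun j hj => ?_
    have hj' : j ≤ n := by simpa [Nat.lt_succ_iff] using hj
    have e1 := hb1' j hj'
    have e2 := hb2 j hj'
    calc m * (m + 1) * (f j * ((n - j).choose (n - k) : ℝ))
        = f j * (m * ((m + 1) * ((n - j).choose (n - k) : ℝ))) := by ring
      _ = f j * (((k : ℝ) + 1 - j) * (m * ((n - j).choose (n - (k + 1)) : ℝ))) := by rw [e2]; ring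
      _ = _ := by rw [e1]; ring
  have hc0 : ∀ j, 0 ≤ c j := fun j => Nat.cast_nonneg _
  have hcK : ∀ j, j < k + 2 → c (j + 1) * ((n : ℝ) - j) = c j * (((k + 2 : ℕ) : ℝ) - j) := by
    intro j hj
    have h := Nat.choose_mul_succ_eq (n - (j + 1)) (n - (k + 2))
    have e1 : n - (j + 1) + 1 = n - j := by omega
    rw [e1] at h
    have e2 : n - j - (n - (k + 2)) = k + 2 - j := by omega
    rw [e2] at h
    have h' := congrArg (fun x : ℕ => (x : ℝ)) h
    push_cast [Nat.cast_sub (show j ≤ k + 2 by omega), Nat.cast_sub (show j ≤ n by omega)] at h'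
    rw [hc]
    push_cast
    linarith
  have hvar := var_le (K := k + 2) hkn h0 hf hv hc0
    (fun j hj => by
      rw [hc]
      exact Nat.cast_pos.2 (Nat.choose_pos (by omega)))
    (fun j hj hj' => by
      rw [hc]
      simp only
      rw [Nat.choose_eq_zero_of_lt (by omega)]; simp)
    hcK
  rw [← hH0, ← hH1, ← hH2] at hvar
  -- the mean
  have hmean : H1 ≤ ((k : ℝ) + 2) * H0 - H1 := by
    have h1 : H1 = ∑ j ∈ range n, ((j:ℝ) + 1) * (f (j+1) * c (j+1)) := by
      rw [hH1, sum_range_succ']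
      simp
    have h2 : ((k : ℝ) + 2) * H0 - H1 = ∑ j ∈ range (n+1), ((k:ℝ) + 2 - j) * (f j * c j) := by
      rw [hH0, hH1, mul_sum, ← sum_sub_distrib]
      exact sum_congr rfl fun j _ => by ring
    have h3 : ∀ j, j ≤ n → 0 ≤ ((k:ℝ) + 2 - j) * (f j * c j) := by
      intro j hj
      rcases hb1 j hj with h | ⟨-, h, -⟩
      · have h4 : ((k:ℝ) + 2 - j) * (f j * c j) =
            f j * (m * ((n - j).choose (n - (k + 1)) : ℝ)) := by rw [h]; ring
        rw [h4]
        exact mul_nonneg (hf j) (mul_nonneg (by linarith) (Nat.cast_nonneg _))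
      · rw [h]; simp
    rw [h2, sum_range_succ, h1]
    have h5 : ∑ j ∈ range n, ((j:ℝ) + 1) * (f (j+1) * c (j+1)) ≤
        ∑ j ∈ range n, ((k:ℝ) + 2 - j) * (f j * c j) := by
      refine sum_le_sum fun j hj => ?_
      rw [mem_range] at hj
      by_cases hjk : j < k + 2
      · have e := hcK j hjk
        push_cast at e
        calc ((j:ℝ) + 1) * (f (j+1) * c (j+1)) = (((j:ℝ)+1) * f (j+1)) * c (j+1) := by ring
          _ ≤ (((n:ℝ) - j) * f j) * c (j+1) := mul_le_mul_of_nonneg_right (hr j) (hc0 _)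
          _ = f j * (c (j+1) * ((n:ℝ) - j)) := by ring
          _ = ((k:ℝ) + 2 - j) * (f j * c j) := by rw [e]; ring
      · have e : c (j + 1) = 0 := by
          rw [hc]
          simp only
          rw [Nat.choose_eq_zero_of_lt (by omega)]; simp
        rw [e, mul_zero, mul_zero]
        exact h3 j (by omega)
    linarith [h3 n le_rfl]
  have hH0n : 0 ≤ H0 := sum_nonneg fun j _ => mul_nonneg (hf j) (hc0 j)
  -- conclusion
  have hmain : (m * (m + 1) * a k) * a (k + 2) ≤ (m * a (k + 1)) ^ 2 := by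
    rw [ha0, ha1, ha2]
    nlinarith [mul_le_mul_of_nonneg_right hmean hH0n]
  have h6 : m * ((m + 1) * (a k * a (k + 2))) ≤ m * (m * a (k + 1) ^ 2) := by
    calc m * ((m + 1) * (a k * a (k + 2))) = (m * (m + 1) * a k) * a (k + 2) := by ring
      _ ≤ (m * a (k + 1)) ^ 2 := hmain
      _ = m * (m * a (k + 1) ^ 2) := by ring
  have h7 := le_of_mul_le_mul_left h6 (by linarith)
  have e1 : (n : ℝ) - k = m + 1 := by rw [hm]; ring
  have e2 : (n : ℝ) - k - 1 = m := by rw [hm]; ring
  rw [e2, e1]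
  exact h7

end B

/-! ## C: the independence sequence of a corona -/

section C
open Finset
open scoped Classical

variable {V : Type*} [Fintype V]

/-- the vertices outside `U` not adjacent to a vertex of `J` -/
noncomputable def out (G : SimpleGraph V) (U J : Finset V) : Finset V :=
  (univ \ U).filter (fun r => ∀ u ∈ J, ¬ G.Adj u r)

theorem card_out (G : SimpleGraph V) (U J : Finset V) (hJ : J ⊆ U)
    (h2 : ∀ u ∈ U, ∃ r, r ∉ U ∧ G.Adj u r ∧ ∀ r' ∉ U, G.Adj u r' → r' = r)
    (h3 : ∀ r ∉ U, ∀ u u', G.Adj r u → G.Adj r u' → u = u') :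
    (out G U J).card = (univ \ U).card - J.card ∧ J.card ≤ (univ \ U).card := by
  have h2' : ∀ u : V, ∃ r : V, u ∈ U → r ∉ U ∧ G.Adj u r ∧ ∀ r' ∉ U, G.Adj u r' → r' = r := by
    intro u
    by_cases hu : u ∈ U
    · obtain ⟨r, hr⟩ := h2 u hu
      exact ⟨r, fun _ => hr⟩
    · exact ⟨u, fun h => absurd h hu⟩
  choose ρ hρ using h2'
  have hinj : Set.InjOn ρ (J : Set V) := by
    intro u hu u' hu' h
    have a := hρ u (hJ hu)
    have b := hρ u' (hJ hu')
    exact h3 (ρ u) a.1 u u' a.2.1.symm (h ▸ b.2.1.symm)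
  have himg : (univ \ U).filter (fun r => ¬ ∀ u ∈ J, ¬ G.Adj u r) = J.image ρ := by
    ext r
    rw [mem_filter, mem_image, mem_sdiff]
    constructor
    · rintro ⟨⟨-, hr⟩, h⟩
      push Not at h
      obtain ⟨u, hu, hur⟩ := h
      exact ⟨u, hu, ((hρ u (hJ hu)).2.2 r hr hur).symm⟩
    · rintro ⟨u, hu, rfl⟩
      have a := hρ u (hJ hu)
      exact ⟨⟨mem_univ _, a.1⟩, fun h => h u hu a.2.1⟩
  have hc := card_filter_add_card_filter_not (s := univ \ U) (fun r => ∀ u ∈ J, ¬ G.Adj u r)
  rw [himg, card_image_of_injOn hinj] at hc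
  rw [out]
  omega

theorem fibre (G : SimpleGraph V) (U : Finset V)
    (h1 : ∀ r ∉ U, ∀ r' ∉ U, ¬ G.Adj r r') (J : Finset V) (hJ : J ⊆ U) (hi : Ind G J) (k : ℕ) :
    ((Ik G univ k).filter (fun I => I ∩ U = J)).card =
      if J.card ≤ k then (out G U J).card.choose (k - J.card) else 0 := by
  split_ifs with hk
  · rw [← card_powersetCard]
    refine card_bij' (fun I _ => I \ U) (fun R _ => J ∪ R) ?_ ?_ ?_ ?_
    · intro I hI
      rw [mem_filter, mem_Ik] at hI
      obtain ⟨⟨-, h4, h5⟩, h6⟩ := hI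
      rw [mem_powersetCard]
      refine ⟨fun r hr => ?_, ?_⟩
      · rw [mem_sdiff] at hr
        rw [out, mem_filter, mem_sdiff]
        refine ⟨⟨mem_univ _, hr.2⟩, fun u hu => ?_⟩
        have hu' : u ∈ I ∩ U := h6 ▸ hu
        exact h4 u (mem_inter.1 hu').1 r hr.1
      · have := card_sdiff_add_card_inter I U
        rw [h6] at this
        omega
    · intro R hR
      rw [mem_powersetCard] at hR
      obtain ⟨h4, h5⟩ := hR
      have hRU : Disjoint R U := by
        rw [disjoint_left]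
        intro r hr
        have := h4 hr
        rw [out, mem_filter, mem_sdiff] at this
        exact this.1.2
      have hJR : Disjoint J R := (hRU.mono_right hJ).symm
      rw [mem_filter, mem_Ik]
      refine ⟨⟨subset_univ _, ?_, ?_⟩, ?_⟩
      · intro a ha b hb
        rw [mem_union] at ha hb
        rcases ha with ha | ha <;> rcases hb with hb | hb
        · exact hi a ha b hb
        · have := h4 hb
          rw [out, mem_filter] at this
          exact this.2 a ha
        · have := h4 ha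
          rw [out, mem_filter] at this
          exact fun h => this.2 b hb h.symm
        · exact h1 a (disjoint_left.1 hRU ha) b (disjoint_left.1 hRU hb)
      · rw [card_union_of_disjoint hJR, h5]
        omega
      · rw [union_inter_distrib_right, inter_eq_left.2 hJ, disjoint_iff_inter_eq_empty.1 hRU,
          union_empty]
    · intro I hI
      rw [mem_filter] at hI
      show J ∪ I \ U = I
      rw [← hI.2]
      ext x
      simp only [mem_union, mem_inter, mem_sdiff]
      tauto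
    · intro R hR
      rw [mem_powersetCard] at hR
      ext x
      simp only [mem_union, mem_sdiff]
      constructor
      · rintro ⟨h | h, h'⟩
        · exact absurd (hJ h) h'
        · exact h
      · intro h
        have := hR.1 h
        rw [out, mem_filter, mem_sdiff] at this
        exact ⟨Or.inr h, this.1.2⟩
  · rw [card_eq_zero, eq_empty_iff_forall_notMem]
    intro I hI
    rw [mem_filter, mem_Ik] at hI
    obtain ⟨⟨-, -, h5⟩, h6⟩ := hI
    have := card_le_card (inter_subset_left (s₁ := I) (s₂ := U))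
    rw [h6] at this
    omega

/-- The counting formula. -/
theorem cnt_corona (G : SimpleGraph V) (U : Finset V)
    (h1 : ∀ r ∉ U, ∀ r' ∉ U, ¬ G.Adj r r')
    (h2 : ∀ u ∈ U, ∃ r, r ∉ U ∧ G.Adj u r ∧ ∀ r' ∉ U, G.Adj u r' → r' = r)
    (h3 : ∀ r ∉ U, ∀ u u', G.Adj r u → G.Adj r u' → u = u') (k : ℕ) :
    cnt G univ k = ∑ j ∈ range (k + 1), cnt G U j * ((univ \ U).card - j).choose (k - j) := by
  have hmaps : ∀ I ∈ Ik G univ k, I ∩ U ∈ (U.powerset.filter (Ind G)).filter (fun J => J.card ≤ k) := by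
    intro I hI
    rw [mem_Ik] at hI
    rw [mem_filter, mem_filter, mem_powerset]
    refine ⟨⟨inter_subset_right, hI.2.1.subset inter_subset_left⟩, ?_⟩
    have := card_le_card (inter_subset_left (s₁ := I) (s₂ := U))
    omega
  rw [cnt_eq, card_eq_sum_card_fiberwise hmaps]
  have hmaps2 : ∀ J ∈ (U.powerset.filter (Ind G)).filter (fun J => J.card ≤ k),
      J.card ∈ range (k + 1) := by
    intro J hJ
    rw [mem_filter] at hJ
    exact mem_range.2 (by omega)
  rw [← sum_fiberwise_of_maps_to hmaps2]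
  refine sum_congr rfl fun j hj => ?_
  rw [mem_range] at hj
  rw [sum_congr rfl (g := fun _ => ((univ \ U).card - j).choose (k - j))]
  · rw [sum_const, smul_eq_mul]
    congr 1
    rw [cnt_eq]
    congr 1
    ext J
    simp only [mem_filter, mem_powerset, mem_Ik]
    constructor
    · rintro ⟨⟨⟨a, b⟩, c⟩, d⟩
      exact ⟨a, b, d⟩
    · rintro ⟨a, b, d⟩
      exact ⟨⟨⟨a, b⟩, by omega⟩, d⟩
  · intro J hJ
    simp only [mem_filter, mem_powerset] at hJ
    obtain ⟨⟨⟨hJ1, hJ2⟩, hJ3⟩, hJ4⟩ := hJ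
    have := fibre G U h1 J hJ1 hJ2 k
    rw [if_pos hJ3, (card_out G U J hJ1 h2 h3).1, hJ4] at this
    exact this

theorem card_le_out (G : SimpleGraph V) (U : Finset V)
    (h2 : ∀ u ∈ U, ∃ r, r ∉ U ∧ G.Adj u r ∧ ∀ r' ∉ U, G.Adj u r' → r' = r)
    (h3 : ∀ r ∉ U, ∀ u u', G.Adj r u → G.Adj r u' → u = u') : U.card ≤ (univ \ U).card :=
  (card_out G U U (Subset.refl _) h2 h3).2

theorem cnt_eq_zero_of_out (G : SimpleGraph V) (U : Finset V)
    (h2 : ∀ u ∈ U, ∃ r, r ∉ U ∧ G.Adj u r ∧ ∀ r' ∉ U, G.Adj u r' → r' = r)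
    (h3 : ∀ r ∉ U, ∀ u u', G.Adj r u → G.Adj r u' → u = u') (j : ℕ) (hj : (univ \ U).card < j) :
    cnt G U j = 0 :=
  cnt_eq_zero ((card_le_out G U h2 h3).trans_lt hj)

omit [Fintype V] in
/-- Every independent set has at most `card U - j` extensions inside `U`. -/
theorem succ_mul_cnt_le (G : SimpleGraph V) (U : Finset V) (j : ℕ) :
    (j + 1) * cnt G U (j + 1) ≤ (U.card - j) * cnt G U j := by
  rw [succ_mul_cnt', cnt_eq, mul_comm, ← smul_eq_mul]
  refine sum_le_card_nsmul _ _ _ fun I hI => ?_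
  rw [mem_Ik] at hI
  have hsub : free G U I ⊆ U \ I := by
    intro v hv
    rw [free, mem_filter] at hv
    rw [mem_sdiff]
    refine ⟨hv.1, fun hvI => ?_⟩
    exact (mem_del.1 (hv.2 hvI)).2.1 rfl
  have := card_le_card hsub
  rw [card_sdiff_of_subset hI.1, hI.2.2] at this
  exact this

/-- The same over the reals, with the number `n` of the vertices outside `U`. -/
theorem succ_mul_cnt_le' (G : SimpleGraph V) (U : Finset V)
    (h2 : ∀ u ∈ U, ∃ r, r ∉ U ∧ G.Adj u r ∧ ∀ r' ∉ U, G.Adj u r' → r' = r)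
    (h3 : ∀ r ∉ U, ∀ u u', G.Adj r u → G.Adj r u' → u = u') (j : ℕ) :
    ((j : ℝ) + 1) * (cnt G U (j + 1) : ℝ) ≤ (((univ \ U).card : ℝ) - j) * (cnt G U j : ℝ) := by
  have hle := card_le_out G U h2 h3
  by_cases hj : j ≤ U.card
  · have h := succ_mul_cnt_le G U j
    have h' : ((j : ℝ) + 1) * (cnt G U (j + 1) : ℝ) ≤ ((U.card : ℝ) - j) * (cnt G U j : ℝ) := by
      have := (Nat.cast_le (α := ℝ)).2 h
      push_cast [Nat.cast_sub hj] at this
      exact this
    refine h'.trans (mul_le_mul_of_nonneg_right ?_ (Nat.cast_nonneg _))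
    have : (U.card : ℝ) ≤ ((univ \ U).card : ℝ) := by exact_mod_cast hle
    linarith
  · rw [cnt_eq_zero (G := G) (S := U) (k := j + 1) (by omega),
      cnt_eq_zero (G := G) (S := U) (k := j) (by omega)]
    simp

end C

/-! ## D: well-covered forests -/

section D
open Finset
open scoped Classical

variable {V : Type*} [Fintype V]

/-- a colour class together with the isolated vertices is a maximal independent set -/
theorem maximal_side (G : SimpleGraph V) (c : V → Fin 2) (hc : ∀ u v, G.Adj u v → c u ≠ c v) (i : Fin 2) :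
    Maximal (fun s : Finset V => G.IsIndepSet (s : Set V))
      (univ.filter (fun v => c v = i ∨ ∀ w, ¬ G.Adj v w)) := by
  constructor
  · intro u hu v hv _ h
    simp only [coe_filter, mem_univ, true_and, Set.mem_ofPred_eq] at hu hv
    have h1 : c u = i := hu.resolve_right (fun hh => hh v h)
    have h2 : c v = i := hv.resolve_right (fun hh => hh u h.symm)
    exact hc u v h (h1.trans h2.symm)
  · intro s hs hle v hv
    rw [mem_filter]
    refine ⟨mem_univ _, ?_⟩
    by_contra hcon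
    push Not at hcon
    obtain ⟨h1, w, hw⟩ := hcon
    have hwi : c w = i := by
      have h3 := hc v w hw
      omega
    have hws : w ∈ s := hle (by rw [mem_filter]; exact ⟨mem_univ _, Or.inl hwi⟩)
    exact hs hv hws hw.ne hw

/-- an independent set extends to a maximal one -/
theorem extend (G : SimpleGraph V) (I : Finset V) (hI : G.IsIndepSet (I : Set V)) :
    ∃ J : Finset V, I ⊆ J ∧ Maximal (fun s : Finset V => G.IsIndepSet (s : Set V)) J := by
  obtain ⟨J, h1, h2⟩ := Finite.exists_le_maximal (p := fun s : Finset V => G.IsIndepSet (s : Set V)) hI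
  exact ⟨J, h1, h2⟩

/-- the perfect matching of the non-isolated vertices -/
theorem exists_matching (G : SimpleGraph V) (c : V → Fin 2) (hc : ∀ u v, G.Adj u v → c u ≠ c v)
    (hw : ∀ I J : Finset V, Maximal (fun s : Finset V => G.IsIndepSet (s : Set V)) I →
      Maximal (fun s : Finset V => G.IsIndepSet (s : Set V)) J → I.card = J.card) :
    ∃ m : V → V, ∀ v w, G.Adj v w → G.Adj v (m v) ∧ m (m v) = v := by
  set A : Finset V := univ.filter (fun v => c v = 0 ∧ ∃ w, G.Adj v w) with hA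
  set B : Finset V := univ.filter (fun v => c v = 1 ∧ ∃ w, G.Adj v w) with hB
  set O : Finset V := univ.filter (fun v => ∀ w, ¬ G.Adj v w) with hO
  have hA' : univ.filter (fun v => c v = 0 ∨ ∀ w, ¬ G.Adj v w) = A ∪ O := by
    ext v
    simp only [hA, hO, mem_filter, mem_univ, true_and, mem_union]
    by_cases h : ∃ w, G.Adj v w
    · have : ¬ ∀ w, ¬ G.Adj v w := by push Not; exact h
      tauto
    · have : ∀ w, ¬ G.Adj v w := by push Not at h; exact h
      tauto
  have hB' : univ.filter (fun v => c v = 1 ∨ ∀ w, ¬ G.Adj v w) = B ∪ O := by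
    ext v
    simp only [hB, hO, mem_filter, mem_univ, true_and, mem_union]
    by_cases h : ∃ w, G.Adj v w
    · have : ¬ ∀ w, ¬ G.Adj v w := by push Not; exact h
      tauto
    · have : ∀ w, ¬ G.Adj v w := by push Not at h; exact h
      tauto
  have hdA : Disjoint A O := by
    rw [disjoint_left]
    intro v h1 h2
    simp only [hA, hO, mem_filter, mem_univ, true_and] at h1 h2
    obtain ⟨-, w, hw⟩ := h1
    exact h2 w hw
  have hdB : Disjoint B O := by
    rw [disjoint_left]
    intro v h1 h2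
    simp only [hB, hO, mem_filter, mem_univ, true_and] at h1 h2
    obtain ⟨-, w, hw⟩ := h1
    exact h2 w hw
  have mA := maximal_side G c hc 0
  have mB := maximal_side G c hc 1
  rw [hA'] at mA
  rw [hB'] at mB
  have hcard : A.card = B.card := by
    have := hw _ _ mA mB
    rw [card_union_of_disjoint hdA, card_union_of_disjoint hdB] at this
    omega
  -- Hall
  have hall : ∀ S : Finset {v // v ∈ A}, S.card ≤ (S.biUnion (fun a => univ.filter (G.Adj a.1))).card := by
    intro S
    set N : Finset V := S.biUnion (fun a => univ.filter (G.Adj a.1)) with hN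
    have hNB : N ⊆ B := by
      intro w hw'
      simp only [hN, mem_biUnion, mem_filter, mem_univ, true_and] at hw'
      obtain ⟨a, -, haw⟩ := hw'
      have ha := a.2
      simp only [hA, mem_filter, mem_univ, true_and] at ha
      simp only [hB, mem_filter, mem_univ, true_and]
      have := hc _ _ haw
      exact ⟨by omega, a.1, haw.symm⟩
    have hind : G.IsIndepSet (((S.map (Function.Embedding.subtype _)) ∪ ((B ∪ O) \ N) : Finset V) : Set V) := by
      have key : ∀ u ∈ S.map (Function.Embedding.subtype (fun v => v ∈ A)), ∀ v, v ∉ N → ¬ G.Adj u v := by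
        intro u hu v hv h
        rw [mem_map] at hu
        obtain ⟨a, ha, rfl⟩ := hu
        apply hv
        simp only [hN, mem_biUnion, mem_filter, mem_univ, true_and]
        exact ⟨a, ha, h⟩
      have hSA : ∀ u ∈ S.map (Function.Embedding.subtype (fun v => v ∈ A)), u ∈ A := by
        intro u hu
        rw [mem_map] at hu
        obtain ⟨a, ha, rfl⟩ := hu
        exact a.2
      intro u hu v hv hne h
      rw [mem_coe, mem_union] at hu hv
      rcases hu with hu | hu
      · rcases hv with hv | hv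
        · have h1 := hSA u hu
          have h2 := hSA v hv
          simp only [hA, mem_filter, mem_univ, true_and] at h1 h2
          exact hc u v h (h1.1.trans h2.1.symm)
        · rw [mem_sdiff] at hv
          exact key u hu v hv.2 h
      · rcases hv with hv | hv
        · rw [mem_sdiff] at hu
          exact key v hv u hu.2 h.symm
        · rw [mem_sdiff] at hu hv
          exact mB.1 (mem_coe.2 hu.1) (mem_coe.2 hv.1) hne h
    obtain ⟨J, hJ1, hJ2⟩ := extend G _ hind
    have h1 := hw _ _ hJ2 mB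
    have h2 := card_le_card hJ1
    have hdisj : Disjoint (S.map (Function.Embedding.subtype (fun v => v ∈ A))) ((B ∪ O) \ N) := by
      rw [disjoint_left]
      intro v hv1 hv2
      rw [mem_map] at hv1
      obtain ⟨a, ha, rfl⟩ := hv1
      have h3 := a.2
      simp only [hA, hB, hO, mem_filter, mem_univ, true_and, mem_sdiff, mem_union] at h3 hv2
      obtain ⟨h4, w, h5⟩ := h3
      rcases hv2.1 with h6 | h6
      · have : c a.1 = 1 := h6.1
        omega
      · exact h6 w h5
    rw [card_union_of_disjoint hdisj, card_map, card_sdiff_of_subset (hNB.trans subset_union_left)] at h2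
    have h3 := card_le_card (hNB.trans (subset_union_left (s₂ := O)))
    omega
  obtain ⟨f, hf1, hf2⟩ := (Finset.all_card_le_biUnion_card_iff_exists_injective _).1 hall
  have hf3 : ∀ a : {v // v ∈ A}, G.Adj a.1 (f a) := by
    intro a
    have := hf2 a
    rw [mem_filter] at this
    exact this.2
  have himg : univ.image f = B := by
    apply eq_of_subset_of_card_le
    · intro w hw'
      rw [mem_image] at hw'
      obtain ⟨a, -, rfl⟩ := hw'
      have ha := a.2
      simp only [hA, mem_filter, mem_univ, true_and] at ha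
      simp only [hB, mem_filter, mem_univ, true_and]
      have := hc _ _ (hf3 a)
      exact ⟨by omega, a.1, (hf3 a).symm⟩
    · rw [card_image_of_injective _ hf1, ← hcard]
      simp
  have hex : ∀ v, ∃ w, (∃ u, G.Adj v u) →
      ((∃ a : {v // v ∈ A}, a.1 = v ∧ f a = w) ∨ (∃ a : {v // v ∈ A}, a.1 = w ∧ f a = v)) := by
    intro v
    by_cases h : ∃ u, G.Adj v u
    · by_cases h0 : c v = 0
      · have hv : v ∈ A := by simp only [hA, mem_filter, mem_univ, true_and]; exact ⟨h0, h⟩
        exact ⟨f ⟨v, hv⟩, fun _ => Or.inl ⟨⟨v, hv⟩, rfl, rfl⟩⟩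
      · have hv : v ∈ B := by
          simp only [hB, mem_filter, mem_univ, true_and]
          exact ⟨by omega, h⟩
        rw [← himg, mem_image] at hv
        obtain ⟨a, -, ha⟩ := hv
        exact ⟨a.1, fun _ => Or.inr ⟨a, rfl, ha⟩⟩
    · exact ⟨v, fun h' => absurd h' h⟩
  choose m hm using hex
  have hfc : ∀ a : {v // v ∈ A}, c (f a) = 1 ∧ c a.1 = 0 := by
    intro a
    have ha := a.2
    simp only [hA, mem_filter, mem_univ, true_and] at ha
    have := hc _ _ (hf3 a)
    exact ⟨by omega, ha.1⟩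
  refine ⟨m, fun v w h => ?_⟩
  have h1 := hm v ⟨w, h⟩
  have hadj : G.Adj v (m v) := by
    rcases h1 with ⟨a, ha1, ha2⟩ | ⟨a, ha1, ha2⟩
    · rw [← ha2, ← ha1]; exact hf3 a
    · have := hf3 a
      rw [ha1, ha2] at this
      exact this.symm
  refine ⟨hadj, ?_⟩
  have h2 := hm (m v) ⟨v, hadj.symm⟩
  rcases h1 with ⟨a, ha1, ha2⟩ | ⟨a, ha1, ha2⟩
  · rcases h2 with ⟨b, hb1, hb2⟩ | ⟨b, hb1, hb2⟩
    · have e1 := (hfc a).1
      have e2 := (hfc b).2
      rw [ha2] at e1
      rw [hb1] at e2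
      omega
    · have : a = b := hf1 (ha2.trans hb2.symm)
      rw [← hb1, ← this, ha1]
  · rcases h2 with ⟨b, hb1, hb2⟩ | ⟨b, hb1, hb2⟩
    · have : a = b := Subtype.ext (ha1.trans hb1.symm)
      rw [← hb2, ← this, ha2]
    · have e1 := (hfc a).2
      have e2 := (hfc b).1
      rw [ha1] at e1
      rw [hb2] at e2
      omega

/-- of the two ends of a matching edge one has no other neighbour -/
theorem leaf_or (G : SimpleGraph V) (hG : G.IsAcyclic) (c : V → Fin 2) (hc : ∀ u v, G.Adj u v → c u ≠ c v)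
    (hw : ∀ I J : Finset V, Maximal (fun s : Finset V => G.IsIndepSet (s : Set V)) I →
      Maximal (fun s : Finset V => G.IsIndepSet (s : Set V)) J → I.card = J.card)
    (m : V → V) (hm : ∀ v w, G.Adj v w → G.Adj v (m v) ∧ m (m v) = v) (v z : V) (hz : G.Adj v z) :
    (∀ w, G.Adj v w → w = m v) ∨ (∀ w, G.Adj (m v) w → w = v) := by
  by_contra hcon
  push Not at hcon
  obtain ⟨⟨x, hx1, hx2⟩, y, hy1, hy2⟩ := hcon
  obtain ⟨hv1, hv2⟩ := hm v z hz
  have hxy : ¬ G.Adj x y := by
    intro h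
    have p1 : (SimpleGraph.Walk.cons hv1 (SimpleGraph.Walk.cons hy1 SimpleGraph.Walk.nil)).IsPath := by
      simp [hv1.ne, hy1.ne, Ne.symm hy2]
    have p2 : (SimpleGraph.Walk.cons hx1 (SimpleGraph.Walk.cons h SimpleGraph.Walk.nil)).IsPath := by
      simp [hx1.ne, h.ne, Ne.symm hy2]
    have h3 := (hG.subsingleton_path v y).elim ⟨_, p1⟩ ⟨_, p2⟩
    have h4 := congrArg (fun p : G.Path v y => p.1.support) h3
    simp at h4
    exact hx2 h4.symm
  have hind : G.IsIndepSet ((({x, y} : Finset V)) : Set V) := by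
    intro a ha b hb hne h
    simp only [coe_insert, coe_singleton, Set.mem_insert_iff, Set.mem_singleton_iff] at ha hb
    rcases ha with rfl | rfl <;> rcases hb with rfl | rfl
    · exact hne rfl
    · exact hxy h
    · exact hxy h.symm
    · exact hne rfl
  obtain ⟨I, hI1, hI2⟩ := extend G _ hind
  have hxI : x ∈ I := hI1 (by simp)
  have hyI : y ∈ I := hI1 (by simp)
  have hvI : v ∉ I := fun h => hI2.1 (mem_coe.2 h) (mem_coe.2 hxI) hx1.ne hx1
  have hmI : m v ∉ I := fun h => hI2.1 (mem_coe.2 h) (mem_coe.2 hyI) hy1.ne hy1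
  set O : Finset V := univ.filter (fun v => ∀ w, ¬ G.Adj v w) with hO
  -- the non-isolated vertices of an independent set have their partners outside
  have mA := maximal_side G c hc 0
  have mB := maximal_side G c hc 1
  set A := univ.filter (fun v => c v = 0 ∨ ∀ w, ¬ G.Adj v w) with hA
  set B := univ.filter (fun v => c v = 1 ∨ ∀ w, ¬ G.Adj v w) with hB
  have e1 := hw _ _ hI2 mA
  have e2 := hw _ _ hI2 mB
  have e3 : (A ∪ B).card + (A ∩ B).card = A.card + B.card := card_union_add_card_inter A B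
  have e4 : A ∪ B = univ := by
    ext v
    simp only [hA, hB, mem_union, mem_filter, mem_univ, true_and, iff_true]
    have : c v = 0 ∨ c v = 1 := by omega
    tauto
  have e5 : A ∩ B = O := by
    ext v
    simp only [hA, hB, hO, mem_inter, mem_filter, mem_univ, true_and]
    constructor
    · rintro ⟨h1 | h1, h2 | h2⟩
      · rw [h1] at h2; exact absurd h2 (by decide)
      · exact h2
      · exact h1
      · exact h1
    · intro h; exact ⟨Or.inr h, Or.inr h⟩
  set I' := I \ O with hI'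
  have hnonO : ∀ u, u ∉ O → ∃ w, G.Adj u w := by
    intro u hu
    by_contra h
    push Not at h
    exact hu (by simp only [hO, mem_filter, mem_univ, true_and]; exact h)
  have hinj : Set.InjOn m (I' : Set V) := by
    intro u hu u' hu' h
    rw [mem_coe, hI', mem_sdiff] at hu hu'
    obtain ⟨w, hw1⟩ := hnonO u hu.2
    obtain ⟨w', hw1'⟩ := hnonO u' hu'.2
    rw [← (hm u w hw1).2, ← (hm u' w' hw1').2, h]
  have f1 : (I'.image m).card = I'.card := card_image_of_injOn hinj
  have f2 : Disjoint I (I'.image m) := by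
    rw [disjoint_left]
    intro a ha hb
    rw [mem_image] at hb
    obtain ⟨u, hu, rfl⟩ := hb
    rw [hI', mem_sdiff] at hu
    obtain ⟨w, hw1⟩ := hnonO u hu.2
    have := (hm u w hw1).1
    exact hI2.1 (mem_coe.2 hu.1) (mem_coe.2 ha) this.ne this
  have f3 : v ∉ I ∪ I'.image m := by
    rw [mem_union, mem_image]
    rintro (h | ⟨u, hu, h⟩)
    · exact hvI h
    · rw [hI', mem_sdiff] at hu
      obtain ⟨w, hw1⟩ := hnonO u hu.2
      apply hmI
      rw [← h, (hm u w hw1).2]
      exact hu.1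
  have f4 : (I ∪ I'.image m).card < (univ : Finset V).card := by
    apply card_lt_card
    rw [ssubset_univ_iff]
    intro h
    exact f3 (h ▸ mem_univ v)
  rw [card_union_of_disjoint f2, f1] at f4
  have f5 : I.card ≤ I'.card + O.card := by
    have h := le_card_sdiff O I
    rw [← hI'] at h
    omega
  rw [e4, e5] at e3
  omega

theorem exists_inner (G : SimpleGraph V) (hG : G.IsAcyclic)
    (hw : ∀ I J : Finset V, Maximal (fun s : Finset V => G.IsIndepSet (s : Set V)) I →
      Maximal (fun s : Finset V => G.IsIndepSet (s : Set V)) J → I.card = J.card) :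
    ∃ U : Finset V, (∀ r ∉ U, ∀ r' ∉ U, ¬ G.Adj r r') ∧
      (∀ u ∈ U, ∃ r ∉ U, G.Adj u r ∧ ∀ r' ∉ U, G.Adj u r' → r' = r) ∧
      (∀ r ∉ U, ∀ u u', G.Adj r u → G.Adj r u' → u = u') := by
  obtain ⟨c, hc⟩ : ∃ c : V → Fin 2, ∀ u v, G.Adj u v → c u ≠ c v :=
    ⟨hG.coloringTwo, fun u v h => hG.coloringTwo.valid h⟩
  obtain ⟨m, hm⟩ := exists_matching G c hc hw
  have hl := leaf_or G hG c hc hw m hm
  refine ⟨univ.filter (fun v => (∃ w, G.Adj v w) ∧
    ((∃ w, G.Adj v w ∧ w ≠ m v) ∨ ((∀ w, G.Adj (m v) w → w = v) ∧ c v = 0))), ?_, ?_, ?_⟩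
  · intro r hr r' hr' h
    simp only [mem_filter, mem_univ, true_and, not_and, not_or] at hr hr'
    have h1 := hr ⟨r', h⟩
    have h2 := hr' ⟨r, h.symm⟩
    have h3 : r' = m r := by
      by_contra hne
      exact h1.1 ⟨r', h, hne⟩
    have h4 : r = m r' := by
      by_contra hne
      exact h2.1 ⟨r, h.symm, hne⟩
    have l1 : ∀ w, G.Adj r w → w = m r := by
      intro w hw'
      by_contra hne
      exact h1.1 ⟨w, hw', hne⟩
    have l2 : ∀ w, G.Adj r' w → w = m r' := by
      intro w hw'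
      by_contra hne
      exact h2.1 ⟨w, hw', hne⟩
    have c1 : c r ≠ 0 := h1.2 (by rw [← h3]; intro w hw'; rw [l2 w hw', ← h4])
    have c2 : c r' ≠ 0 := h2.2 (by rw [← h4]; intro w hw'; rw [l1 w hw', ← h3])
    have := hc r r' h
    omega
  · intro u hu
    simp only [mem_filter, mem_univ, true_and] at hu
    obtain ⟨⟨z, hz⟩, hu2⟩ := hu
    obtain ⟨h1, h2⟩ := hm u z hz
    have l1 : ∀ w, G.Adj (m u) w → w = u := by
      rcases hu2 with ⟨w, hw1, hw2⟩ | h
      · rcases hl u z hz with h | h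
        · exact absurd (h w hw1) hw2
        · exact h
      · exact h.1
    refine ⟨m u, ?_, h1, ?_⟩
    · simp only [mem_filter, mem_univ, true_and, not_and, not_or]
      intro _
      constructor
      · rintro ⟨w, hw1, hw2⟩
        rw [h2] at hw2
        exact hw2 (l1 w hw1)
      · intro hh
        rw [h2] at hh
        rcases hu2 with ⟨w, hw1, hw2⟩ | h
        · exact absurd (hh w hw1) hw2
        · have := hc u (m u) h1
          omega
    · intro r' hr' h
      simp only [mem_filter, mem_univ, true_and, not_and, not_or] at hr'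
      have h3 := hr' ⟨u, h.symm⟩
      have h4 : u = m r' := by
        by_contra hne
        exact h3.1 ⟨u, h.symm, hne⟩
      rw [h4, (hm r' u h.symm).2]
  · intro r hr u u' h h'
    simp only [mem_filter, mem_univ, true_and, not_and, not_or] at hr
    have h3 := hr ⟨u, h⟩
    have l1 : ∀ w, G.Adj r w → w = m r := by
      intro w hw'
      by_contra hne
      exact h3.1 ⟨w, hw', hne⟩
    rw [l1 u h, l1 u' h']

end D

/-! ## E: the theorem -/

section E
open Finset
open scoped Classical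

variable {V : Type*}

/-- a log-concave sequence which is positive up to some index and zero afterwards is unimodal -/
lemma unimodal_of_lc {a : ℕ → ℕ} {N : ℕ} (hpos : ∀ k ≤ N, 0 < a k) (hz : ∀ k, N < k → a k = 0)
    (hlc : ∀ k, a k * a (k + 2) ≤ a (k + 1) ^ 2) : UnimodalSeq a := by
  have step : ∀ k, a (k + 1) ≤ a k → a (k + 2) ≤ a (k + 1) := by
    intro k hk
    rcases Nat.lt_or_ge N k with h | h
    · rw [hz (k + 2) (by omega)]
      exact Nat.zero_le _
    · have h1 := hlc k
      have h2 := hpos k h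
      have h3 : a k * a (k + 2) ≤ a k * a (k + 1) := by
        calc a k * a (k + 2) ≤ a (k + 1) ^ 2 := h1
          _ = a (k + 1) * a (k + 1) := sq _
          _ ≤ a k * a (k + 1) := Nat.mul_le_mul_right _ hk
      exact Nat.le_of_mul_le_mul_left h3 h2
  have hex : ∃ m, a (m + 1) ≤ a m := ⟨N, by rw [hz (N + 1) (by omega)]; exact Nat.zero_le _⟩
  refine ⟨Nat.find hex, fun i hi => ?_, ?_⟩
  · have := Nat.find_min hex hi
    omega
  · intro i hi
    induction i, hi using Nat.le_induction with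
    | base => exact Nat.find_spec hex
    | succ i _ ih => exact step i ih

/-- the main theorem, for a vertex set `U` as in `exists_inner` -/
theorem lc_of_inner [Fintype V] (G : SimpleGraph V) (hG : G.IsAcyclic) (U : Finset V)
    (h1 : ∀ r ∉ U, ∀ r' ∉ U, ¬ G.Adj r r')
    (h2 : ∀ u ∈ U, ∃ r, r ∉ U ∧ G.Adj u r ∧ ∀ r' ∉ U, G.Adj u r' → r' = r)
    (h3 : ∀ r ∉ U, ∀ u u', G.Adj r u → G.Adj r u' → u = u') :
    (∀ k, ((G.indepNum : ℤ) - k) * (indepSeq G k * indepSeq G (k + 2)) ≤
        ((G.indepNum : ℤ) - k - 1) * indepSeq G (k + 1) ^ 2) ∧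
      (∀ k, indepSeq G k * indepSeq G (k + 2) ≤ indepSeq G (k + 1) ^ 2) ∧
      UnimodalSeq (indepSeq G) := by
  have hcor := cnt_corona G U h1 h2 h3
  have hz := cnt_eq_zero_of_out G U h2 h3
  have hα : alpha G univ = (univ \ U).card := by
    apply le_antisymm
    · by_contra hcon
      push Not at hcon
      have hp := cnt_pos (G := G) (S := univ) (k := alpha G univ) le_rfl
      rw [hcor (alpha G univ)] at hp
      have : ∑ j ∈ range (alpha G univ + 1),
          cnt G U j * ((univ \ U).card - j).choose (alpha G univ - j) = 0 := by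
        apply Finset.sum_eq_zero
        intro j hj
        rw [Finset.mem_range] at hj
        rcases Nat.lt_or_ge (univ \ U).card j with h | h
        · rw [hz j h, zero_mul]
        · rw [Nat.choose_eq_zero_of_lt (by omega), mul_zero]
      omega
    · apply card_le_alpha (Finset.subset_univ _)
      intro a ha b hb
      exact h1 a (Finset.mem_sdiff.1 ha).2 b (Finset.mem_sdiff.1 hb).2
  have hlc := fun k => lc_of_var (univ \ U).card (fun j => (cnt G U j : ℝ))
    (by simp [cnt_zero]) (fun j => Nat.cast_nonneg _)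
    (fun j hj => by simp [hz j hj]) (fun j => succ_mul_cnt_le' G U h2 h3 j)
    (fun t ht ht1 => hv_forest hG U hz ht ht1) (fun k => (cnt G univ k : ℝ))
    (fun k => by
      simp only [hcor k]
      push_cast
      rfl) k
  have hA : ∀ k, ((G.indepNum : ℤ) - k) * (indepSeq G k * indepSeq G (k + 2)) ≤
        ((G.indepNum : ℤ) - k - 1) * indepSeq G (k + 1) ^ 2 := by
    intro k
    have h := hlc k
    rw [← hα, In.alpha_univ] at h
    simp only [In.indepSeq_eq_cnt]
    have h' : ((((G.indepNum : ℤ) - k) * (cnt G univ k * cnt G univ (k + 2)) : ℤ) : ℝ) ≤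
        ((((G.indepNum : ℤ) - k - 1) * cnt G univ (k + 1) ^ 2 : ℤ) : ℝ) := by
      push_cast
      exact h
    exact_mod_cast h'
  have hB : ∀ k, G.indepNum < k → indepSeq G k = 0 := by
    intro k hk
    rw [In.indepSeq_eq_cnt]
    exact cnt_eq_zero_of_alpha (by rw [In.alpha_univ]; exact hk)
  have hC : ∀ k, indepSeq G k * indepSeq G (k + 2) ≤ indepSeq G (k + 1) ^ 2 := by
    intro k
    rcases Nat.lt_or_ge G.indepNum (k + 2) with h | h
    · rw [hB _ h, mul_zero]; exact Nat.zero_le _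
    · have h4 := hA k
      have h5 : (0 : ℤ) < (G.indepNum : ℤ) - k := by
        have : ((k + 2 : ℕ) : ℤ) ≤ G.indepNum := by exact_mod_cast h
        push_cast at this
        linarith
      have h6 : ((G.indepNum : ℤ) - k) * (indepSeq G k * indepSeq G (k + 2)) ≤
          ((G.indepNum : ℤ) - k) * indepSeq G (k + 1) ^ 2 := by
        refine h4.trans (mul_le_mul_of_nonneg_right (by linarith) (by positivity))
      have h7 := le_of_mul_le_mul_left h6 h5
      exact_mod_cast h7
  refine ⟨hA, hC, unimodal_of_lc (N := G.indepNum) ?_ hB hC⟩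
  intro k hk
  rw [In.indepSeq_eq_cnt]
  exact cnt_pos (by rw [In.alpha_univ]; exact hk)

/-- the main theorem -/
theorem main' [Fintype V] (G : SimpleGraph V) (hG : G.IsAcyclic)
    (hw : ∀ I J : Finset V, Maximal (fun s : Finset V => G.IsIndepSet (s : Set V)) I →
      Maximal (fun s : Finset V => G.IsIndepSet (s : Set V)) J → I.card = J.card) :
    (∀ k, ((G.indepNum : ℤ) - k) * (indepSeq G k * indepSeq G (k + 2)) ≤
        ((G.indepNum : ℤ) - k - 1) * indepSeq G (k + 1) ^ 2) ∧
      (∀ k, indepSeq G k * indepSeq G (k + 2) ≤ indepSeq G (k + 1) ^ 2) ∧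
      UnimodalSeq (indepSeq G) := by
  obtain ⟨U, h1, h2, h3⟩ := exists_inner G hG hw
  exact lc_of_inner G hG U h1 (fun u hu => by
    obtain ⟨r, hr, hr2⟩ := h2 u hu
    exact ⟨r, hr, hr2⟩) h3

end E

end Pool.Agent.Lib.MP_24a1b5_co.Wc
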